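import Pool.Agent.Work.MP_ede3c6_co.X.Par

-- merged part: Pool.Agent.Work.MP_ede3c6_co.X.P2
section
/-! Labels and rest vectors of the spine; consecutive vertices are adjacent. -/

set_option autoImplicit false

namespace Pool.Agent.Work.MP_ede3c6_co.X

open Finset Vol

/-- All data, with the balanced bits and the ranks. -/
structure Cy extends Cx where
  bS : Fin p.s → ℕ → ZMod 2
  bG : Fin p.G → ℕ → ZMod 2
  b1 : ℕ → Fin 2 → ℕ → ZMod 2
  lo : ℕ → V (Fin p.hh)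
  hi : ℕ → V (Fin p.hh)
  pre : ∀ j < toCx.J, toCx.lg j → ∀ c : Fin p.s,
    bS c ((j + 1 + p.s - 1 - c) / p.s) = enc (toCx.cg j) c
  rnk : ∀ j j' u, (j, u) ∈ toCx.XS → (j', u) ∈ toCx.XS →
    toCx.cell bS bG b1 (j, u) = toCx.cell bS bG b1 (j', u) → j ≠ j' →
    (u = 0 → ¬ (lo j = lo j' ∧ hi j = hi j')) ∧ (1 ≤ u → u / 2 ≤ p.hh → hi j ≠ hi j') ∧
      (p.hh < u / 2 → lo (j + 1) ≠ lo (j' + 1))

theorem Cx.cy_ex (x : Cx) : ∃ y : Cy, y.toCx = x := by
  classical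
  obtain ⟨bS, bG, b1, h1, h2⟩ := x.bal
  have H : ∀ u y, #{j ∈ range x.J | (j, u) ∈ x.XS ∧ x.cell bS bG b1 (j, u) = y} ≤
      (if u = 0 then x.p.L0 else 2 ^ x.p.mu) + x.p.er := fun u y => by
    by_cases h : y.1.1.1.1 = u
    · rw [← h]
      refine le_trans (card_le_card_of_injOn (fun j => (j, y.1.1.1.1)) (fun j hj => ?_)
        fun i _ j _ q => congrArg Prod.fst q) (h2 y)
      exact mem_filter.2 (mem_filter.1 hj).2
    · rw [filter_false_of_mem fun j _ q => h (by rw [← q.2]; rfl)]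
      simp
  obtain ⟨lo, hi, h3⟩ := rank_ex x.J x.p.ks x.p.hh (x.p.L0 + x.p.er) (2 ^ x.p.mu + x.p.er) x.XS
    (fun z hz => ⟨(x.mem_X.1 hz).1, (x.mem_X.1 hz).2.1⟩) (x.cell bS bG b1)
    (fun y => (cf fun _ => Iff.rfl).trans_le (H 0 y))
    (fun u hu y => (cf fun _ => Iff.rfl).trans_le ((H u y).trans (by rw [if_neg (by omega)])))
    x.ok.hr
  exact ⟨⟨x, bS, bG, b1, lo, hi, h1, h3⟩, rfl⟩

theorem one_flip {ι : Type} [DecidableEq ι] {u v : V ι} (c0 : ι) (h : ∀ c, c ≠ c0 → v c = u c) :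
    (v c0 = u c0 ∧ v = u) ∨ (v c0 = u c0 + 1 ∧ v = u + e c0) := by
  have k : ∀ a b : ZMod 2, a = b ∨ a = b + 1 := by decide
  rcases k (v c0) (u c0) with q | q
  · refine Or.inl ⟨q, funext fun c => ?_⟩
    by_cases hc : c = c0
    exacts [hc ▸ q, h c hc]
  · refine Or.inr ⟨q, funext fun c => ?_⟩
    by_cases hc : c = c0
    · subst hc
      simp [q, e_apply]
    · simp [h c hc, e_apply, hc]

namespace Cy
variable (x : Cy)

/-- rest coordinates -/
abbrev R : Type :=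
  (Fin x.p.hh ⊕ Fin x.p.hh) ⊕ (Fin x.p.s ⊕ (Fin x.p.G ⊕ (Fin x.p.d × Fin 2)))

/-- labels of the rest coordinates -/
def lamR : x.R → x.p.Lab := Sum.elim 0 (Sum.elim 0 (Sum.elim x.lam 0))

/-- a global coordinate -/
def gl (c : Fin x.p.G) : x.R := Sum.inr (Sum.inr (Sum.inl c))

/-- modulus of the global switches -/
abbrev DG : ℕ := x.p.G * (x.p.P + 1)

/-- residue of the global switches -/
abbrev rG (c : Fin x.p.G) : ℕ := c * (x.p.P + 1) + x.p.P

/-- the route in the gadget -/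
def xi (j : ℕ) : ZMod 2 := x.bG (x.cg j) ((j + x.DG - 1 - x.rG (x.cg j)) / x.DG) +
  x.bG (x.cg j) ((j + x.DG - 1 - x.rG (x.cg j)) / x.DG + 1)

/-- number of gadget steps done -/
def gi (j o : ℕ) : ℕ := (o + 1 - (x.bl j + 2 * x.p.M0)) / 2

/-- labels -/
def lb (j o : ℕ) : x.p.Lab := x.l0 j o + x.xi j • (x.gd (x.cg j)).rho (x.gi j o)

/-- ranks -/
def rk (j o : ℕ) : V (Fin x.p.hh ⊕ Fin x.p.hh) :=
  Sum.elim (fun b => if x.bl j + 2 * b < o then x.lo (j + 1) b else x.lo j b)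
    (fun b => if x.bl j + 2 * (x.p.hh + b) < o then x.hi (j + 1) b else x.hi j b)

/-- rest vectors -/
def rv (j o : ℕ) : V x.R :=
  Sum.elim (x.rk j o) (Sum.elim (x.sv x.bS j o) (Sum.elim (x.gv x.bG j o) (x.v1 x.b1 j o)))

/-- the pair in which a coordinate can be switched -/
def pm : x.R → ℕ := Sum.elim (Sum.elim (fun b => b) fun b => x.p.hh + b)
  (Sum.elim (fun _ => 2 * x.p.hh) (Sum.elim (fun _ => x.p.M0 + 1) fun _ => 2 * x.p.hh + 1))

/-- the junctions in which a coordinate can be switched -/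
def sw (j : ℕ) : x.R → Prop := Sum.elim (fun _ => True) (Sum.elim (fun c => j % x.p.s = c)
  (Sum.elim (fun c => j % x.DG = x.rG c) fun c => j % 2 ^ ((c.1 : ℕ) + 2) = rl c.1 c.2))

/-- a vector of global bits as a rest vector -/
def em (v : V (Fin x.p.G)) : V x.R := Sum.elim 0 (Sum.elim 0 (Sum.elim v 0))

theorem em_e (c : Fin x.p.G) : x.em (e c) = e (x.gl c) := by
  funext d
  rcases d with d | d | d | d <;> simp [em, gl, e_apply]

theorem em_zero : x.em 0 = 0 := by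
  funext c
  rcases c with c | c | c | c <;> rfl

theorem rv_step (j o : ℕ) (c : x.R) (h : ¬ (o = x.bl j + 2 * x.pm c ∧ x.sw j c)) :
    x.rv j (o + 1) c = x.rv j o c + x.em (x.dm j o) c := by
  rcases c with (c | c) | c | c | c
  · have : o ≠ x.bl j + 2 * c := fun q => h ⟨q, trivial⟩
    exact (if_congr (by omega) rfl rfl).trans (add_zero _).symm
  · have : o ≠ x.bl j + 2 * (x.p.hh + c) := fun q => h ⟨q, trivial⟩
    exact (if_congr (by omega) rfl rfl).trans (add_zero _).symm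
  · exact (congrArg (x.bS c) (x.iv_step _ _ _ _ _ c.2 h)).trans (add_zero _).symm
  · show x.Fg j (o + 1) c + _ = x.Fg j o c + _ + x.dm j o c
    rw [x.iv_step (x.p.M0 + 1) _ _ _ _ (x.res_lt c) h, Cx.Fg, Cx.Fg, sum_range_succ]
    simp only [Pi.add_apply]
    ring
  · exact (congrArg (x.b1 c.1 c.2) (x.iv_step _ _ _ _ _ (rl_lt _ _) h)).trans (add_zero _).symm

theorem sw_gl {j : ℕ} {c : Fin x.p.G} : j % x.DG = x.rG c ↔ x.lg j ∧ x.cg j = c := by
  have h1 : j % x.DG % (x.p.P + 1) = j % (x.p.P + 1) := Nat.mod_mod_of_dvd _ (Dvd.intro_left _ rfl)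
  have h2 : j % x.DG / (x.p.P + 1) = j / (x.p.P + 1) % x.p.G := by
    rw [DG, mul_comm]
    exact Nat.mod_mul_right_div_self _ _ _
  constructor
  · intro h
    rw [h] at h1 h2
    refine ⟨?_, Fin.ext ?_⟩
    · rw [Cx.lg, ← h1, rG, Nat.mul_add_mod', Nat.mod_eq_of_lt (Nat.lt_succ_self _)]
    · show j / (x.p.P + 1) % x.p.G = c
      rw [← h2, rG, add_comm ((c : ℕ) * _), Nat.add_mul_div_right _ _ (Nat.succ_pos _),
        Nat.div_eq_of_lt (Nat.lt_succ_self _), zero_add]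
  · rintro ⟨h, rfl⟩
    rw [← Nat.div_add_mod (j % x.DG) (x.p.P + 1), h1, h2, show j % (x.p.P + 1) = x.p.P from h,
      mul_comm]
    rfl

theorem M0e : x.p.M0 = 2 * x.p.hh + 3 := rfl

theorem l0_bl {j o : ℕ} (h : o < x.bl j) : x.l0 j o = x.A.lm j o := if_pos h

theorem l0_st {j o : ℕ} (h1 : x.bl j ≤ o) (h2 : o < x.bl j + 2 * x.p.M0) : x.l0 j o =
    X.mk (x.A.rz (x.A.cj j ((o - x.bl j) / 2) 0) 0)
      (x.ud (x.I.rd (x.S.mx j)) + if o + 1 < x.bl j + 2 * x.p.M0 then 0 else fun _ => 1)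
      (if o + 1 < x.bl j + 2 * x.p.M0 then x.zs j else x.zm j) := by
  rw [Cx.l0, if_neg (by omega), if_pos h2]

theorem l0_gd {j o : ℕ} (h1 : x.bl j + 2 * x.p.M0 ≤ o) (h2 : o < x.sl j) : x.l0 j o =
    X.mk ((x.gd (x.cg j)).bz ((o - x.bl j) / 2 - x.p.M0)) 0 (x.zt j) := by
  rw [Cx.l0, if_neg (by omega), if_neg (by omega), if_pos h2]

theorem l0_end {j o : ℕ} (h : x.sl j ≤ o) : x.l0 j o = x.A.lm (j + 1) 0 := by
  have := x.sl_ge j
  rw [Cx.l0, if_neg (by omega), if_neg (by omega), if_neg (by omega)]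

theorem zz_l0_lo {j o : ℕ} (h1 : x.bl j ≤ o + 1) (h2 : o + 1 < x.bl j + 2 * x.p.M0) :
    zz (x.l0 j o) = x.zs j := by
  by_cases h : o < x.bl j
  · rw [x.l0_bl h, show o = x.bl j - 1 by omega]
    rfl
  · rw [x.l0_st (by omega) (by omega), zz_mk, if_pos h2]

theorem zz_l0_hi {j o : ℕ} (h2 : x.bl j + 2 * x.p.M0 ≤ o + 1) (b : Fin x.p.kk) :
    zz (x.l0 j o) (Sum.inr b) = x.zt j (Sum.inr b) := by
  have := x.M0e
  by_cases h : o < x.bl j + 2 * x.p.M0
  · rw [x.l0_st (by omega) h, zz_mk, if_neg (by omega)]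
    exact add_zero _
  by_cases h' : o < x.sl j
  · rw [x.l0_gd (by omega) h', zz_mk]
  · rw [x.l0_end (by omega)]
    rfl

theorem lam_dir {j : ℕ} (hj : j < x.J) (o : ℕ) :
    x.lam (x.dir (x.l0 j o + x.l0 j (o + 1))) = x.l0 j o + x.l0 j (o + 1) := by
  have := x.M0e
  by_cases h1 : o + 1 < x.bl j
  · rw [x.l0_bl h1, x.l0_bl (by omega)]
    exact x.hD _ (x.A.dl1 j hj.le o h1)
  by_cases h2 : o + 2 < x.bl j + 2 * x.p.M0
  · exact x.hU _ fun b => by rw [zz_add, x.zz_l0_lo (by omega) (by omega),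
      x.zz_l0_lo (by omega) (by omega), vv, Pi.zero_apply]
  by_cases h3 : o + 2 = x.bl j + 2 * x.p.M0
  · have a : o + 1 < x.bl j + 2 * x.p.M0 := by omega
    have b : ¬ o + 1 + 1 < x.bl j + 2 * x.p.M0 := by omega
    rw [x.l0_st (by omega) (by omega), x.l0_st (by omega) (by omega),
      show (o + 1 - x.bl j) / 2 = (o - x.bl j) / 2 by omega, if_pos a, if_pos a, if_neg b, if_neg b]
    refine x.hJ _ (vv _) ?_
    convert x.I.jall fun b => x.zs j (Sum.inr b) + x.zt j (Sum.inr b) using 2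
    · rw [uo_add, uo_mk, uo_mk, add_zero, ← add_assoc, vv, zero_add]
    · funext c
      rcases c with c | c
      · show x.zs j _ + (x.zs j _ + e x.I.i0 c) = e x.I.i0 c
        rw [← add_assoc, CharTwo.add_self_eq_zero, zero_add]
      · exact congrArg (x.zs j _ + ·) (add_zero _)
  · exact x.hU _ fun b => by
      rw [zz_add, Pi.add_apply, x.zz_l0_hi (by omega), x.zz_l0_hi (by omega),
        CharTwo.add_self_eq_zero]

theorem l0_sp {j o : ℕ} (ho : o < x.sl j) (h : x.sp j o) : x.l0 j (o + 1) = x.l0 j o := by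
  obtain ⟨h1, h2, h3⟩ := h
  have e1 : (o + 1 - x.bl j) / 2 = (o - x.bl j) / 2 := by omega
  by_cases h4 : o < x.bl j + 2 * x.p.M0
  · have a : o + 1 < x.bl j + 2 * x.p.M0 := by omega
    have b : o + 1 + 1 < x.bl j + 2 * x.p.M0 := by omega
    rw [x.l0_st (by omega) (by omega), x.l0_st h1 h4, e1, if_pos a, if_pos a, if_pos b, if_pos b]
  · have : o + 1 < x.sl j := by
      unfold Cx.sl at ho ⊢
      omega
    rw [x.l0_gd (by omega) this, x.l0_gd (by omega) ho, e1]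

theorem step_triv {l : x.p.Lab} {r r' : V x.R} (c0 : x.R) (h0 : x.lamR c0 = 0)
    (h : ∀ c, c ≠ c0 → r' c = r c) : Step x.lamR l r l r' := by
  rcases one_flip c0 h with q | q
  · exact Or.inl ⟨rfl, q.2⟩
  · exact Or.inr (Or.inr ⟨c0, by rw [h0, add_zero], q.2⟩)

theorem step {j o : ℕ} (hj : j < x.J) (ho : o < x.sl j) :
    Step x.lamR (x.lb j o) (x.rv j o) (x.lb j (o + 1)) (x.rv j (o + 1)) := by
  have hM := x.M0e
  by_cases h : x.sp j o
  swap
  · refine Or.inr (Or.inr ⟨x.gl (x.dir (x.l0 j o + x.l0 j (o + 1))), ?_, funext fun c => ?_⟩)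
    · have : x.gi j (o + 1) = x.gi j o := by
        unfold Cx.sp at h
        unfold gi
        omega
      rw [lb, lb, this, show x.lamR (x.gl _) = x.lam _ from rfl, x.lam_dir hj, add_right_comm,
        ← add_assoc, vv, zero_add]
    · rw [x.rv_step, Cx.dm, if_neg h, em_e, Pi.add_apply]
      rintro ⟨q, -⟩
      refine h ⟨by omega, by omega, ?_⟩
      rcases c with (c | c) | c | c | c <;> simp only [pm, Sum.elim_inl, Sum.elim_inr] at q
      · have := c.2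
        omega
      · have := c.2
        omega
      all_goals omega
  have hr : ∀ c, ¬ (o = x.bl j + 2 * x.pm c ∧ x.sw j c) → x.rv j (o + 1) c = x.rv j o c :=
    fun c q => by rw [x.rv_step j o c q, Cx.dm, if_pos h, em_zero, Pi.zero_apply, add_zero]
  have hl := x.l0_sp ho h
  obtain ⟨h1, h2, h3⟩ := h
  obtain ⟨m, rfl⟩ : ∃ m, o = x.bl j + 2 * m := ⟨(o - x.bl j) / 2, by omega⟩
  by_cases h4 : m < x.p.M0
  · have g1 : x.gi j (x.bl j + 2 * m + 1) = x.gi j (x.bl j + 2 * m) := by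
      unfold gi
      omega
    rw [lb, lb, g1, hl]
    obtain ⟨c0, k1, k2⟩ : ∃ c0 : x.R, x.lamR c0 = 0 ∧ ∀ c, m = x.pm c → x.sw j c → c = c0 := by
      by_cases a1 : m < x.p.hh
      · refine ⟨Sum.inl (Sum.inl ⟨m, a1⟩), rfl, fun c q1 q2 => ?_⟩
        rcases c with (c | c) | c | c | c <;> simp only [pm, Sum.elim_inl, Sum.elim_inr] at q1
        · subst q1
          rfl
        all_goals omega
      by_cases a2 : m < 2 * x.p.hh
      · refine ⟨Sum.inl (Sum.inr ⟨m - x.p.hh, by omega⟩), rfl, fun c q1 q2 => ?_⟩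
        rcases c with (c | c) | c | c | c <;> simp only [pm, Sum.elim_inl, Sum.elim_inr] at q1
        · have := c.2
          omega
        · subst q1
          simp
        all_goals omega
      by_cases a3 : m = 2 * x.p.hh
      · refine ⟨Sum.inr (Sum.inl ⟨j % x.p.s, Nat.mod_lt _ x.s0⟩), rfl, fun c q1 q2 => ?_⟩
        rcases c with (c | c) | c | c | c <;> simp only [pm, Sum.elim_inl, Sum.elim_inr] at q1
        · have := c.2
          omega
        · have := c.2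
          omega
        · exact congrArg (fun z => Sum.inr (Sum.inl z)) (Fin.ext (Eq.symm q2))
        all_goals omega
      by_cases a4 : ∃ c : Fin x.p.d × Fin 2, j % 2 ^ ((c.1 : ℕ) + 2) = rl c.1 c.2
      · obtain ⟨c0, a4⟩ := a4
        refine ⟨Sum.inr (Sum.inr (Sum.inr c0)), rfl, fun c q1 q2 => ?_⟩
        rcases c with (c | c) | c | c | c <;> simp only [pm, Sum.elim_inl, Sum.elim_inr] at q1
        · have := c.2
          omega
        · have := c.2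
          omega
        · omega
        · omega
        · obtain ⟨k1, k2⟩ := rl_inj q2 a4
          rw [Prod.ext (Fin.ext k1) k2]
      · refine ⟨Sum.inr (Sum.inl ⟨0, x.s0⟩), rfl, fun c q1 q2 => ?_⟩
        rcases c with (c | c) | c | c | c <;> simp only [pm, Sum.elim_inl, Sum.elim_inr] at q1
        · have := c.2
          omega
        · have := c.2
          omega
        · omega
        · omega
        · exact absurd ⟨c, q2⟩ a4
    exact x.step_triv c0 k1 fun c hc => hr c fun q => hc (k2 c (by omega) q.2)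
  obtain ⟨g, rfl⟩ : ∃ g, m = x.p.M0 + g := ⟨m - x.p.M0, by omega⟩
  have g1 : x.gi j (x.bl j + 2 * (x.p.M0 + g)) = g := by
    unfold gi
    omega
  have g2 : x.gi j (x.bl j + 2 * (x.p.M0 + g) + 1) = g + 1 := by
    unfold gi
    omega
  rw [lb, lb, g1, g2, hl]
  have hpm : ∀ c, x.p.M0 + g = x.pm c → g = 1 ∧ ∃ d, c = x.gl d := fun c q1 => by
    rcases c with (c | c) | c | c | c <;> simp only [pm, Sum.elim_inl, Sum.elim_inr] at q1
    · have := c.2
      omega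
    · have := c.2
      omega
    · omega
    · exact ⟨by omega, c, rfl⟩
    · omega
  by_cases a : g = 1
  · subst a
    have hlg : x.lg j := by
      by_contra q
      rw [x.sl_sh q] at ho
      omega
    have key : x.rv j (x.bl j + 2 * (x.p.M0 + 1) + 1) (x.gl (x.cg j)) =
        x.rv j (x.bl j + 2 * (x.p.M0 + 1)) (x.gl (x.cg j)) + x.xi j := by
      show x.Fg j _ _ + _ = x.Fg j _ _ + _ + _
      rw [Cx.Fg, Cx.Fg, sum_range_succ, Cx.dm, if_pos ⟨h1, h2, h3⟩, add_zero, Cx.iv, Cx.iv,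
        if_pos (Nat.lt_succ_self _), if_neg (lt_irrefl _), div_step _ _ _ (x.res_lt _),
        if_pos (x.sw_gl.2 ⟨hlg, rfl⟩), xi, add_zero, add_assoc, ← add_assoc (x.bG _ _),
        CharTwo.add_self_eq_zero, zero_add]
    rcases one_flip (x.gl (x.cg j)) (fun c hc => hr c fun q => hc (by
      obtain ⟨-, d, rfl⟩ := hpm c (by omega)
      rw [(x.sw_gl.1 q.2).2])) with q | q
    · rw [key, add_eq_left] at q
      exact Or.inl ⟨by rw [q.1, zero_smul, zero_smul], q.2⟩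
    · rw [key, add_right_inj] at q
      refine Or.inr (Or.inr ⟨_, ?_, q.2⟩)
      rw [q.1, one_smul, one_smul, (x.gd _).r1, add_assoc]
      rfl
  · have k : x.rv j (x.bl j + 2 * (x.p.M0 + g) + 1) = x.rv j (x.bl j + 2 * (x.p.M0 + g)) :=
      funext fun c => hr c fun q => a (hpm c (by omega)).1
    rcases z2 (x.xi j) with q | q
    · exact Or.inl ⟨by rw [q, zero_smul, zero_smul], k⟩
    rcases (x.gd (x.cg j)).rs g a with r | ⟨b, r⟩
    · exact Or.inl ⟨by rw [r], k⟩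
    · exact Or.inr (Or.inl ⟨b, by rw [r, q, one_smul, one_smul, add_assoc], k⟩)

theorem lb_low {j o : ℕ} (h : o ≤ x.bl j + 2 * x.p.M0) : x.lb j o = x.l0 j o := by
  rw [lb, show x.gi j o = 0 by unfold gi; omega, (x.gd _).r0, smul_zero, add_zero]

theorem glue_lb (j : ℕ) : x.lb j (x.sl j) = x.lb (j + 1) 0 := by
  rw [x.lb_low (Nat.zero_le _), x.l0_bl (x.S.bl1 _), ← x.l0_end (le_refl (x.sl j))]
  by_cases h : x.lg j
  · rw [lb, show x.gi j (x.sl j) = x.p.Mg by rw [x.sl_lg h]; unfold gi; omega, (x.gd _).rM,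
      smul_zero, add_zero]
  · exact x.lb_low (x.sl_sh h).le

theorem glue_iv (pm D r j : ℕ) (h : x.bl j + 2 * pm < x.sl j) :
    x.iv pm D r j (x.sl j) = x.iv pm D r (j + 1) 0 := by
  rw [Cx.iv, Cx.iv, if_pos h, if_neg (by omega)]

theorem glue_rv (j : ℕ) : x.rv j (x.sl j) = x.rv (j + 1) 0 := by
  have h1 := x.sl_ge j
  have h2 := x.M0e
  funext c
  rcases c with (c | c) | c | c | c
  · have := c.2
    simp only [rv, rk, Sum.elim_inl]
    rw [if_pos (by omega), if_neg (Nat.not_lt_zero _)]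
  · have := c.2
    simp only [rv, rk, Sum.elim_inl, Sum.elim_inr]
    rw [if_pos (by omega), if_neg (Nat.not_lt_zero _)]
  · exact congrArg (x.bS c) (x.glue_iv _ _ _ _ (by omega))
  · show x.Fg j (x.sl j) c + _ = x.Fg (j + 1) 0 c + _
    congr 1
    · simp [Cx.Fg, Cx.Fs]
    congr 1
    by_cases h : x.lg j
    · refine x.glue_iv _ _ _ _ ?_
      rw [x.sl_lg h, Pm.Mg]
      omega
    · rw [Cx.iv, Cx.iv, if_neg (by rw [x.sl_sh h]; omega), if_neg (by omega), add_zero, add_zero,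
        div_step _ _ _ (x.res_lt c), if_neg fun q => h (x.sw_gl.1 q).1, add_zero]
  · exact congrArg (x.b1 c.1 c.2) (x.glue_iv _ _ _ _ (by omega))

end Cy

end Pool.Agent.Work.MP_ede3c6_co.X
end

-- merged part: Pool.Agent.Work.MP_ede3c6_co.X.P3
section
/-! The layouts, the class of a spine vertex, and injectivity on the spine. -/

set_option autoImplicit false

namespace Pool.Agent.Work.MP_ede3c6_co.X

open Finset Vol

theorem cast_two {a b : ℕ} (ha : a < 2) (hb : b < 2)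
    (h : ((1 + a : ℕ) : ZMod 2) = ((1 + b : ℕ) : ZMod 2)) : a = b := by
  have := (ZMod.natCast_eq_natCast_iff' _ _ _).1 h
  omega

namespace Cy
variable (x : Cy)

/-- all classes -/
abbrev Cl : Type := x.A.Cl ⊕ (ℕ × ℕ × ZMod 2)

/-- the classes of the last standard vertices -/
def Lst (y : x.A.Cl) : Prop := ∃ j < x.J, y = x.A.cj j (x.p.M0 - 1) 1

/-- zones and parities of the last standard vertices -/
def JZ (Z : V x.p.Zn) (π : ZMod 2) : Prop := ∃ y, x.Lst y ∧ x.A.rz y 0 = Z ∧ x.A.pr y = π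

theorem M1 : x.p.M0 - 1 < x.p.M0 := by
  have := x.M0e
  omega

theorem jz_two {j : ℕ} (hj : j < x.J) {w : x.A.Cl} (hw : x.A.ok w)
    (h : x.A.rz (x.A.cj j (x.p.M0 - 1) 1) 0 = x.A.rz w 0) :
    w = x.A.cj j (x.p.M0 - 1) 0 ∨ w = x.A.cj j (x.p.M0 - 1) 1 := by
  obtain ⟨a1, a2, a3, -⟩ := x.A.cj1 j hj _ x.M1 0 (by omega)
  obtain ⟨b1, b2, b3, b4⟩ := x.A.cj1 j hj _ x.M1 1 (by omega)
  have k : ∀ a b c : ZMod 2, c = b + 1 → a = b ∨ a = c := by decide
  refine (k _ _ _ ?_).imp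
    (fun q => (x.A.inj _ _ 0 0 hw a1 (vr_zero _) (vr_zero _) (h.symm.trans b4) q).1)
    fun q => (x.A.inj _ _ 0 0 hw b1 (vr_zero _) (vr_zero _) h.symm q).1
  rw [a2, b2, a3, b3, rp, rp]
  split_ifs <;> push_cast <;> ring

theorem jz_iff {w : x.A.Cl} (hw : x.A.ok w) : x.JZ (x.A.rz w 0) (x.A.pr w) ↔ x.Lst w := by
  refine ⟨?_, fun h => ⟨w, h, rfl, rfl⟩⟩
  rintro ⟨_, ⟨j, hj, rfl⟩, h1, h2⟩
  refine ⟨j, hj, (x.jz_two hj hw h1).resolve_left ?_⟩
  rintro rfl
  rw [(x.A.cj1 j hj _ x.M1 0 (by omega)).2.2.1, (x.A.cj1 j hj _ x.M1 1 (by omega)).2.2.1] at h2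
  have := (ZMod.natCast_eq_natCast_iff' _ _ _).1 h2
  omega

theorem jz_std {Z : V x.p.Zn} {π : ZMod 2} (h : x.JZ Z π) : x.p.Std Z := by
  obtain ⟨_, ⟨j, hj, rfl⟩, rfl, -⟩ := h
  exact x.A.rzA _ 0 (x.A.cj1 j hj _ x.M1 1 (by omega)).1 (vr_zero _)

open Classical in
/-- special values -/
noncomputable def us (c : Fin x.p.G) (Z : V x.p.Zn) (π : ZMod 2) : V (Fin x.p.t) :=
  if x.JZ Z π then fun _ => 1 else
  if h : ∃ q : ℕ × ℕ, q.1 < x.p.Mg ∧ q.2 < 2 ∧ (x.gd c).az q.1 q.2 = Z ∧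
    ((1 + q.2 : ℕ) : ZMod 2) = π then uo ((x.gd c).rho (h.choose.1 + h.choose.2)) else 0

theorem us_az (c : Fin x.p.G) {g o : ℕ} (hg : g < x.p.Mg) (ho : o < 2) :
    x.us c ((x.gd c).az g o) ((1 + o : ℕ) : ZMod 2) = uo ((x.gd c).rho (g + o)) := by
  have h : ∃ q : ℕ × ℕ, q.1 < x.p.Mg ∧ q.2 < 2 ∧ (x.gd c).az q.1 q.2 = (x.gd c).az g o ∧
    ((1 + q.2 : ℕ) : ZMod 2) = ((1 + o : ℕ) : ZMod 2) := ⟨(g, o), hg, ho, rfl, rfl⟩
  obtain ⟨h1, h2, h3, h4⟩ := h.choose_spec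
  rw [us, if_neg fun q => (x.gd c).na _ _ (x.jz_std q), dif_pos h,
    (x.gd c).ia _ h1 _ hg _ h2 _ ho h3, cast_two h2 ho h4]

theorem us_std (c : Fin x.p.G) {w : x.A.Cl} (h : x.A.ok w) (h' : ¬ x.Lst w) :
    x.us c (x.A.rz w 0) (x.A.pr w) = 0 := by
  rw [us, if_neg fun q => h' ((x.jz_iff h).1 q)]
  exact dif_neg fun ⟨_, _, _, q, _⟩ => (x.gd c).na _ _ (q ▸ x.A.rzA w 0 h (vr_zero _))

theorem us_bz (c : Fin x.p.G) {g : ℕ} (hg : g < x.p.Mg) (π : ZMod 2) :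
    x.us c ((x.gd c).bz g) π = 0 := by
  rw [us, if_neg fun q => (x.gd c).nb _ (x.jz_std q)]
  exact dif_neg fun ⟨_, a, b, q, _⟩ => (x.gd c).iab _ a _ hg _ b q

theorem lst_ty {y z : x.A.Cl} (hy : x.Lst y) (hz : x.A.ok z) (h : x.A.rz y 0 = x.A.rz z 0) :
    x.A.ty y = x.A.ty z := by
  obtain ⟨j, hj, rfl⟩ := hy
  rcases x.jz_two hj hz h with rfl | rfl
  · rw [(x.A.cj1 j hj _ x.M1 0 (by omega)).2.1, (x.A.cj1 j hj _ x.M1 1 (by omega)).2.1]
  · rfl

/-- zone of a gadget class -/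
def gz (c : Fin x.p.G) (q : ℕ × ℕ × ZMod 2) : V x.p.Zn :=
  if q.2.2 = 0 then (x.gd c).bz q.1 else (x.gd c).az q.1 q.2.1

theorem gz_ns (c : Fin x.p.G) (q : ℕ × ℕ × ZMod 2) : ¬ x.p.Std (x.gz c q) := by
  unfold gz
  split_ifs
  exacts [(x.gd c).nb _, (x.gd c).na _ _]

theorem top : ¬ x.I.rd x.p.Am < aS x.p.t x.p.mu :=
  not_lt.2 (x.I.top0.trans (x.I.rd1 _ le_rfl))

open Classical in
/-- the layout that belongs to the direction `c` -/
noncomputable def lay (c : Fin x.p.G) : Lay x.I x.p.Zn x.Cl where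
  ok := Sum.elim x.A.ok fun q => q.1 < x.p.Mg ∧ q.2.1 < 2
  ty := Sum.elim x.A.ty fun _ => x.I.rd x.p.Am
  pr := Sum.elim x.A.pr fun q => ((1 + q.2.1 : ℕ) : ZMod 2)
  rz := Sum.elim x.A.rz fun q _ => x.gz c q
  dl := Sum.elim (fun y => if x.Lst y then x.ez else 0)
    fun q => q.2.2 • zz ((x.gd c).rho (q.1 + q.2.1))
  us := x.us c
  tyT := by
    rintro (y | y) h
    exacts [x.A.tyT y h, x.I.rdT _ le_rfl]
  inj := by
    rintro (y | y) (z | z) r r' hy hz h1 h2 h3 h4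
    · obtain ⟨rfl, rfl⟩ := x.A.inj y z r r' hy hz h1 h2 h3 h4
      exact ⟨rfl, rfl⟩
    · exact absurd ((show x.A.rz y r = x.gz c z from h3) ▸ x.A.rzA y r hy h1) (x.gz_ns c z)
    · exact absurd ((show x.gz c y = x.A.rz z r' from h3).symm ▸ x.A.rzA z r' hz h2) (x.gz_ns c y)
    · obtain ⟨g, o, s⟩ := y
      obtain ⟨g', o', s'⟩ := z
      simp only [Sum.elim_inr, vr, rp, x.top, false_and, if_false, add_left_inj,
        gz] at hy hz h1 h2 h3 h4
      obtain rfl := cast_two hy.2 hz.2 h4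
      refine ⟨?_, by omega⟩
      rcases z2 s with rfl | rfl <;> rcases z2 s' with rfl | rfl
      · simp only [if_true] at h3
        rw [(x.gd c).ib _ hy.1 _ hz.1 h3]
      · simp only [if_true, one_ne_zero, if_false] at h3
        exact absurd h3.symm ((x.gd c).iab _ hz.1 _ hy.1 _ hz.2)
      · simp only [if_true, one_ne_zero, if_false] at h3
        exact absurd h3 ((x.gd c).iab _ hy.1 _ hz.1 _ hz.2)
      · simp only [one_ne_zero, if_false] at h3
        rw [(x.gd c).ia _ hy.1 _ hz.1 _ hy.2 _ hz.2 h3]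
  pair := by
    rintro (y | y) (z | z) hy hz h1 h2
    · refine Or.inr (Or.inr ?_)
      by_cases a : x.Lst y
      · exact x.lst_ty a hz h1
      by_cases b : x.Lst z
      · exact (x.lst_ty b hy h1.symm).symm
      · exact absurd ((x.us_std c hy a).trans (x.us_std c hz b).symm) h2
    · exact absurd ((show x.A.rz y 0 = x.gz c z from h1) ▸ x.A.rzA y 0 hy (vr_zero _))
        (x.gz_ns c z)
    · exact absurd ((show x.gz c y = x.A.rz z 0 from h1).symm ▸ x.A.rzA z 0 hz (vr_zero _))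
        (x.gz_ns c y)
    · exact Or.inr (Or.inr rfl)

/-- class of a vertex -/
def cl (j o : ℕ) : x.Cl :=
  if o < x.bl j then Sum.inl (x.A.cm j o) else
  if o < x.bl j + 2 * x.p.M0 then Sum.inl (x.A.cj j ((o - x.bl j) / 2) ((o - x.bl j) % 2)) else
  Sum.inr ((o - x.bl j) / 2 - x.p.M0, (o - x.bl j) % 2,
    x.xi j * (x.gd (x.cg j)).fl (x.gi j o))

theorem lg_of {j o : ℕ} (h1 : x.bl j + 2 * x.p.M0 ≤ o) (h2 : o < x.sl j) : x.lg j := by
  by_contra q
  rw [x.sl_sh q] at h2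
  omega

theorem sv_gd {j o : ℕ} (hj : j < x.J) (h1 : x.bl j + 2 * x.p.M0 ≤ o) (h2 : o < x.sl j) :
    x.sv x.bS j o = x.enc (x.cg j) := by
  funext c
  have := x.M0e
  rw [← x.pre j hj (x.lg_of h1 h2) c, Cx.sv, Cx.iv, if_pos (by omega)]

theorem mx_le (j : ℕ) : x.S.mx j ≤ x.p.Am := x.S.avl j ▸ x.S.avM _ _

theorem zs_mem {j : ℕ} (hj : j < x.J) (h : aS x.p.t x.p.mu ≤ x.I.rd (x.S.mx j)) :
    x.zs j + 0 ∈ x.I.Dz (x.I.rd (x.S.mx j)) := by
  have h1 := x.S.bl1 j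
  have := (x.A.cm1 j hj.le (x.bl j - 1) (by unfold Cx.bl; omega)).2.2.2.2.2
  rw [x.S.avl] at this
  exact (this h).2

theorem zt_mem {j : ℕ} (hj : j < x.J) (h : aS x.p.t x.p.mu ≤ x.I.rd (x.S.mx j)) :
    x.zt j + 0 ∈ x.I.Dz (x.I.rd (x.S.mx j)) := by
  have := (x.A.cm1 (j + 1) hj 0 (x.S.bl1 _)).2.2.2.2.2
  rw [x.S.avf] at this
  exact (this h).2

theorem site {j o : ℕ} (hj : j < x.J) (ho : o < x.sl j) :
    (x.lay (x.dec (x.sv x.bS j o))).St (x.cl j o) (x.lb j o) ∧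
    (x.lay (x.dec (x.sv x.bS j o))).pr (x.cl j o) = ((x.S.bs j + o : ℕ) : ZMod 2) ∧
    (x.S.bs j + o < x.k → x.a (x.S.bs j + o) ≤ (x.lay (x.dec (x.sv x.bS j o))).ty (x.cl j o)) := by
  by_cases h1 : o < x.bl j
  · obtain ⟨a1, a2, a3, a4⟩ := x.A.cm1 j hj.le o h1
    rw [cl, if_pos h1, x.lb_low (by omega), x.l0_bl h1]
    refine ⟨⟨a1, ?_⟩, a3, fun h => ?_⟩
    · have nl : ¬ x.Lst (x.A.cm j o) := fun ⟨_, _, q⟩ => x.A.cj3 _ _ _ _ _ q
      simp only [lay, Sum.elim_inl, if_neg nl]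
      rw [x.us_std _ a1 nl, a2]
      exact a4
    · show _ ≤ x.A.ty _
      rw [a2]
      exact (x.S.cv1 j o h1 h).trans (x.I.rd1 _ (x.S.avM _ _))
  obtain ⟨q, rfl⟩ : ∃ q, o = x.bl j + q := ⟨o - x.bl j, by omega⟩
  have hc : x.S.bs j + (x.bl j + q) < x.k →
      x.a (x.S.bs j + (x.bl j + q)) ≤ x.I.rd (x.S.mx j) := fun h => by
    rw [← add_assoc] at h ⊢
    exact (x.S.cv2 j q (by unfold Cx.sl at ho; omega) h).trans (x.I.rd1 _ (x.mx_le j))
  by_cases h2 : x.bl j + q < x.bl j + 2 * x.p.M0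
  · obtain ⟨a1, a2, a3, a4⟩ := x.A.cj1 j hj (q / 2) (by omega) (q % 2) (by omega)
    rw [cl, if_neg h1, if_pos h2, x.lb_low (by omega), x.l0_st (by omega) h2,
      Nat.add_sub_cancel_left]
    refine ⟨⟨a1, ?_⟩, a3.trans ?_, fun h => ?_⟩
    · have o1 : (fun _ => 1 : V (Fin x.p.t)) ≠ 0 := fun k => one_ne_zero (congrFun k ⟨0, x.ok.t0⟩)
      by_cases k : x.bl j + q + 1 < x.bl j + 2 * x.p.M0
      · have nl : ¬ x.Lst (x.A.cj j (q / 2) (q % 2)) := fun ⟨_, _, z⟩ => by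
          have := x.A.cj2 _ _ _ _ _ _ z
          omega
        simp only [lay, Sum.elim_inl, if_neg nl, if_pos k]
        rw [x.us_std _ a1 nl, a2, a4, add_zero]
        refine ⟨rfl, fun h => ?_, fun h => ⟨?_, x.zs_mem hj h⟩⟩
        · rwa [uo_mk, Cx.ud, if_pos h]
        · rw [uo_mk, Cx.ud, if_neg (by omega)]
      · have nl : x.Lst (x.A.cj j (q / 2) (q % 2)) := ⟨j, hj, by congr 1 <;> omega⟩
        simp only [lay, Sum.elim_inl, if_pos nl, if_neg k]
        rw [us, if_pos ((x.jz_iff a1).2 nl), a2, a4]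
        refine ⟨rfl, fun h => ?_, fun h => ⟨?_, ?_⟩⟩
        · rw [uo_mk, Cx.ud, if_pos h, vv]
          exact o1.symm
        · rw [uo_mk, Cx.ud, if_neg (by omega), zero_add]
        · have := x.I.dzx _ _ (x.zs_mem hj h) _ (x.zt_mem hj h)
          rw [add_zero, add_zero] at this
          rwa [zz_mk, Cx.zm, add_assoc, vv, add_zero]
    · refine (ZMod.natCast_eq_natCast_iff' _ _ _).2 ?_
      unfold Cx.bl
      omega
    · show _ ≤ x.A.ty _
      rw [a2]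
      exact hc h
  have hl := x.lg_of (not_lt.1 h2) ho
  obtain ⟨m1, m2⟩ := x.S.lgM j hl
  have hs := x.sl_lg hl
  obtain ⟨g, o, o2, rfl⟩ : ∃ g o, o < 2 ∧ q = 2 * (x.p.M0 + g) + o :=
    ⟨q / 2 - x.p.M0, q % 2, by omega, by omega⟩
  have hg : g < x.p.Mg := by omega
  have zm := x.zt_mem hj (m1 ▸ not_lt.1 x.top)
  rw [m1] at zm hc
  rw [x.sv_gd hj (not_lt.1 h2) ho, x.hdec, cl, if_neg h1, if_neg h2, lb,
    x.l0_gd (not_lt.1 h2) ho, Nat.add_sub_cancel_left,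
    show (2 * (x.p.M0 + g) + o) / 2 - x.p.M0 = g by omega,
    show (2 * (x.p.M0 + g) + o) % 2 = o by omega,
    show x.gi j (x.bl j + (2 * (x.p.M0 + g) + o)) = g + o by unfold gi; omega]
  refine ⟨⟨⟨hg, o2⟩, ?_⟩, ?_, hc⟩
  · show x.I.Site (x.I.rd x.p.Am) (x.gz _ _) (x.us _ (x.gz _ _) ((1 + o : ℕ) : ZMod 2))
      ((_ : ZMod 2) • zz ((x.gd _).rho (g + o))) _
    rcases z2 (x.xi j * (x.gd (x.cg j)).fl (g + o)) with r | r
    · have : x.xi j • (x.gd (x.cg j)).rho (g + o) = 0 := by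
        rcases mul_eq_zero.1 r with r | r
        · rw [r, zero_smul]
        · rw [(x.gd _).f0 _ (by omega) r, smul_zero]
      rw [this, r, add_zero, zero_smul, gz, if_pos rfl, x.us_bz _ hg]
      exact ⟨rfl, fun h => absurd h x.top, fun _ => ⟨rfl, zm⟩⟩
    · have k : ∀ a b : ZMod 2, a * b = 1 → a = 1 ∧ b = 1 := by decide
      obtain ⟨r1, r2⟩ := k _ _ r
      rw [r, r1, one_smul, one_smul, gz, if_neg one_ne_zero, x.us_az _ hg o2]
      refine ⟨((x.gd _).fa g o r2).symm, fun h => absurd h x.top, fun _ => ⟨zero_add _, ?_⟩⟩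
      rw [zz_add, zz_mk, add_assoc, vv]
      exact zm
  · refine (ZMod.natCast_eq_natCast_iff' _ _ _).2 ?_
    unfold Cx.bl
    show (1 + o) % 2 = _
    omega

theorem iv_eq (pm D r j : ℕ) {o o' : ℕ} (h : x.bl j + 2 * pm < o ↔ x.bl j + 2 * pm < o') :
    x.iv pm D r j o = x.iv pm D r j o' := by
  rw [Cx.iv, Cx.iv, if_congr h rfl rfl]

theorem triv_eq (j : ℕ) {o o' : ℕ} (h : ∀ i < 2, x.bl j + 2 * (2 * x.p.hh + i) < o ↔
    x.bl j + 2 * (2 * x.p.hh + i) < o') : x.sv x.bS j o = x.sv x.bS j o' ∧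
    x.v1 x.b1 j o = x.v1 x.b1 j o' :=
  ⟨funext fun c => congrArg (x.bS c) (x.iv_eq _ _ _ _ (h 0 (by omega))),
    funext fun c => congrArg (x.b1 c.1 c.2) (x.iv_eq _ _ _ _ (h 1 (by omega)))⟩

theorem rv_inj {j o j' o' : ℕ} (h : x.rv j o = x.rv j' o') : x.rk j o = x.rk j' o' ∧
    x.sv x.bS j o = x.sv x.bS j' o' ∧ x.gv x.bG j o = x.gv x.bG j' o' ∧
    x.v1 x.b1 j o = x.v1 x.b1 j' o' :=
  ⟨funext fun c => congrFun h (Sum.inl c), funext fun c => congrFun h (Sum.inr (Sum.inl c)),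
    funext fun c => congrFun h (x.gl c),
    funext fun c => congrFun h (Sum.inr (Sum.inr (Sum.inr c)))⟩

theorem cell_eq {j j' u : ℕ} (h0 : x.key (j, u) = x.key (j', u))
    (h1 : x.sv x.bS j (x.so j u) = x.sv x.bS j' (x.so j' u))
    (h2 : x.gv x.bG j (x.so j u) = x.gv x.bG j' (x.so j' u))
    (h3 : x.v1 x.b1 j (x.so j u) = x.v1 x.b1 j' (x.so j' u)) :
    x.cell x.bS x.bG x.b1 (j, u) = x.cell x.bS x.bG x.b1 (j', u) := by
  simp only [Cx.cell, h0, h1, h2, h3]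

theorem Fg_add (j o q : ℕ) : x.Fg j (o + q) = x.Fg j o + ∑ r ∈ range q, x.dm j (o + r) := by
  rw [Cx.Fg, Cx.Fg, sum_range_add, add_assoc]

theorem lo_eq {j o j' o' : ℕ} (h : x.rk j o = x.rk j' o') (h1 : x.bl j + 2 * x.p.hh ≤ o + 1)
    (h2 : x.bl j' + 2 * x.p.hh ≤ o' + 1) : x.lo (j + 1) = x.lo (j' + 1) := by
  funext c
  have := congrFun h (Sum.inl c)
  have hc := c.2
  simp only [rk, Sum.elim_inl] at this
  rwa [if_pos (by omega), if_pos (by omega)] at this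

theorem hi_eq {j o j' o' : ℕ} (h : x.rk j o = x.rk j' o') (h1 : o ≤ x.bl j + 2 * x.p.hh)
    (h2 : o' ≤ x.bl j' + 2 * x.p.hh) : x.hi j = x.hi j' := by
  funext c
  have := congrFun h (Sum.inr c)
  simp only [rk, Sum.elim_inr] at this
  rwa [if_neg (by omega), if_neg (by omega)] at this

theorem inj_bl {j j' o : ℕ} (hj : j < x.J) (hj' : j' < x.J) (ho : o < x.bl j) (ho' : o < x.bl j')
    (ht : x.A.tk j = x.A.tk j') (h : x.rv j o = x.rv j' o) : j = j' := by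
  by_contra hne
  obtain ⟨r0, r1, r2, r3⟩ := x.rv_inj h
  obtain ⟨a1, a3⟩ := x.triv_eq j (o := o) (o' := 0) fun i _ => by omega
  obtain ⟨b1, b3⟩ := x.triv_eq j' (o := o) (o' := 0) fun i _ => by omega
  have ks : 0 < x.p.ks := by
    unfold Pm.ks
    omega
  have hg : ∀ i, o < x.bl i → x.gv x.bG i o = x.gv x.bG i 0 + ∑ r ∈ range o, x.dm i r :=
    fun i hi => funext fun c => by
      have := x.Fg_add i 0 o
      simp only [zero_add] at this
      rw [Pi.add_apply, Cx.gv, Cx.gv, this, Pi.add_apply, add_right_comm,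
        x.iv_eq _ _ _ i (o := o) (o' := 0) (by omega)]
  have hs : ∑ r ∈ range o, x.dm j r = ∑ r ∈ range o, x.dm j' r := sum_congr rfl fun r hr => by
    have := mem_range.1 hr
    rw [Cx.dm, Cx.dm, if_neg fun q => by have := q.1; omega, if_neg fun q => by have := q.1; omega,
      x.l0_bl (by omega), x.l0_bl (by omega), x.l0_bl (by omega), x.l0_bl (by omega),
      x.A.tk1 j hj.le j' hj'.le ht, x.A.tk1 j hj.le j' hj'.le ht]
  rw [hg j ho, hg j' ho', hs] at r2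
  refine (x.rnk j j' 0 (x.mem_X.2 ⟨hj, ks, Or.inl (Nat.zero_le _)⟩)
    (x.mem_X.2 ⟨hj', ks, Or.inl (Nat.zero_le _)⟩) (x.cell_eq (by simp [Cx.key, ht])
      (a1.symm.trans (r1.trans b1)) (add_right_cancel r2) (a3.symm.trans (r3.trans b3))) hne).1 rfl ⟨?_, x.hi_eq r0 (by omega) (by omega)⟩
  funext c
  have := congrFun r0 (Sum.inl c)
  simp only [rk, Sum.elim_inl] at this
  rwa [if_neg (by omega), if_neg (by omega)] at this

theorem inj_st {j j' q : ℕ} (hj : j < x.J) (hj' : j' < x.J) (hq : q < 2 * x.p.M0)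
    (hc : x.A.cj j (q / 2) (q % 2) = x.A.cj j' (q / 2) (q % 2))
    (hl : x.l0 j (x.bl j + q) = x.l0 j' (x.bl j' + q))
    (h : x.rv j (x.bl j + q) = x.rv j' (x.bl j' + q)) : j = j' := by
  by_contra hne
  obtain ⟨r0, r1, r2, r3⟩ := x.rv_inj h
  have so : ∀ i, x.so i (q + 1) = x.bl i + q := fun i => by
    rw [Cx.so, if_neg (by omega), if_pos (by omega), Nat.add_sub_cancel]
  have ks : q + 1 < x.p.ks := by
    unfold Pm.ks
    omega
  have hz := congrArg zz hl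
  obtain ⟨-, k1, k2⟩ := x.rnk j j' (q + 1) (x.mem_X.2 ⟨hj, ks, Or.inl hq⟩)
    (x.mem_X.2 ⟨hj', ks, Or.inl hq⟩) (x.cell_eq (by
      simp only [Cx.key, Nat.add_sub_cancel, hc, Nat.succ_ne_zero, if_false]
      congr 5
      by_cases k : q + 1 < 2 * x.p.M0
      · rw [x.zz_l0_lo (by omega) (by omega), x.zz_l0_lo (by omega) (by omega)] at hz
        rw [if_pos k, if_pos k, hz]
      · rw [x.l0_st (by omega) (by omega), x.l0_st (by omega) (by omega), zz_mk, zz_mk,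
          if_neg (by omega), if_neg (by omega)] at hz
        rw [if_neg k, if_neg k, hz])
      (by rw [so, so, r1]) (by rw [so, so, r2]) (by rw [so, so, r3])) hne
  by_cases k : (q + 1) / 2 ≤ x.p.hh
  · exact k1 (by omega) k (x.hi_eq r0 (by omega) (by omega))
  · exact k2 (by omega) (x.lo_eq r0 (by omega) (by omega))

theorem gv_gd {j : ℕ} (hl : x.lg j) (q : ℕ) (d : Fin x.p.G) :
    x.gv x.bG j (x.bl j + 2 * x.p.M0 + q) d = x.gv x.bG j (x.bl j + 2 * x.p.M0) d +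
      (∑ r ∈ range q, x.dm j (x.bl j + 2 * x.p.M0 + r)) d +
      if 2 < q ∧ x.cg j = d then x.xi j else 0 := by
  rw [Cx.gv, Cx.gv, x.Fg_add, Pi.add_apply, add_right_comm _ (x.bG d _), add_assoc _ (x.bG d _)]
  congr 1
  by_cases h : 2 < q
  · rw [Cx.iv, Cx.iv, if_pos (by omega), if_neg (by omega), add_zero, div_step _ _ _ (x.res_lt d)]
    by_cases k : x.cg j = d
    · rw [if_pos (x.sw_gl.2 ⟨hl, k⟩), if_pos ⟨h, k⟩, xi, k, ← add_assoc,
        CharTwo.add_self_eq_zero, zero_add]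
    · rw [if_neg fun z => k (x.sw_gl.1 z).2, if_neg fun z => k z.2, add_zero, add_zero]
  · rw [if_neg fun z => h z.1, add_zero]
    exact congrArg _ (x.iv_eq _ _ _ j (by omega))

theorem inj_gd {j j' q : ℕ} (hj : j < x.J) (hj' : j' < x.J) (hl : x.lg j) (hl' : x.lg j')
    (hq : q < 2 * x.p.Mg)
    (hc : x.xi j * (x.gd (x.cg j)).fl ((q + 1) / 2) = x.xi j' * (x.gd (x.cg j')).fl ((q + 1) / 2))
    (h : x.rv j (x.bl j + 2 * x.p.M0 + q) = x.rv j' (x.bl j' + 2 * x.p.M0 + q)) : j = j' := by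
  by_contra hne
  obtain ⟨r0, r1, r2, r3⟩ := x.rv_inj h
  have s1 := x.sl_lg hl
  have s2 := x.sl_lg hl'
  have hM := x.M0e
  have H : ∀ u, 2 * x.p.M0 < u → u < x.p.ks →
      x.cell x.bS x.bG x.b1 (j, u) ≠ x.cell x.bS x.bG x.b1 (j', u) := fun u u1 u2 k =>
    (x.rnk j j' u (x.mem_X.2 ⟨hj, u2, Or.inr hl⟩) (x.mem_X.2 ⟨hj', u2, Or.inr hl'⟩) k hne).2.2
      (by omega) (x.lo_eq r0 (by omega) (by omega))
  have K : ∀ u, 2 * x.p.M0 < u → x.key (j, u) = x.key (j', u) := fun u u1 => by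
    simp only [Cx.key]
    rw [if_neg (by omega), if_neg (by omega), if_neg (by omega), if_neg (by omega)]
  by_cases h1 : q + 1 = 2 * x.p.Mg
  · have so : ∀ i, x.lg i → x.so i (2 * x.p.M0 + 2) = x.bl i + 2 * x.p.M0 + q := fun i hi => by
      rw [Cx.so, if_neg (by omega), if_neg (by omega), x.sl_lg hi]
      omega
    exact H (2 * x.p.M0 + 2) (by omega) (by unfold Pm.ks; omega) (x.cell_eq (K _ (by omega))
      (by rw [so j hl, so j' hl', r1]) (by rw [so j hl, so j' hl', r2])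
      (by rw [so j hl, so j' hl', r3]))
  have so : ∀ i, x.so i (2 * x.p.M0 + 1) = x.bl i + 2 * x.p.M0 := fun i => by
    rw [Cx.so, if_neg (by omega), if_pos (by omega), Nat.add_sub_cancel]
  obtain ⟨a1, a3⟩ := x.triv_eq j (o := x.bl j + 2 * x.p.M0 + q) (o' := x.bl j + 2 * x.p.M0)
    fun i _ => by omega
  obtain ⟨b1, b3⟩ := x.triv_eq j' (o := x.bl j' + 2 * x.p.M0 + q)
    (o' := x.bl j' + 2 * x.p.M0) fun i _ => by omega
  have hcg : x.cg j = x.cg j' := by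
    rw [x.sv_gd hj (by omega) (by omega), x.sv_gd hj' (by omega) (by omega)] at r1
    rw [← x.hdec (x.cg j), r1, x.hdec]
  refine H (2 * x.p.M0 + 1) (by omega) (by unfold Pm.ks; omega) (x.cell_eq (K _ (by omega))
    (by rw [so, so, ← a1, r1, b1]) ?_ (by rw [so, so, ← a3, r3, b3]))
  rw [so, so]
  funext d
  have k := congrFun r2 d
  have hs : ∑ r ∈ range q, x.dm j (x.bl j + 2 * x.p.M0 + r) =
      ∑ r ∈ range q, x.dm j' (x.bl j' + 2 * x.p.M0 + r) := sum_congr rfl fun r hr => by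
    have := mem_range.1 hr
    rw [Cx.dm, Cx.dm]
    refine if_congr (by unfold Cx.sp; omega) rfl ?_
    rw [x.l0_gd (by omega) (by omega), x.l0_gd (by omega) (by omega),
      x.l0_gd (by omega) (by omega), x.l0_gd (by omega) (by omega), hcg]
    congr 2
    refine lab_ext ?_ rfl (by simp only [zz_add, zz_mk, vv])
    simp only [zo_add, zo_mk]
    congr 2 <;> omega
  rw [x.gv_gd hl, x.gv_gd hl', hs, ← hcg] at k
  have hx : (if 2 < q ∧ x.cg j = d then x.xi j else 0) =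
      if 2 < q ∧ x.cg j = d then x.xi j' else 0 := by
    split_ifs with z
    · rwa [(x.gd _).f1 _ (by omega) (by omega), (x.gd _).f1 _ (by omega) (by omega), mul_one,
        mul_one] at hc
    · rfl
  rw [hx] at k
  exact add_right_cancel (add_right_cancel k)

theorem inj {j j' o o' : ℕ} (hj : j < x.J) (hj' : j' < x.J) (ho : o < x.sl j) (ho' : o' < x.sl j')
    (hc : x.cl j o = x.cl j' o') (hl : x.lb j o = x.lb j' o') (h : x.rv j o = x.rv j' o') :
    j = j' ∧ o = o' := by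
  unfold cl at hc
  split_ifs at hc with a1 a2 a3 a4 a5 a6 a7 a8 
  · rw [x.lb_low (by omega), x.lb_low (by omega), x.l0_bl a1, x.l0_bl a2] at hl
    obtain ⟨rfl, k⟩ := x.A.cm2 j hj.le j' hj'.le o a1 o' a2 (Sum.inl.inj hc) hl
    exact ⟨x.inj_bl hj hj' a1 a2 k h, rfl⟩
  · exact absurd (Sum.inl.inj hc) (x.A.cj3 _ _ _ _ _)
  · exact absurd (Sum.inl.inj hc).symm (x.A.cj3 _ _ _ _ _)
  · obtain ⟨k1, k2⟩ := x.A.cj2 _ _ _ _ _ _ (Sum.inl.inj hc)
    obtain ⟨q, rfl⟩ : ∃ q, o = x.bl j + q := ⟨o - x.bl j, by omega⟩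
    obtain rfl : o' = x.bl j' + q := by omega
    rw [x.lb_low (by omega), x.lb_low (by omega)] at hl
    simp only [Nat.add_sub_cancel_left] at hc
    obtain rfl := x.inj_st hj hj' (by omega) (Sum.inl.inj hc) hl h
    exact ⟨rfl, rfl⟩
  · simp only [Sum.inr.injEq, Prod.mk.injEq] at hc
    obtain ⟨k1, k2, k3⟩ := hc
    have l1 := x.lg_of (not_lt.1 a4) ho
    have l2 := x.lg_of (not_lt.1 a8) ho'
    obtain ⟨q, rfl⟩ : ∃ q, o = x.bl j + 2 * x.p.M0 + q := ⟨o - (x.bl j + 2 * x.p.M0), by omega⟩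
    obtain rfl : o' = x.bl j' + 2 * x.p.M0 + q := by omega
    rw [show x.gi j (x.bl j + 2 * x.p.M0 + q) = (q + 1) / 2 by unfold gi; omega,
      show x.gi j' (x.bl j' + 2 * x.p.M0 + q) = (q + 1) / 2 by unfold gi; omega] at k3
    obtain rfl := x.inj_gd hj hj' l1 l2 (by rw [x.sl_lg l1] at ho; omega) k3 h
    exact ⟨rfl, rfl⟩

end Cy

end Pool.Agent.Work.MP_ede3c6_co.X
end

-- merged part: Pool.Agent.Work.MP_ede3c6_co.X.AlcExB
section
/-! Allocation of zones: the requests fit into the standard zones. -/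

set_option autoImplicit false

namespace Pool.Agent.Work.MP_ede3c6_co.X.AlcExA

open Finset Vol Classical

variable {p : Pm} {η : ℝ} {I : Inn p.t p.mu p.kk p.nJ η} {k : ℕ} {a : ℕ → ℕ} {C : ℕ} {S : Seg p k a C}
  {n : ℕ}

theorem c_pos (h : p.Ok n) : 0 < p.L0 * p.Q := Nat.mul_pos h.L00 (Nat.two_pow_pos _)

theorem c_pos' (h : p.Ok n) : (0 : ℝ) < p.L0 * p.Q := by exact_mod_cast c_pos h

theorem bin_pos (h : p.Ok n) : (0 : ℝ) < bin p.t p.mu p.kk := by
  have : 1 < 2 ^ p.t := Nat.one_lt_two_pow (Nat.one_le_iff_ne_zero.1 h.t0)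
  exact_mod_cast Nat.mul_pos (Nat.sub_pos_of_lt this) (Nat.two_pow_pos _)

theorem mw_pos {B : BT p} (hB : B ∈ BB I S) {o : ℕ} (ho : o < B.1) :
    (0 : ℝ) < m I B o * w I B := by exact_mod_cast Nat.mul_pos (m_pos hB ho) (w_pos B)

theorem nb_le {B : BT p} (hB : B ∈ BB I S) {o : ℕ} (ho : o < B.1) (x : ℕ) :
    (nb I S B o : ℝ) * x ≤ NB I S B * (x / (p.L0 * p.Q * (m I B o * w I B))) + 2 * x := by
  have hm : (1 : ℝ) ≤ m I B o := by exact_mod_cast m_pos hB ho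
  have h1 : (FB I S B : ℝ) ≤ NB I S B / (p.L0 * p.Q * w I B) + 1 := by
    have := Nat.cast_div_le (α := ℝ) (m := NB I S B) (n := p.L0 * p.Q * w I B)
    rw [FB]
    push_cast at this ⊢
    linarith
  have h2 : (nb I S B o : ℝ) ≤ FB I S B / m I B o + 1 := by
    have := Nat.cast_div_le (α := ℝ) (m := FB I S B) (n := m I B o)
    rw [nb]
    push_cast
    linarith
  have h3 : (FB I S B : ℝ) / m I B o ≤ NB I S B / (p.L0 * p.Q * (m I B o * w I B)) + 1 := by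
    refine (div_le_div_of_nonneg_right h1 (by linarith)).trans ?_
    rw [add_div, div_div, mul_assoc _ (w I B : ℝ), mul_comm (w I B : ℝ)]
    have : 1 / (m I B o : ℝ) ≤ 1 := (div_le_one (by linarith)).2 hm
    linarith
  have h4 : (nb I S B o : ℝ) ≤ NB I S B / (p.L0 * p.Q * (m I B o * w I B)) + 2 := by linarith
  refine (mul_le_mul_of_nonneg_right h4 (Nat.cast_nonneg x)).trans (le_of_eq ?_)
  ring

theorem eff1 (hη : 0 < η) (h : p.Ok n) {B : BT p} (hB : B ∈ BB I S) {o : ℕ} (ho : o < B.1) :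
    (sm p.t p.mu (ta B o) : ℝ) / (p.L0 * p.Q * (m I B o * w I B)) ≤
      (1 + η) / (p.L0 * p.Q * bin p.t p.mu p.kk) := by
  have h1 := c_pos' h
  have h2 := bin_pos h
  rw [sm]
  split_ifs with c
  · have e : (bin p.t p.mu p.kk : ℝ) ≤ m I B o * w I B := by
      exact_mod_cast I.ef1 _ (ta_mem hB ho) c _ (lev_le ho) (kB_le hB)
    rw [Nat.cast_one]
    exact div_le_div₀ (by linarith) (by linarith) (mul_pos h1 h2)
      (mul_le_mul_of_nonneg_left e h1.le)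
  · rw [Nat.cast_zero, zero_div]
    positivity

theorem eff2 (h : p.Ok n) {j : ℕ} (hj : j ≤ p.J k) {o : ℕ} (ho : o < S.bl j) :
    (oth p.t p.mu (ta (Bt I S j) o) : ℝ) / (p.L0 * p.Q * (m I (Bt I S j) o * w I (Bt I S j))) ≤
      (1 + η) * S.av j o / (p.L0 * p.Q * bin p.t p.mu p.kk) := by
  have h1 := c_pos' h
  have h2 := bin_pos h
  have h3 := mw_pos (mem_BB (I := I) hj) ho
  have l1 := lev_le (I := I) (B := Bt I S j) ho
  rw [ta_Bt ho] at l1
  have e := I.ef2 _ (S.avM j o) _ l1 (kB_le (mem_BB hj))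
  have e' : (oth p.t p.mu (ta (Bt I S j) o) : ℝ) * bin p.t p.mu p.kk ≤
      (1 + η) * S.av j o * (m I (Bt I S j) o * w I (Bt I S j)) := by
    rw [m, w, ta_Bt ho]
    push_cast
    exact e
  rw [div_le_div_iff₀ (mul_pos h1 h3) (mul_pos h1 h2)]
  have := mul_le_mul_of_nonneg_left e' h1.le
  linarith

theorem sumB (G : BT p → ℝ) :
    ∑ B ∈ BB I S, (NB I S B : ℝ) * G B = ∑ j ∈ range (p.J k + 1), G (Bt I S j) := by
  rw [sum_comp G (Bt I S)]
  exact sum_congr rfl fun B _ => (nsmul_eq_mul _ _).symm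

theorem par_iff (x o : ℕ) (π : ZMod 2) :
    ((x % 2 + o : ℕ) : ZMod 2) = π ↔ (x + o) % 2 = π.val := by
  rw [← Nat.mod_add_mod, ← ZMod.val_natCast]
  exact (ZMod.val_injective 2).eq_iff.symm

theorem card_RM (hη : 0 < η) (h : p.Ok n) (π : ZMod 2) :
    (#(RM I S π) : ℝ) ≤ (1 + η) * p.Vb C k / (p.L0 * p.Q * bin p.t p.mu p.kk) +
      2 * p.nB * (2 * p.K) * (aS p.t p.mu + 1) := by
  have h1 := c_pos' h
  have h2 := bin_pos h
  let x : BT p → ℕ → ℕ := fun B o => #(RR p.t p.mu (ta B o) ((B.2.1 + o : ℕ) : ZMod 2) π)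
  have e0 : (#(RM I S π) : ℝ) = ∑ B ∈ BB I S, ∑ o ∈ range B.1, (nb I S B o : ℝ) * x B o := by
    simp only [RM, card_sigma, card_product, card_range, Nat.cast_sum, Nat.cast_mul, x]
  have e1 : ∀ B ∈ BB I S, ∑ o ∈ range B.1, (nb I S B o : ℝ) * x B o ≤
      NB I S B * (∑ o ∈ range B.1, x B o / (p.L0 * p.Q * (m I B o * w I B) : ℝ)) +
        2 * (2 * p.K) * (aS p.t p.mu + 1) := fun B hB => by
    refine (sum_le_sum fun o ho => nb_le hB (mem_range.1 ho) _).trans ?_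
    rw [sum_add_distrib, ← mul_sum]
    refine add_le_add le_rfl ((sum_le_card_nsmul _ _ (2 * (aS p.t p.mu + 1 : ℝ))
      fun o _ => ?_).trans ?_)
    · have : (x B o : ℝ) ≤ aS p.t p.mu + 1 := by exact_mod_cast RR_le _ _ _
      linarith
    · have : (B.1 : ℝ) ≤ 2 * p.K := by exact_mod_cast len_le hB
      rw [card_range, nsmul_eq_mul]
      have : (0 : ℝ) ≤ aS p.t p.mu + 1 := by positivity
      nlinarith
  have e2 : ∀ j ∈ range (p.J k + 1), ∑ o ∈ range (Bt I S j).1, x (Bt I S j) o /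
      (p.L0 * p.Q * (m I (Bt I S j) o * w I (Bt I S j)) : ℝ) ≤ ∑ o ∈ range (S.bl j),
        (1 + η) * wt π.val (S.bs j + o) (S.av j o) / (p.L0 * p.Q * bin p.t p.mu p.kk) :=
    fun j hj => sum_le_sum fun o ho => by
      have hj' := Nat.le_of_lt_succ (mem_range.1 hj)
      have ho' := mem_range.1 ho
      have h3 := mul_pos h1 (mw_pos (mem_BB (I := I) hj') ho')
      rw [wt]
      split_ifs with c
      · have q := (par_iff _ _ _).2 c
        have : (x (Bt I S j) o : ℝ) ≤ sm p.t p.mu (ta (Bt I S j) o) := by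
          have := RR_same (t := p.t) (mu := p.mu) (ta (Bt I S j) o) π
          rw [← q] at this
          simp only [x]
          rw [← q]
          exact_mod_cast this
        rw [Nat.cast_one, mul_one]
        exact (div_le_div_of_nonneg_right this h3.le).trans (eff1 hη h (mem_BB hj') ho')
      · have : (x (Bt I S j) o : ℝ) ≤ oth p.t p.mu (ta (Bt I S j) o) := by
          exact_mod_cast RR_oth _ (mt (par_iff _ _ _).1 c)
        exact (div_le_div_of_nonneg_right this h3.le).trans (eff2 h hj' ho')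
  have e3 : ((∑ j ∈ range (p.J k + 1), ∑ o ∈ range (S.bl j),
      wt π.val (S.bs j + o) (S.av j o) : ℕ) : ℝ) ≤ p.Vb C k := by
    exact_mod_cast S.vol _ (ZMod.val_lt π)
  have e4 : (#(BB I S) : ℝ) ≤ p.nB := by exact_mod_cast card_BB
  rw [e0]
  refine (sum_le_sum e1).trans ?_
  rw [sum_add_distrib, sumB, sum_const, nsmul_eq_mul]
  refine add_le_add ((sum_le_sum e2).trans ?_) ?_
  · simp only [← sum_div, ← mul_sum]
    push_cast at e3
    exact div_le_div_of_nonneg_right (mul_le_mul_of_nonneg_left e3 (by linarith))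
      (mul_pos h1 h2).le
  · have := mul_le_mul_of_nonneg_right e4
      (show (0 : ℝ) ≤ 2 * (2 * p.K) * (aS p.t p.mu + 1) by positivity)
    linarith

theorem edge (hη : 0 < η) (h : p.Ok n) (o : BT p → ℕ) (ho : ∀ B ∈ BB I S, o B < B.1)
    (hW : ∑ j ∈ range (p.J k + 1), (1 + S.av j (o (Bt I S j))) ≤ p.Wb C k) :
    ((∑ B ∈ BB I S, nb I S B (o B) * #(RV p.t p.mu (ta B (o B))) : ℕ) : ℝ) ≤
      (1 + η) * p.Wb C k / (p.L0 * p.Q * bin p.t p.mu p.kk) + 2 * p.nB * (aS p.t p.mu + 1) := by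
  have h1 := c_pos' h
  have h2 := bin_pos h
  have e3 : ((∑ j ∈ range (p.J k + 1), (1 + S.av j (o (Bt I S j))) : ℕ) : ℝ) ≤ p.Wb C k := by
    exact_mod_cast hW
  have e4 : (#(BB I S) : ℝ) ≤ p.nB := by exact_mod_cast card_BB
  have e2 : ∀ j ∈ range (p.J k + 1), (#(RV p.t p.mu (ta (Bt I S j) (o (Bt I S j)))) : ℝ) /
      (p.L0 * p.Q * (m I (Bt I S j) (o (Bt I S j)) * w I (Bt I S j))) ≤
      (1 + η) * (1 + S.av j (o (Bt I S j))) / (p.L0 * p.Q * bin p.t p.mu p.kk) := fun j hj => by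
    have hj' := Nat.le_of_lt_succ (mem_range.1 hj)
    have ho' := ho _ (mem_BB hj')
    have h3 := mul_pos h1 (mw_pos (mem_BB (I := I) hj') ho')
    have : (#(RV p.t p.mu (ta (Bt I S j) (o (Bt I S j)))) : ℝ) ≤
        sm p.t p.mu (ta (Bt I S j) (o (Bt I S j))) +
          oth p.t p.mu (ta (Bt I S j) (o (Bt I S j))) := by exact_mod_cast RV_le' _
    refine (div_le_div_of_nonneg_right this h3.le).trans ?_
    rw [add_div, mul_add (1 + η), add_div, mul_one]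
    exact add_le_add (eff1 hη h (mem_BB hj') ho') (eff2 h hj' ho')
  push_cast at e3 ⊢
  refine (sum_le_sum fun B hB => nb_le hB (ho B hB) _).trans ?_
  rw [sum_add_distrib, sumB fun B => (#(RV p.t p.mu (ta B (o B))) : ℝ) /
    (p.L0 * p.Q * (m I B (o B) * w I B))]
  refine add_le_add ((sum_le_sum e2).trans ?_) ((sum_le_card_nsmul _ _
    (2 * (aS p.t p.mu + 1 : ℝ)) fun B _ => ?_).trans ?_)
  · simp only [← sum_div, ← mul_sum]
    exact div_le_div_of_nonneg_right (mul_le_mul_of_nonneg_left e3 (by linarith))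
      (mul_pos h1 h2).le
  · have : (#(RV p.t p.mu (ta B (o B))) : ℝ) ≤ aS p.t p.mu + 1 := by exact_mod_cast RV_le _
    linarith
  · have := mul_le_mul_of_nonneg_right e4 (show (0 : ℝ) ≤ 2 * (aS p.t p.mu + 1) by positivity)
    rw [nsmul_eq_mul]
    linarith

theorem fib (o q : BT p → ℕ) (T : Finset (ℕ × ℕ)) :
    ∑ γ ∈ T, (∑ B ∈ {B ∈ BB I S | (ta B (o B), q B) = γ}, nb I S B (o B)) * #(RV p.t p.mu γ.1) ≤
      ∑ B ∈ BB I S, nb I S B (o B) * #(RV p.t p.mu (ta B (o B))) := by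
  refine le_trans (le_of_eq (sum_congr rfl fun γ _ => ?_))
    (sum_fiberwise_le_sum_of_sum_fiber_nonneg (t := T) (g := fun B => (ta B (o B), q B))
      fun _ _ => Nat.zero_le _)
  rw [sum_mul]
  exact sum_congr rfl fun B hB => by rw [← (mem_filter.1 hB).2]

theorem card_RJ : #(RJ I S) ≤ p.M0 * (p.L0 * 2 ^ p.t *
    (∑ B ∈ BB I S, nb I S B (B.1 - 1) * #(RV p.t p.mu (ta B (B.1 - 1))) +
      ∑ B ∈ BB I S, nb I S B 0 * #(RV p.t p.mu (ta B 0))) + 2 * p.nT * (aS p.t p.mu + 1)) := by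
  have e0 : #(RJ I S) = p.M0 * (p.L0 * 2 ^ p.t *
      (∑ γ ∈ I.TS ×ˢ range 2, (∑ B ∈ Wl I S γ, nb I S B (B.1 - 1)) * #(RV p.t p.mu γ.1) +
        ∑ γ ∈ I.TS ×ˢ range 2, (∑ B ∈ Wf I S γ, nb I S B 0) * #(RV p.t p.mu γ.1)) +
      ∑ γ ∈ I.TS ×ˢ range 2, #(RV p.t p.mu γ.1)) := by
    rw [← sum_add_distrib, mul_sum, ← sum_add_distrib, mul_sum, RJ, card_sigma]
    refine sum_congr rfl fun γ _ => ?_
    rw [card_product, card_product, card_range, card_range, nu]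
    ring
  rw [e0]
  refine Nat.mul_le_mul_left _ (add_le_add (Nat.mul_le_mul_left _ (add_le_add
    (fib (fun B => B.1 - 1) (fun B => (B.2.1 + B.1) % 2) _) (fib (fun _ => 0) (fun B => B.2.1) _)))
    ((sum_le_card_nsmul _ _ _ fun γ _ => RV_le γ.1).trans ?_))
  rw [card_product, card_range, smul_eq_mul, mul_comm _ 2]
  exact Nat.mul_le_mul_right _ (Nat.mul_le_mul_left _ I.cTS)

theorem last_lt {B : BT p} (h : B ∈ BB I S) : B.1 - 1 < B.1 :=
  Nat.sub_lt (len_pos h) one_pos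

theorem fits (hη : 0 < η) (h : p.Ok n) (hf : p.Fit η C k) (π : ZMod 2) :
    #(RJ I S) + #(RM I S π) ≤ p.nA := by
  have h1 := card_RM (I := I) (S := S) hη h π
  have h2 := edge (I := I) (S := S) hη h (fun B => B.1 - 1) (fun _ => last_lt)
    (le_trans (le_of_eq (sum_congr rfl fun j _ => congrArg (1 + ·) (S.avl j))) S.wl)
  have h3 := edge (I := I) (S := S) hη h (fun _ => 0) (fun _ => len_pos) S.wf
  have h4 := (Nat.cast_le (α := ℝ)).2 (card_RJ (I := I) (S := S))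
  have h5 := hf.hA
  rw [← Nat.cast_le (α := ℝ)]
  generalize ∑ B ∈ BB I S, nb I S B (B.1 - 1) * #(RV p.t p.mu (ta B (B.1 - 1))) = X at h2 h4
  generalize ∑ B ∈ BB I S, nb I S B 0 * #(RV p.t p.mu (ta B 0)) = Y at h3 h4
  push_cast at h4 ⊢
  have h6 := mul_le_mul_of_nonneg_left (add_le_add h2 h3)
    (show (0 : ℝ) ≤ p.M0 * (p.L0 * 2 ^ p.t) by positivity)
  linarith

end Pool.Agent.Work.MP_ede3c6_co.X.AlcExA
end

-- merged part: Pool.Agent.Work.MP_ede3c6_co.X.AlcEx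
section
/-! Existence of the allocation.

PLAN. `c = L0 Q`. Block type `Bt j = (bl j, bs j % 2, fun o : Fin (2 K) => rd (av j o))`, `BB` =
image of `Bt` on `range (J + 1)`, at most `nB` elements; `τ B o` the type at offset `o`,
`kB B` = sup of `lev (τ B o)` over `o < B.1`; `NB B` = number of `j ≤ J` with `Bt j = B`;
`FB B = NB B / (c 2 ^ (kk - kB B)) + 1`; `fill1` gives `tr j < FB 2 ^ (kk - kB)` with capacity `c`;
`tk j = (Bt j, tr j)`, `f j = tr j / 2 ^ (kk - kB)`, `β j = tr j % 2 ^ (kk - kB)`;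
`m B o = mb (τ B o) (kB B)`, `nb B o = FB B / m B o + 1`; class `cm j o = inl (Bt j, o, f j / m)`,
label `lm j o = mk zone (su τ kB (f j % m)) (sz τ kB (f j % m) + hv kB (β j))`.
Main requests of parity `π`: the `(B, o, bin, r)` with `B ∈ BB`, `o < B.1`, `bin < nb B o`,
`vr (τ B o) r`, `rp (τ B o) (B.2.1 + o) r = π`; their number is the sum of `nb B o` times
(`[small]` if the parity is `π`, else `oth`), at most
`(1 + η) Vb / (c bin) + 2 nB (2 K) (aS + 1)` by `nb ≤ NB / (c m 2 ^ (kk - kB)) + 2`, `ef1`, `ef2`,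
`vol`. Groups `γ j = (rd (mx j), (bs j + bl j) % 2)`; `nl γ` (`nf γ`) = sum of `nb B (B.1 - 1)`
(`nb B 0`) over the `B ∈ BB` whose last (first) type is `γ.1`; the number of `j < J` with given
`γ j` and given `zz (lm j (bl j - 1))` is at most `c 2 ^ t nl γ` (the track is determined by
`B`, the bin, `uo` of the label and `zz`, by `sti`), the same for `lm (j + 1) 0` and `nf`;
`nu γ = L0 2 ^ t (nl γ + nf γ) + 1`, `fill2` gives units `ν j < nu (γ j)` with capacity `Q`;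
`cj j m e = inr (γ j, ν j, m, e)`. Junction requests: the `(γ, ν, m, r)` with
`γ ∈ TS ×ˢ range 2`, `ν < nu γ`, `m < M0`, `vr γ.1 r`. Zones: enumerate the standard zones
(`nA` of them) by `zn`; junction request `x` gets `zn (idx x)`, main request `x` of parity `π`
gets `zn (nJ + idx π x)`; `Fit.hA` says that this fits. `Dl` = the differences of consecutive
labels, they depend only on `(B, f, o)`, and `FB B ≤ 2 ^ (t + mu) nA` (take `o` with
`lev (τ B o) = kB B`: `FB < m nb`, `m ≤ 2 ^ (t + mu)` by `mb1`, `nb ≤` number of main requests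
of one parity `≤ nA`). -/

set_option autoImplicit false

namespace Pool.Agent.Work.MP_ede3c6_co.X

open Finset Vol

namespace AlcExA
open Classical

variable {p : Pm} {η : ℝ} {I : Inn p.t p.mu p.kk p.nJ η} {k : ℕ} {a : ℕ → ℕ} {C : ℕ} {S : Seg p k a C}
  {n : ℕ}

/-- the group of junction `j` -/
def ga (I : Inn p.t p.mu p.kk p.nJ η) (S : Seg p k a C) (j : ℕ) : ℕ × ℕ :=
  (I.rd (S.mx j), (S.bs j + S.bl j) % 2)

theorem tr_ex (h : p.Ok n) : ∃ tr : ℕ → ℕ,
    (∀ j ≤ p.J k, tr j < FB I S (Bt I S j) * w I (Bt I S j)) ∧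
      ∀ B v, #{j ∈ range (p.J k + 1) | Bt I S j = B ∧ tr j = v} ≤ p.L0 * p.Q := by
  obtain ⟨f, f1, f2⟩ := fill1 (range (p.J k + 1)) (Bt I S)
    (fun j => FB I S (Bt I S j) * w I (Bt I S j)) (p.L0 * p.Q) fun i _ => by
      refine lt_of_le_of_lt (show _ ≤ NB I S (Bt I S i) from flt _ _ _ fun _ _ e => e) ?_
      refine (Nat.lt_mul_div_succ _ (Nat.mul_pos (c_pos h) (w_pos (I := I) (Bt I S i)))).trans_le
        (le_of_eq ?_)
      rw [FB]
      ring
  exact ⟨f, fun j hj => f1 j (mem_range.2 (Nat.lt_succ_of_le hj)), fun B v =>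
    (flt _ _ _ fun _ _ e => e).trans (f2 B v)⟩

theorem mem_Wl {j : ℕ} (hj : j ≤ p.J k) : Bt I S j ∈ Wl I S (ga I S j) := by
  refine mem_filter.2 ⟨mem_BB hj, Prod.ext ?_ (Nat.mod_add_mod _ _ _)⟩
  exact (ta_Bt (Nat.sub_lt (S.bl1 j) one_pos)).trans (congrArg I.rd (S.avl j))

theorem mem_Wf {j : ℕ} (hj : j < p.J k) : Bt I S (j + 1) ∈ Wf I S (ga I S j) := by
  refine mem_filter.2 ⟨mem_BB hj, Prod.ext ?_ ?_⟩
  · exact (ta_Bt (S.bl1 (j + 1))).trans (congrArg I.rd (S.avf j))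
  · change S.bs (j + 1) % 2 = (S.bs j + S.bl j) % 2
    rw [S.bss, Nat.add_mul_mod_self_left]

theorem nu_ex {tr : ℕ → ℕ} (t1 : ∀ j ≤ p.J k, tr j < FB I S (Bt I S j) * w I (Bt I S j))
    (t2 : ∀ B v, #{j ∈ range (p.J k + 1) | Bt I S j = B ∧ tr j = v} ≤ p.L0 * p.Q) :
    ∃ ν : ℕ → ℕ, (∀ j < p.J k, ν j < nu I S (ga I S j)) ∧
      (∀ γ z v, #{j ∈ range (p.J k) | (ga I S j = γ ∧
        zl I (Bt I S j) (tr j) (S.bl j - 1) = z) ∧ ν j = v} ≤ p.Q) ∧
      ∀ γ z v, #{j ∈ range (p.J k) | (ga I S j = γ ∧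
        zl I (Bt I S (j + 1)) (tr (j + 1)) 0 = z) ∧ ν j = v} ≤ p.Q := by
  obtain ⟨f, f1, f2, f3⟩ := fill2 (range (p.J k))
    (fun j => (ga I S j, zl I (Bt I S j) (tr j) (S.bl j - 1)))
    (fun j => (ga I S j, zl I (Bt I S (j + 1)) (tr (j + 1)) 0))
    (fun j => nu I S (ga I S j)) p.Q fun i _ => by
      have h1 := cnt t1 t2 (fun B => B.1 - 1) (fun _ => last_lt) (Wl I S (ga I S i))
        (zl I (Bt I S i) (tr i) (S.bl i - 1))
      have h2 := cnt t1 t2 (fun _ => 0) (fun _ => len_pos) (Wf I S (ga I S i))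
        (zl I (Bt I S (i + 1)) (tr (i + 1)) 0)
      refine lt_of_le_of_lt (add_le_add (le_trans (card_le_card fun j hj => ?_) h1)
        (le_trans (card_le_card_of_injOn (· + 1) (fun j hj => ?_)
          fun _ _ _ _ e => Nat.succ_injective e) h2)) ?_
      · obtain ⟨a1, a2⟩ := mf hj
        have a3 := mem_range.1 a1
        refine mem_filter.2 ⟨mem_range.2 (Nat.lt_succ_of_lt a3), ?_, congrArg Prod.snd a2⟩
        rw [← show ga I S j = ga I S i from congrArg Prod.fst a2]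
        exact mem_Wl a3.le
      · obtain ⟨a1, a2⟩ := mf (mem_coe.1 hj)
        have a3 := mem_range.1 a1
        refine mem_coe.2 (mem_filter.2 ⟨mem_range.2 (Nat.succ_lt_succ a3), ?_,
          congrArg Prod.snd a2⟩)
        rw [← show ga I S j = ga I S i from congrArg Prod.fst a2]
        exact mem_Wf a3
      · have : 0 < p.Q := Nat.two_pow_pos _
        rw [nu, add_mul, one_mul, mul_add, add_mul]
        exact Nat.lt_add_of_pos_right this
  exact ⟨f, fun j hj => f1 j (mem_range.2 hj),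
    fun γ z v => (flt _ _ _ fun _ _ e => ⟨Prod.ext e.1.1 e.1.2, e.2⟩).trans (f2 (γ, z) v),
    fun γ z v => (flt _ _ _ fun _ _ e => ⟨Prod.ext e.1.1 e.1.2, e.2⟩).trans (f3 (γ, z) v)⟩

/-- classes -/
abbrev Cl (p : Pm) : Type := (BT p × ℕ × ℕ) ⊕ ((ℕ × ℕ) × ℕ × ℕ × ℕ)

/-- classes in use -/
def ok (I : Inn p.t p.mu p.kk p.nJ η) (S : Seg p k a C) : Cl p → Prop
  | .inl x => x.1 ∈ BB I S ∧ x.2.1 < x.1.1 ∧ x.2.2 < nb I S x.1 x.2.1
  | .inr x => x.1 ∈ I.TS ×ˢ range 2 ∧ x.2.1 < nu I S x.1 ∧ x.2.2.1 < p.M0 ∧ x.2.2.2 < 2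

/-- the type of a class -/
def ty : Cl p → ℕ
  | .inl x => ta x.1 x.2.1
  | .inr x => x.1.1

/-- the parity of a class -/
def pr : Cl p → ZMod 2
  | .inl x => ((x.1.2.1 + x.2.1 : ℕ) : ZMod 2)
  | .inr x => ((x.1.2 + x.2.2.2 : ℕ) : ZMod 2)

/-- the zones of a class -/
def rz (gJ : (Σ _ : ℕ × ℕ, ℕ × ℕ × ℕ) → V p.Zn)
    (gM : ZMod 2 → (Σ _ : BT p, Σ _ : ℕ, ℕ × ℕ) → V p.Zn) : Cl p → ℕ → V p.Zn
  | .inl x, r => gM (rp p.t p.mu (ta x.1 x.2.1) ((x.1.2.1 + x.2.1 : ℕ) : ZMod 2) r)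
      ⟨x.1, x.2.1, x.2.2, r⟩
  | .inr x, r => gJ ⟨x.1, x.2.1, x.2.2.1, r⟩

theorem rp_inj {t mu τ r : ℕ} {q q' : ZMod 2} (h : rp t mu τ q r = rp t mu τ q' r) : q = q' := by
  unfold rp at h
  split_ifs at h
  exacts [h, add_right_cancel h]

theorem par_eq (x o : ℕ) : ((x % 2 + o : ℕ) : ZMod 2) = ((x + o : ℕ) : ZMod 2) :=
  (ZMod.natCast_eq_natCast_iff' _ _ 2).2 (Nat.mod_add_mod _ _ _)

theorem lab_add {Zn : Type} {t mu kk : ℕ} (Z Z' : V Zn) (u u' : V (Fin t))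
    (z z' y : V (Zt mu kk)) : mk Z u (z + y) + mk Z' u' (z' + y) = mk Z u z + mk Z' u' z' := by
  refine lab_ext rfl rfl ?_
  change z + y + (z' + y) = z + z'
  rw [add_add_add_comm, vv, add_zero]

end AlcExA

open AlcExA Classical in
theorem alc_ex (p : Pm) {η : ℝ} (hη : 0 < η) (I : Inn p.t p.mu p.kk p.nJ η) {k : ℕ} {a : ℕ → ℕ}
    {C : ℕ} (S : Seg p k a C) {n : ℕ} (h : p.Ok n) (hf : p.Fit η C k) : Nonempty (Alc p I S) := by
  obtain ⟨tr, t1, t2⟩ := tr_ex (I := I) (S := S) h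
  obtain ⟨ν, n1, n2, n3⟩ := nu_ex t1 t2
  obtain ⟨A, hA, sA⟩ := std_ex p
  have F := fits (I := I) (S := S) hη h hf
  obtain ⟨gJ, gM, g1, g2, g3, g4, g5⟩ := zones A (RJ I S) (RM I S)
    (hA ▸ (Nat.le_add_right _ _).trans (F 0)) fun π => hA ▸ F π
  have FA : ∀ π, #(RM I S π) ≤ p.nA := fun π => (Nat.le_add_left _ _).trans (F π)
  let L : BT p → ℕ → ℕ → p.Lab := fun B f o =>
    mk (rz gJ gM (.inl (B, o, f / m I B o)) 0) (I.su (ta B o) (kB I B) (f % m I B o))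
      (I.sz (ta B o) (kB I B) (f % m I B o))
  refine ⟨{
    Cl := Cl p
    Tk := BT p × ℕ
    ok := ok I S
    ty := ty
    pr := pr
    rz := rz gJ gM
    cm := fun j o => .inl (Bt I S j, o, bn I (Bt I S j) (tr j) o)
    lm := fun j o => mk (rz gJ gM (.inl (Bt I S j, o, bn I (Bt I S j) (tr j) o)) 0)
      (ul I (Bt I S j) (tr j) o) (zl I (Bt I S j) (tr j) o)
    tk := fun j => (Bt I S j, tr j)
    cj := fun j u e => .inr (ga I S j, ν j, u, e)
    Dl := (BB I S ×ˢ range (2 * p.K) ×ˢ range (2 ^ (p.t + p.mu) * p.nA)).image fun x =>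
      L x.1 x.2.2 x.2.1 + L x.1 x.2.2 (x.2.1 + 1)
    tyT := ?_
    rzA := ?_
    inj := ?_
    cm1 := fun j hj o ho => ?_
    cm2 := fun j hj j' hj' o ho o' ho' e1 e2 => ?_
    tk1 := fun j _ j' _ e o => ?_
    tk2 := fun y => (flt _ _ _ fun _ _ e => Prod.ext_iff.1 e).trans (t2 y.1 y.2)
    dl1 := fun j hj o ho => ?_
    dl2 := card_image_le.trans ?_
    cj1 := fun j hj u hu e he => ⟨⟨mem_product.2 ⟨?_, mem_range.2 (Nat.mod_lt _ two_pos)⟩,
      n1 j hj, hu, he⟩, rfl, par_eq _ _, rfl⟩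
    cj2 := fun j j' u u' e e' q => ?_
    cj3 := fun j o j' u e => Sum.inl_ne_inr
    cj4 := fun u e y z => ?_
    cj5 := fun u e y z => ?_ }⟩
  · rintro (x | x) hx
    · exact ta_mem hx.1 hx.2.1
    · exact (mem_product.1 hx.1).1
  · rintro (x | x) r hx hr
    · exact sA _ (g3 _ _ (mem_RM.2 ⟨hx, hr, rfl⟩))
    · exact sA _ (g1 _ (mem_RJ.2 ⟨hx.1, hx.2.1, hx.2.2.1, hr⟩))
  · rintro (⟨B, o, b⟩ | ⟨γ, v, u, e⟩) (⟨B', o', b'⟩ | ⟨γ', v', u', e'⟩) r r' hx hy hr hr' q1 q2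
    · have := g4 _ _ (mem_RM.2 ⟨hx, hr, q2⟩) _ (mem_RM.2 ⟨hy, hr', rfl⟩)
        ((congrArg (fun π => gM π ⟨B, o, b, r⟩) q2).symm.trans q1)
      cases this
      exact ⟨rfl, rfl⟩
    · exact absurd q1.symm (g5 _ _ (mem_RJ.2 ⟨hy.1, hy.2.1, hy.2.2.1, hr'⟩) _
        (mem_RM.2 ⟨hx, hr, rfl⟩))
    · exact absurd q1 (g5 _ _ (mem_RJ.2 ⟨hx.1, hx.2.1, hx.2.2.1, hr⟩) _
        (mem_RM.2 ⟨hy, hr', rfl⟩))
    · have := g2 _ (mem_RJ.2 ⟨hx.1, hx.2.1, hx.2.2.1, hr⟩) _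
        (mem_RJ.2 ⟨hy.1, hy.2.1, hy.2.2.1, hr'⟩) q1
      cases this
      have k1 := (ZMod.natCast_eq_natCast_iff' _ _ 2).1 (rp_inj q2)
      have k2 : e < 2 := hx.2.2.2
      have k3 : e' < 2 := hy.2.2.2
      obtain rfl : e = e' := by
        simp only at k1
        omega
      exact ⟨rfl, rfl⟩
  · have hB := mem_BB (I := I) (S := S) hj
    have k1 := I.su1 _ (ta_mem hB ho) _ (lev_le ho) (kB_le hB) _
      (Nat.mod_lt (tr j / w I (Bt I S j)) (m_pos hB ho))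
    refine ⟨⟨hB, ho, bn_lt (t1 j hj) o⟩, ta_Bt ho, par_eq _ _, ?_⟩
    rw [← ta_Bt ho]
    refine ⟨rfl, k1.1, fun c => ⟨(k1.2 c).1, ?_⟩⟩
    rw [add_zero]
    exact (k1.2 c).2 _ (Nat.mod_lt _ (w_pos _))
  · obtain ⟨a1, a2⟩ := Prod.ext_iff.1 (Sum.inl_injective e1)
    obtain ⟨a3, a4⟩ := Prod.ext_iff.1 a2
    have a5 := congrArg uo e2
    have a6 := congrArg zz e2
    simp only [uo_mk, zz_mk] at a1 a3 a4 a5 a6
    subst a3
    rw [← a1] at a4 a5 a6
    exact ⟨rfl, Prod.ext a1 (sti (mem_BB hj) ho a4 a5 a6)⟩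
  · obtain ⟨a1, a2⟩ := Prod.ext_iff.1 e
    simp only at a1 a2
    rw [a1, a2]
  · refine mem_image.2 ⟨(Bt I S j, o, tr j / w I (Bt I S j)), mem_product.2 ⟨mem_BB hj,
      mem_product.2 ⟨mem_range.2 ((Nat.lt_of_succ_lt ho).trans_le (S.bl2 j)), mem_range.2
        (((Nat.div_lt_iff_lt_mul (w_pos _)).2 (t1 j hj)).trans_le (FB_le FA (mem_BB hj)))⟩⟩, ?_⟩
    exact (lab_add _ _ _ _ _ _ _).symm
  · rw [card_product, card_product, card_range, card_range, Pm.nD, mul_assoc p.nB]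
    exact Nat.mul_le_mul_right _ card_BB
  · exact I.rdT _ (S.avl j ▸ S.avM j _)
  · obtain ⟨-, a2⟩ := Prod.ext_iff.1 (Sum.inr_injective q)
    exact Prod.ext_iff.1 (Prod.ext_iff.1 a2).2
  · refine le_of_ne_imp fun j0 hj0 => le_trans (flt _ _ _ fun j _ q => ?_)
      (n2 (ga I S j0) z (ν j0))
    obtain ⟨a1, a2⟩ := Prod.ext_iff.1 (Sum.inr_injective (q.1.trans (mf hj0).2.1.symm))
    exact ⟨⟨a1, q.2⟩, (Prod.ext_iff.1 a2).1⟩
  · refine le_of_ne_imp fun j0 hj0 => le_trans (flt _ _ _ fun j _ q => ?_)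
      (n3 (ga I S j0) z (ν j0))
    obtain ⟨a1, a2⟩ := Prod.ext_iff.1 (Sum.inr_injective (q.1.trans (mf hj0).2.1.symm))
    exact ⟨⟨a1, q.2⟩, (Prod.ext_iff.1 a2).1⟩

end Pool.Agent.Work.MP_ede3c6_co.X
end

-- merged part: Pool.Agent.Work.MP_ede3c6_co.X.P4
section
/-! Assembly of the embedding. -/

set_option autoImplicit false

namespace Pool.Agent.Work.MP_ede3c6_co.X

open Finset Vol

namespace Cy
variable (x : Cy)

/-- segment and offset of a spine vertex -/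
def pos : ℕ → ℕ × ℕ
  | 0 => (0, 0)
  | i + 1 => if (pos i).2 + 1 < x.sl (pos i).1 then ((pos i).1, (pos i).2 + 1)
      else ((pos i).1 + 1, 0)

theorem sl_pos (j : ℕ) : 0 < x.sl j := lt_of_lt_of_le (x.S.bl1 j) (Nat.le_add_right _ _)

theorem pos_spec (i : ℕ) : (x.pos i).2 < x.sl (x.pos i).1 ∧ x.S.bs (x.pos i).1 + (x.pos i).2 = i := by
  induction i with
  | zero => exact ⟨x.sl_pos 0, by simp [pos, x.S.bs0]⟩
  | succ i ih =>
    rw [pos]
    split_ifs with h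
    · exact ⟨h, by simp only; omega⟩
    · refine ⟨x.sl_pos _, ?_⟩
      have := x.S.bss (x.pos i).1
      unfold Cx.sl Cx.bl at h ih
      simp only
      omega

theorem pos_lt {i : ℕ} (h : i < x.k) : (x.pos i).1 < x.J := by
  by_contra q
  have m : Monotone x.S.bs := monotone_nat_of_le_succ fun j => by
    rw [x.S.bss]
    omega
  have := m (not_lt.1 q)
  have := x.S.cov
  have := (x.pos_spec i).2
  unfold Cx.J at *
  omega

theorem sv_add {j o j' o' : ℕ} {c d : Fin x.p.G}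
    (h : x.rv j o + e (x.gl c) = x.rv j' o' + e (x.gl d)) : x.sv x.bS j o = x.sv x.bS j' o' := by
  funext b
  have := congrFun h (Sum.inr (Sum.inl b))
  simpa [rv, gl, e_apply] using this

theorem contained : (cat x.k x.a).IsContained (cube x.n) := by
  let Y : ℕ → Lay x.I x.p.Zn x.Cl := fun i => x.lay (x.dec (x.sv x.bS (x.pos i).1 (x.pos i).2))
  let c : ℕ → x.Cl := fun i => x.cl (x.pos i).1 (x.pos i).2
  let l : ℕ → x.p.Lab := fun i => x.lb (x.pos i).1 (x.pos i).2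
  let r : ℕ → V x.R := fun i => x.rv (x.pos i).1 (x.pos i).2
  have hs : ∀ i < x.k, (Y i).St (c i) (l i) ∧ (Y i).pr (c i) = (i : ZMod 2) ∧
      x.a i ≤ (Y i).ty (c i) := fun i hi => by
    obtain ⟨h1, h2, h3⟩ := x.site (x.pos_lt hi) (x.pos_spec i).1
    rw [(x.pos_spec i).2] at h2 h3
    exact ⟨h1, h2, h3 hi⟩
  have hd : ∀ i < x.k, ∀ m < x.a i,
      x.lamR (x.gl (x.dir ((Y i).ld (c i) (l i) m))) = (Y i).ld (c i) (l i) m := fun i hi m hm => by
    obtain ⟨h1, -, h3⟩ := hs i hi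
    rcases (Y i).ld_mem h1.1 (l i) (hm.trans_le h3) with h | h
    exacts [x.hU _ fun b => congrFun h _, x.hJ _ h.1 h.2]
  have hi : ∀ i < x.k, ∀ j < x.k, c i = c j → l i = l j → r i = r j → i = j :=
    fun i hi j hj h1 h2 h3 => by
      obtain ⟨k1, k2⟩ := x.inj (x.pos_lt hi) (x.pos_lt hj) (x.pos_spec i).1 (x.pos_spec j).1 h1 h2 h3
      rw [← (x.pos_spec i).2, ← (x.pos_spec j).2, k1, k2]
  refine emb x.lamR x.k x.a l r (fun i m => x.gl (x.dir ((Y i).ld (c i) (l i) m))) (fun i h => ?_)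
    (fun i j h1 h2 h3 h4 h5 => ?_) (fun i j m h1 h2 h3 h4 h5 h6 => ?_)
    (fun i j m m' h1 h2 h3 h4 h5 h6 h7 => ?_) ?_
  · have := x.step (x.pos_lt (Nat.lt_of_succ_lt h)) (x.pos_spec i).1
    simp only [l, r, pos]
    split_ifs with q
    · exact this
    · have k : (x.pos i).2 + 1 = x.sl (x.pos i).1 := by
        have := (x.pos_spec i).1
        omega
      rwa [k, x.glue_lb, x.glue_rv] at this
  · have hY : Y i = Y j := by simp only [Y, (x.rv_inj h5).2.1]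
    obtain ⟨a1, a2, -⟩ := hs i h1
    obtain ⟨b1, b2, -⟩ := hs j h2
    rw [hY] at a1 a2
    exact hi i h1 j h2 ((Y j).b1 a1 (h4 ▸ b1) (a2.trans (h3.trans b2.symm))) h4 h5
  · have hY : Y i = Y j := by
      have k : x.sv x.bS (x.pos i).1 (x.pos i).2 = x.sv x.bS (x.pos j).1 (x.pos j).2 := by
        funext b
        have := congrFun h6 (Sum.inr (Sum.inl b))
        simpa [r, rv, gl, e_apply] using this
      simp only [Y, k]
    obtain ⟨a1, a2, -⟩ := hs i h1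
    obtain ⟨b1, b2, b3⟩ := hs j h2
    rw [hY] at a1 a2
    rw [hd j h2 m h3] at h5
    exact (Y j).b2 a1 b1 (h3.trans_le b3) h5 (by rw [a2, b2, h4])
  · have hY : Y i = Y j := by simp only [Y, x.sv_add h7]
    obtain ⟨a1, a2, a3⟩ := hs i h1
    obtain ⟨b1, b2, b3⟩ := hs j h2
    rw [hd j h2 m' h4, hd i h1 m h3] at h6
    rw [hY] at a1 a2 a3 h6 h7
    obtain ⟨k1, rfl, k3⟩ := (Y j).b3 a1 b1 (h3.trans_le a3) (h4.trans_le b3) h6
      (a2.trans (h5.trans b2.symm))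
    rw [k1, k3] at h7
    exact ⟨hi i h1 j h2 k1 k3 (add_right_cancel h7), rfl⟩
  · rw [card_Lb, x.ok.dim]
    simp

end Cy

theorem dir_ex {α : Type} [Zero α] (T : Finset α) {G : ℕ} (h0 : 0 < G) (h : T.card ≤ G) :
    ∃ (lam : Fin G → α) (dir : α → Fin G), ∀ δ ∈ T, lam (dir δ) = δ := by
  classical
  obtain ⟨f⟩ : Nonempty (T ↪ Fin G) := Function.Embedding.nonempty_of_card_le (by simpa using h)
  refine ⟨fun c => if q : ∃ y, f y = c then (q.choose : α) else 0,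
    fun δ => if q : δ ∈ T then f ⟨δ, q⟩ else ⟨0, h0⟩, fun δ hδ => ?_⟩
  have q : ∃ y, f y = f ⟨δ, hδ⟩ := ⟨_, rfl⟩
  simp only [dif_pos hδ, dif_pos q, f.injective q.choose_spec]

theorem near (ε : ℝ) (hε : 0 < ε) : ∃ c n0 : ℕ, ∀ n ≥ n0, ∀ (k : ℕ) (a : ℕ → ℕ),
    (∀ i < k, a i + Nat.log 2 n ^ c ≤ n) → (∀ π < 2, (cls k a π : ℝ) ≤ (1 - ε) * 2 ^ (n - 1)) →
    (cat k a).IsContained (cube n) := by
  classical
  wlog h1 : ε ≤ 1 generalizing ε
  · obtain ⟨c, n0, h⟩ := this 1 one_pos le_rfl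
    refine ⟨c, n0, fun n hn k a ha hc => h n hn k a ha fun π hπ => (hc π hπ).trans ?_⟩
    gcongr
    linarith
  have hη : 0 < ε / 20 := by positivity
  obtain ⟨m0, hI⟩ := inn_ex _ hη
  obtain ⟨c, n0, hp⟩ := par_ex ε hε h1 m0
  refine ⟨c, n0, fun n hn k a ha hc => ?_⟩
  obtain ⟨p, ok, hm, hA, hf⟩ := hp n hn
  obtain ⟨I⟩ := hI p.t p.mu p.kk p.nJ ok.t0 hm ok.kk0 ok.hJ1 ok.hJ2
  have hf := hf (max (cls k a 0) (cls k a 1)) k
    (by rw [Nat.cast_max]; exact max_le (hc 0 (by omega)) (hc 1 (by omega))) (by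
      have : k ≤ cls k a 0 + cls k a 1 := by
        rw [cls, cls, ← sum_add_distrib]
        refine le_trans (by simp) (sum_le_sum (f := fun _ => 1) fun i _ => ?_)
        split_ifs <;> omega
      omega)
  obtain ⟨S⟩ := seg_ex p ok.P0 ok.Kp0 k a (max (cls k a 0) (cls k a 1))
    (fun i hi => Nat.le_of_add_le_add_right ((ha i hi).trans hA)) (fun π hπ => by
      interval_cases π
      exacts [le_max_left _ _, le_max_right _ _])
  obtain ⟨A⟩ := alc_ex p hη I S ok hf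
  have G0 : 0 < p.G := lt_of_lt_of_le (by positivity) ok.hG
  obtain ⟨lam, dir, hd⟩ := dir_ex (α := p.Lab)
    (((I.JJ.image fun q => X.mk 0 q.1 q.2) ∪
      ((univ : Finset (V p.Zn × V (Fin p.t) × V (Fin p.mu))).image
        fun q => X.mk q.1 q.2.1 (Sum.elim q.2.2 0))) ∪ A.Dl) G0 (by
    refine le_trans ?_ ok.hG
    refine (card_union_le _ _).trans (add_le_add ((card_union_le _ _).trans (add_le_add
      (card_image_le.trans I.cJ) (card_image_le.trans ?_))) A.dl2)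
    simp [pow_add, mul_assoc])
  obtain ⟨enc⟩ : Nonempty (Fin p.G ↪ V (Fin p.s)) :=
    Function.Embedding.nonempty_of_card_le (by simpa using ok.hs)
  have : Nonempty (Fin p.G) := ⟨⟨0, G0⟩⟩
  obtain ⟨y, hy⟩ := Cx.cy_ex ⟨p, ε / 20, I, k, a, _, S, A, n, ok, hf.e1, lam, dir,
    fun δ h => hd δ (mem_union_left _ (mem_union_right _ (mem_image.2
      ⟨(zo δ, uo δ, fun i => zz δ (Sum.inl i)), mem_univ _, lab_ext rfl rfl (funext fun b => by
        rcases b with b | b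
        exacts [rfl, (h b).symm])⟩))),
    fun δ h h' => hd δ (mem_union_left _ (mem_union_left _ (mem_image.2
      ⟨(uo δ, zz δ), h', lab_ext h.symm rfl rfl⟩))),
    fun δ h => hd δ (mem_union_right _ h), enc, Function.invFun enc,
    Function.leftInverse_invFun enc.injective, fun c => (gad_ex p ok.hH (lam c)).some⟩
  have := y.contained
  rw [hy] at this
  exact this

end Pool.Agent.Work.MP_ede3c6_co.X
end
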