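import Pool.Agent.Work.MP_ede3c6_co.V.C1

-- merged part: Pool.Agent.Work.MP_ede3c6_co.X.AlcExA
section
-- merged part: Pool.Agent.Work.MP_ede3c6_co.X.Base
section
/-! Near-optimal embeddings of caterpillars: labels, parameters and the three interfaces
(inner structure of a zone, segmentation of the spine, allocation of zones). -/

set_option autoImplicit false

namespace Pool.Agent.Work.MP_ede3c6_co.X

open Finset Vol

/-- size of the colour class of parity `π` of the caterpillar -/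
def cls (k : ℕ) (a : ℕ → ℕ) (π : ℕ) : ℕ := ∑ i ∈ range k, if i % 2 = π then 1 else a i

/-- inner coordinates -/
abbrev Zt (mu kk : ℕ) : Type := Fin mu ⊕ Fin kk

/-- label bits -/
abbrev Lb (Zn : Type) (t mu kk : ℕ) : Type := Zn ⊕ (Fin t ⊕ Zt mu kk)

section Lab
variable {Zn : Type} {t mu kk : ℕ}

/-- a label from its three parts -/
def mk (Z : V Zn) (u : V (Fin t)) (z : V (Zt mu kk)) : V (Lb Zn t mu kk) :=
  Sum.elim Z (Sum.elim u z)

/-- zone of a label -/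
def zo (l : V (Lb Zn t mu kk)) : V Zn := fun b => l (Sum.inl b)

/-- middle part of a label -/
def uo (l : V (Lb Zn t mu kk)) : V (Fin t) := fun b => l (Sum.inr (Sum.inl b))

/-- inner part of a label -/
def zz (l : V (Lb Zn t mu kk)) : V (Zt mu kk) := fun b => l (Sum.inr (Sum.inr b))

@[simp] theorem zo_mk (Z : V Zn) (u : V (Fin t)) (z : V (Zt mu kk)) : zo (mk Z u z) = Z := rfl
@[simp] theorem uo_mk (Z : V Zn) (u : V (Fin t)) (z : V (Zt mu kk)) : uo (mk Z u z) = u := rfl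
@[simp] theorem zz_mk (Z : V Zn) (u : V (Fin t)) (z : V (Zt mu kk)) : zz (mk Z u z) = z := rfl
@[simp] theorem zo_add (x y : V (Lb Zn t mu kk)) : zo (x + y) = zo x + zo y := rfl
@[simp] theorem uo_add (x y : V (Lb Zn t mu kk)) : uo (x + y) = uo x + uo y := rfl
@[simp] theorem zz_add (x y : V (Lb Zn t mu kk)) : zz (x + y) = zz x + zz y := rfl
@[simp] theorem zo_zero : zo (0 : V (Lb Zn t mu kk)) = 0 := rfl
@[simp] theorem uo_zero : uo (0 : V (Lb Zn t mu kk)) = 0 := rfl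
@[simp] theorem zz_zero : zz (0 : V (Lb Zn t mu kk)) = 0 := rfl

theorem lab_ext {x y : V (Lb Zn t mu kk)} (h1 : zo x = zo y) (h2 : uo x = uo y)
    (h3 : zz x = zz y) : x = y := by
  funext b
  rcases b with b | b | b
  exacts [congrFun h1 b, congrFun h2 b, congrFun h3 b]

end Lab

/-- demands below this bound are small -/
def aS (t mu : ℕ) : ℕ := (2 ^ t - 1) * mu

/-- size of a big bin -/
def bin (t mu kk : ℕ) : ℕ := (2 ^ t - 1) * 2 ^ (mu + kk)

/-- number of big bins of the other parity that a class uses -/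
def oth (t mu τ : ℕ) : ℕ := if τ < aS t mu then τ else 1

/-- admissible resource numbers of a class of type `τ` -/
def vr (t mu τ r : ℕ) : Prop := r ≤ if τ < aS t mu then τ else 0

/-- parity of resource `r` of a class of type `τ` and parity `p` -/
def rp (t mu τ : ℕ) (p : ZMod 2) (r : ℕ) : ZMod 2 := if τ < aS t mu ∧ r = 0 then p else p + 1

/-- The inner structure of a zone. -/
structure Inn (t mu kk nJ : ℕ) (η : ℝ) where
  TS : Finset ℕ
  rd : ℕ → ℕ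
  Dz : ℕ → Set (V (Zt mu kk))
  JJ : Finset (V (Fin t) × V (Zt mu kk))
  i0 : Fin mu
  lu : ℕ → ℕ → V (Fin t)
  lz : ℕ → ℕ → V (Zt mu kk)
  lev : ℕ → ℕ
  mb : ℕ → ℕ → ℕ
  su : ℕ → ℕ → ℕ → V (Fin t)
  sz : ℕ → ℕ → ℕ → V (Zt mu kk)
  hv : ℕ → ℕ → V (Zt mu kk)
  cTS : TS.card ≤ aS t mu + mu * (kk + 1)
  top0 : aS t mu ≤ nJ - 1
  rdT : ∀ a, a ≤ nJ - 1 → rd a ∈ TS
  rd1 : ∀ a, a ≤ nJ - 1 → a ≤ rd a
  cJ : JJ.card ≤ nJ
  jall : ∀ α : V (Fin kk), ((fun _ => 1), Sum.elim (e i0) α) ∈ JJ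
  dzx : ∀ τ, ∀ z ∈ Dz τ, ∀ z' ∈ Dz τ,
    Sum.elim (fun i => z (Sum.inl i)) (fun b => z' (Sum.inr b)) ∈ Dz τ
  lu0 : ∀ τ ∈ TS, aS t mu ≤ τ → ∀ l ≤ τ, lu τ l ≠ 0 ∧ (lu τ l, lz τ l) ∈ JJ
  lfi : ∀ τ ∈ TS, aS t mu ≤ τ → ∀ l ≤ τ, ∀ l' ≤ τ, ∀ z ∈ Dz τ, ∀ z' ∈ Dz τ,
    lu τ l = lu τ l' → z + lz τ l = z' + lz τ l' → l = l'
  lev1 : ∀ τ ∈ TS, lev τ ≤ kk
  su1 : ∀ τ ∈ TS, ∀ j, lev τ ≤ j → j ≤ kk → ∀ f < mb τ j, (τ < aS t mu → su τ j f ≠ 0) ∧
    (aS t mu ≤ τ → su τ j f = 0 ∧ ∀ β < 2 ^ (kk - j), sz τ j f + hv j β ∈ Dz τ)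
  sti : ∀ τ ∈ TS, ∀ j, lev τ ≤ j → j ≤ kk → ∀ f < mb τ j, ∀ f' < mb τ j,
    ∀ β < 2 ^ (kk - j), ∀ β' < 2 ^ (kk - j), su τ j f = su τ j f' →
    sz τ j f + hv j β = sz τ j f' + hv j β' → f = f' ∧ β = β'
  mb0 : ∀ τ ∈ TS, ∀ j, lev τ ≤ j → j ≤ kk → 0 < mb τ j
  mb1 : ∀ τ ∈ TS, mb τ (lev τ) ≤ 2 ^ (t + mu)
  ef1 : ∀ τ ∈ TS, τ < aS t mu → ∀ j, lev τ ≤ j → j ≤ kk → bin t mu kk ≤ mb τ j * 2 ^ (kk - j)
  ef2 : ∀ a, a ≤ nJ - 1 → ∀ j, lev (rd a) ≤ j → j ≤ kk →
    (oth t mu (rd a) : ℝ) * bin t mu kk ≤ (1 + η) * a * (mb (rd a) j * 2 ^ (kk - j))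

/-- `l` is a site of a class of type `τ` in zone `Z` with special value `u` and shift `δ` -/
def Inn.Site {Zn : Type} {t mu kk nJ : ℕ} {η : ℝ} (I : Inn t mu kk nJ η) (τ : ℕ) (Z : V Zn)
    (u : V (Fin t)) (δ : V (Zt mu kk)) (l : V (Lb Zn t mu kk)) : Prop :=
  zo l = Z ∧ (τ < aS t mu → uo l ≠ u) ∧ (aS t mu ≤ τ → uo l = u ∧ zz l + δ ∈ I.Dz τ)

/-- the numerical parameters -/
structure Pm where
  t : ℕ
  mu : ℕ
  kk : ℕ
  nJ : ℕ
  t1 : ℕ
  H : ℕ
  hh : ℕ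
  s : ℕ
  G : ℕ
  d : ℕ
  P : ℕ
  P' : ℕ
  Kp : ℕ
  L0 : ℕ

namespace Pm
variable (p : Pm)

/-- zone bits -/
abbrev Zn : Type := (Fin p.t1 ⊕ Fin p.t1) ⊕ Fin (p.H + 1)
/-- labels -/
abbrev Lab : Type := V (Lb p.Zn p.t p.mu p.kk)
/-- number of label bits -/
def nL : ℕ := p.t1 + p.t1 + (p.H + 1) + (p.t + (p.mu + p.kk))
/-- standard pairs of a junction -/
def M0 : ℕ := 2 * p.hh + 3
/-- extra pairs of a long junction -/
def Mg : ℕ := 3 * p.nL + 2
/-- pairs of junction `j` -/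
def Mj (j : ℕ) : ℕ := if j % (p.P + 1) = p.P then p.M0 + p.Mg else p.M0
/-- slots of a segment -/
def ks : ℕ := 2 * p.M0 + 3
/-- length of a stretch -/
def K : ℕ := (2 * p.M0 + 2) * p.Kp
/-- length of a chapter -/
def Lc : ℕ := p.P * p.K + (2 * (p.M0 + p.Mg) + 2)
/-- number of chapters -/
def N (k : ℕ) : ℕ := k / p.Lc + 1
/-- number of junctions -/
def J (k : ℕ) : ℕ := p.N k * (p.P + 1)
/-- number of values of the balanced coordinates -/
def Q : ℕ := 2 ^ (p.s + (p.G + p.d * 2))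
/-- discrepancy -/
def er : ℕ := 4 + 20 * p.ks
/-- largest demand -/
def Am : ℕ := p.nJ - 1
/-- bound for the number of types -/
def nT : ℕ := aS p.t p.mu + p.mu * (p.kk + 1)
/-- bound for the number of block types -/
def nB : ℕ := (2 * p.K + 1) * 2 * p.nT ^ (2 * p.K)
/-- number of standard zones -/
def nA : ℕ := (2 ^ p.t1 - 1) * (2 ^ p.t1 - 1) * 2 ^ (p.H + 1)
/-- bound for the number of track directions -/
def nD : ℕ := p.nB * (2 * p.K) * (2 ^ (p.t + p.mu) * p.nA)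
/-- bound for the weight of the windows -/
def Wb (C k : ℕ) : ℕ := (2 * C + p.Lc + p.K) / p.Kp + (p.N k + 1) * (1 + p.Am)
/-- bound for the weight of the blocks -/
def Vb (C k : ℕ) : ℕ := C + p.Lc + p.K + 2 * p.Wb C k

/-- conditions on the parameters that do not depend on the caterpillar -/
structure Ok (n : ℕ) : Prop where
  t0 : 1 ≤ p.t
  mu0 : 1 ≤ p.mu
  P0 : 1 ≤ p.P
  Kp0 : 1 ≤ p.Kp
  L00 : 1 ≤ p.L0
  kk0 : 1 ≤ p.kk
  hJ1 : (2 ^ p.t - 1) * (p.mu - 1) * 2 ^ p.kk ≤ p.nJ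
  hJ2 : p.nJ ≤ (2 ^ p.t - 1) * p.mu * 2 ^ p.kk
  dim : n = 1 + p.nL + (p.hh + p.hh + (p.s + (p.G + p.d * 2)))
  hG : p.nJ + 2 ^ (p.t1 + p.t1 + (p.H + 1) + p.t + p.mu) + p.nD ≤ p.G
  hs : p.G ≤ 2 ^ p.s
  hP : p.P + 1 = p.s * p.P'
  hH : 9 * p.Mg < 2 ^ (p.H + 1)
  e2 : (p.G * (p.P + 1) + 1) * p.ks ≤ 2 ^ (p.d * 2)
  hr : p.L0 + p.er + 2 ^ p.hh * (p.ks * (2 ^ p.mu + p.er)) < 2 ^ (p.hh + p.hh)

/-- conditions that link the parameters with the size of the caterpillar -/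
structure Fit (η : ℝ) (C k : ℕ) : Prop where
  e1 : (p.N k + 1) * ((p.s + 1) * p.ks) ≤ 2 ^ (p.G + p.d * 2)
  hA : (1 + η) * p.Vb C k / (p.L0 * p.Q * bin p.t p.mu p.kk) +
    2 * p.nB * (2 * p.K) * (aS p.t p.mu + 1) +
    p.M0 * (p.L0 * 2 ^ p.t * (2 * ((1 + η) * p.Wb C k / (p.L0 * p.Q * bin p.t p.mu p.kk)) +
      4 * p.nB * (aS p.t p.mu + 1)) + 2 * p.nT * (aS p.t p.mu + 1)) ≤ (p.nA : ℝ)

/-- the standard zones -/
def Std (Z : V p.Zn) : Prop :=
  (∃ b, Z (Sum.inl (Sum.inl b)) ≠ 0) ∧ ∃ b, Z (Sum.inl (Sum.inr b)) ≠ 0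

end Pm

/-- weight of a spine vertex in the colour class `π` -/
def wt (π i x : ℕ) : ℕ := if i % 2 = π then 1 else x

/-- The segmentation of the spine into blocks and junctions. -/
structure Seg (p : Pm) (k : ℕ) (a : ℕ → ℕ) (C : ℕ) where
  bs : ℕ → ℕ
  bl : ℕ → ℕ
  av : ℕ → ℕ → ℕ
  mx : ℕ → ℕ
  bs0 : bs 0 = 0
  bss : ∀ j, bs (j + 1) = bs j + bl j + 2 * p.Mj j
  bl1 : ∀ j, 1 ≤ bl j
  bl2 : ∀ j, bl j ≤ 2 * p.K
  avM : ∀ j o, av j o ≤ p.Am
  avl : ∀ j, av j (bl j - 1) = mx j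
  avf : ∀ j, av (j + 1) 0 = mx j
  lgM : ∀ j, j % (p.P + 1) = p.P → mx j = p.Am ∧ (bs j + bl j) % 2 = 1
  cv1 : ∀ j o, o < bl j → bs j + o < k → a (bs j + o) ≤ av j o
  cv2 : ∀ j o, o < 2 * p.Mj j → bs j + bl j + o < k → a (bs j + bl j + o) ≤ mx j
  cov : k ≤ bs (p.J k)
  vol : ∀ π < 2, ∑ j ∈ range (p.J k + 1), ∑ o ∈ range (bl j), wt π (bs j + o) (av j o) ≤ p.Vb C k
  wf : ∑ j ∈ range (p.J k + 1), (1 + av j 0) ≤ p.Wb C k
  wl : ∑ j ∈ range (p.J k + 1), (1 + mx j) ≤ p.Wb C k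

open Classical in
/-- The allocation of tracks and standard zones. -/
structure Alc (p : Pm) {η : ℝ} (I : Inn p.t p.mu p.kk p.nJ η) {k : ℕ} {a : ℕ → ℕ} {C : ℕ}
    (S : Seg p k a C) where
  Cl : Type
  Tk : Type
  ok : Cl → Prop
  ty : Cl → ℕ
  pr : Cl → ZMod 2
  rz : Cl → ℕ → V p.Zn
  cm : ℕ → ℕ → Cl
  lm : ℕ → ℕ → p.Lab
  tk : ℕ → Tk
  cj : ℕ → ℕ → ℕ → Cl
  Dl : Finset p.Lab
  tyT : ∀ x, ok x → ty x ∈ I.TS
  rzA : ∀ x r, ok x → vr p.t p.mu (ty x) r → p.Std (rz x r)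
  inj : ∀ x y r r', ok x → ok y → vr p.t p.mu (ty x) r → vr p.t p.mu (ty y) r' →
    rz x r = rz y r' → rp p.t p.mu (ty x) (pr x) r = rp p.t p.mu (ty y) (pr y) r' →
    x = y ∧ r = r'
  cm1 : ∀ j ≤ p.J k, ∀ o < S.bl j, ok (cm j o) ∧ ty (cm j o) = I.rd (S.av j o) ∧
    pr (cm j o) = ((S.bs j + o : ℕ) : ZMod 2) ∧
    I.Site (I.rd (S.av j o)) (rz (cm j o) 0) 0 0 (lm j o)
  cm2 : ∀ j ≤ p.J k, ∀ j' ≤ p.J k, ∀ o < S.bl j, ∀ o' < S.bl j', cm j o = cm j' o' →
    lm j o = lm j' o' → o = o' ∧ tk j = tk j'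
  tk1 : ∀ j ≤ p.J k, ∀ j' ≤ p.J k, tk j = tk j' → ∀ o, lm j o = lm j' o
  tk2 : ∀ y, #{j ∈ range (p.J k + 1) | tk j = y} ≤ p.L0 * p.Q
  dl1 : ∀ j ≤ p.J k, ∀ o, o + 1 < S.bl j → lm j o + lm j (o + 1) ∈ Dl
  dl2 : Dl.card ≤ p.nD
  cj1 : ∀ j < p.J k, ∀ m < p.M0, ∀ e < 2, ok (cj j m e) ∧ ty (cj j m e) = I.rd (S.mx j) ∧
    pr (cj j m e) = ((S.bs j + S.bl j + e : ℕ) : ZMod 2) ∧ rz (cj j m e) 0 = rz (cj j m 0) 0
  cj2 : ∀ j j' m m' e e', cj j m e = cj j' m' e' → m = m' ∧ e = e'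
  cj3 : ∀ j o j' m e, cm j o ≠ cj j' m e
  cj4 : ∀ m e y z, #{j ∈ range (p.J k) | cj j m e = y ∧ zz (lm j (S.bl j - 1)) = z} ≤ p.Q
  cj5 : ∀ m e y z, #{j ∈ range (p.J k) | cj j m e = y ∧ zz (lm (j + 1) 0) = z} ≤ p.Q

end Pool.Agent.Work.MP_ede3c6_co.X
end

-- merged part: Pool.Agent.Work.MP_ede3c6_co.X.Greedy
section
/-! Greedy list colouring with weighted conflicts and three consequences. -/

set_option autoImplicit false

namespace Pool.Agent.Work.MP_ede3c6_co.X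

open Finset Vol

theorem greedyL {ι C : Type} (S : Finset ι) (Cs : ι → Finset C) (bad : ι → C → ι → C → Prop)
    (c0 : C) (hs : ∀ i c j d, bad i c j d → bad j d i c) (w : ι → ι → ℕ)
    (hw : ∀ i ∈ S, ∀ j ∈ S, ∀ d, ∃ T : Finset C, T.card ≤ w i j ∧ ∀ c, bad i c j d → c ∈ T)
    (hc : ∀ i ∈ S, ∑ j ∈ S, w i j < (Cs i).card) :
    ∃ f : ι → C, (∀ i ∈ S, f i ∈ Cs i) ∧ ∀ i ∈ S, ∀ j ∈ S, i ≠ j → ¬ bad i (f i) j (f j) := by
  classical
  suffices H : ∀ U : Finset ι, U ⊆ S → ∃ f : ι → C, (∀ i ∈ U, f i ∈ Cs i) ∧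
      ∀ i ∈ U, ∀ j ∈ U, i ≠ j → ¬ bad i (f i) j (f j) from H S Subset.rfl
  intro U
  induction U using Finset.induction_on with
  | empty => exact fun _ => ⟨fun _ => c0, by simp, by simp⟩
  | insert a U ha ih =>
    intro hU
    obtain ⟨f, f1, f2⟩ := ih ((subset_insert _ _).trans hU)
    have aS : a ∈ S := hU (mem_insert_self _ _)
    have hT : ∀ j, ∃ T : Finset C, j ∈ S → T.card ≤ w a j ∧ ∀ c, bad a c j (f j) → c ∈ T :=
      fun j => by
        by_cases h : j ∈ S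
        · obtain ⟨T, hT⟩ := hw a aS j h (f j)
          exact ⟨T, fun _ => hT⟩
        · exact ⟨∅, fun k => absurd k h⟩
    choose T hT using hT
    have hlt : (S.biUnion T).card < (Cs a).card :=
      lt_of_le_of_lt (card_biUnion_le.trans (sum_le_sum fun j hj => (hT j hj).1)) (hc a aS)
    obtain ⟨c, c1, c2⟩ := exists_mem_notMem_of_card_lt_card hlt
    have key : ∀ j ∈ U, ¬ bad a c j (f j) := fun j hj hb =>
      c2 (mem_biUnion.2 ⟨j, hU (mem_insert_of_mem hj), (hT j (hU (mem_insert_of_mem hj))).2 c hb⟩)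
    have ne : ∀ j ∈ U, j ≠ a := fun j hj h => ha (h ▸ hj)
    refine ⟨Function.update f a c, fun i hi => ?_, fun i hi j hj hij => ?_⟩
    · rcases mem_insert.1 hi with rfl | hi
      · simpa using c1
      · rw [Function.update_of_ne (ne i hi)]
        exact f1 i hi
    · rcases mem_insert.1 hi with e1 | hi' <;> rcases mem_insert.1 hj with e2 | hj'
      · exact absurd (e1.trans e2.symm) hij
      · rw [e1, Function.update_self, Function.update_of_ne (ne j hj')]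
        exact key j hj'
      · rw [e2, Function.update_self, Function.update_of_ne (ne i hi')]
        exact fun h => key i hi' (hs _ _ _ _ h)
      · rw [Function.update_of_ne (ne i hi'), Function.update_of_ne (ne j hj')]
        exact f2 i hi' j hj' hij

open Classical in
theorem fill2 {ι Y Y' : Type} (S : Finset ι) (k1 : ι → Y) (k2 : ι → Y') (nu : ι → ℕ) (c : ℕ)
    (h : ∀ i ∈ S, #{j ∈ S | k1 j = k1 i} + #{j ∈ S | k2 j = k2 i} < nu i * c) :
    ∃ f : ι → ℕ, (∀ i ∈ S, f i < nu i) ∧ (∀ y v, #{j ∈ S | k1 j = y ∧ f j = v} ≤ c) ∧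
      ∀ y v, #{j ∈ S | k2 j = y ∧ f j = v} ≤ c := by
  obtain ⟨f, f1, f2⟩ := greedyL S (fun i => range (nu i) ×ˢ range c)
    (fun i x j y => (k1 j = k1 i ∨ k2 j = k2 i) ∧ x = y) (0, 0)
    (fun i x j y h => ⟨h.1.imp Eq.symm Eq.symm, h.2.symm⟩)
    (fun i j => (if k1 j = k1 i then 1 else 0) + if k2 j = k2 i then 1 else 0)
    (fun i _ j _ d => by
      by_cases q : k1 j = k1 i ∨ k2 j = k2 i
      · refine ⟨{d}, ?_, fun c h => mem_singleton.2 h.2⟩
        rcases q with q | q <;> simp [q]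
      · exact ⟨∅, by simp, fun c h => absurd h.1 q⟩)
    (fun i hi => by
      rw [sum_add_distrib, ← card_filter, ← card_filter, card_product, card_range, card_range]
      exact h i hi)
  have key : ∀ (T : Finset ι) (v : ℕ), T ⊆ S → (∀ j ∈ T, (f j).1 = v) →
      (∀ i ∈ T, ∀ j ∈ T, k1 j = k1 i ∨ k2 j = k2 i) → T.card ≤ c := fun T v t1 t2 t3 => by
    rw [← card_range c]
    refine card_le_card_of_injOn (fun j => (f j).2)
      (fun j hj => (mem_product.1 (f1 j (t1 hj))).2) fun i hi j hj q => ?_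
    by_contra k
    exact f2 i (t1 hi) j (t1 hj) k ⟨t3 i hi j hj, Prod.ext ((t2 i hi).trans (t2 j hj).symm) q⟩
  refine ⟨fun i => (f i).1, fun i hi => mem_range.1 (mem_product.1 (f1 i hi)).1, fun y v => ?_,
    fun y v => ?_⟩
  · exact key _ v (filter_subset _ _) (fun j hj => (mem_filter.1 hj).2.2) fun i hi j hj =>
      Or.inl ((mem_filter.1 hj).2.1.trans (mem_filter.1 hi).2.1.symm)
  · exact key _ v (filter_subset _ _) (fun j hj => (mem_filter.1 hj).2.2) fun i hi j hj =>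
      Or.inr ((mem_filter.1 hj).2.1.trans (mem_filter.1 hi).2.1.symm)

open Classical in
theorem fill1 {ι Y : Type} (S : Finset ι) (k1 : ι → Y) (nu : ι → ℕ) (c : ℕ)
    (h : ∀ i ∈ S, #{j ∈ S | k1 j = k1 i} < nu i * c) :
    ∃ f : ι → ℕ, (∀ i ∈ S, f i < nu i) ∧ ∀ y v, #{j ∈ S | k1 j = y ∧ f j = v} ≤ c := by
  obtain ⟨f, f1, f2⟩ := greedyL S (fun i => range (nu i) ×ˢ range c)
    (fun i x j y => k1 j = k1 i ∧ x = y) (0, 0)
    (fun i x j y h => ⟨h.1.symm, h.2.symm⟩) (fun i j => if k1 j = k1 i then 1 else 0)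
    (fun i _ j _ d => by
      by_cases q : k1 j = k1 i
      · exact ⟨{d}, by simp [q], fun c h => mem_singleton.2 h.2⟩
      · exact ⟨∅, by simp, fun c h => absurd h.1 q⟩)
    (fun i hi => by
      rw [← card_filter, card_product, card_range, card_range]
      exact h i hi)
  refine ⟨fun i => (f i).1, fun i hi => mem_range.1 (mem_product.1 (f1 i hi)).1, fun y v => ?_⟩
  rw [← card_range c]
  refine card_le_card_of_injOn (fun j => (f j).2)
    (fun j hj => (mem_product.1 (f1 j (mem_filter.1 hj).1)).2) fun i hi j hj q => ?_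
  by_contra k
  obtain ⟨a1, a2, a3⟩ := mem_filter.1 hi
  obtain ⟨b1, b2, b3⟩ := mem_filter.1 hj
  exact f2 i a1 j b1 k ⟨b2.trans a2.symm, Prod.ext (a3.trans b3.symm) q⟩

open Classical in
theorem rank_ex {Y : Type} (J ks hh Lt L : ℕ) (X : Finset (ℕ × ℕ))
    (hX : ∀ x ∈ X, x.1 < J ∧ x.2 < ks) (cell : ℕ × ℕ → Y)
    (h0 : ∀ y, #{j ∈ range J | (j, 0) ∈ X ∧ cell (j, 0) = y} ≤ Lt)
    (h1 : ∀ u, 1 ≤ u → ∀ y, #{j ∈ range J | (j, u) ∈ X ∧ cell (j, u) = y} ≤ L)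
    (hr : Lt + 2 ^ hh * (ks * L) < 2 ^ (hh + hh)) :
    ∃ lo hi : ℕ → V (Fin hh), ∀ j j' u, (j, u) ∈ X → (j', u) ∈ X → cell (j, u) = cell (j', u) →
      j ≠ j' → (u = 0 → ¬ (lo j = lo j' ∧ hi j = hi j')) ∧ (1 ≤ u → u / 2 ≤ hh → hi j ≠ hi j') ∧
        (hh < u / 2 → lo (j + 1) ≠ lo (j' + 1)) := by
  let R : ℕ → ℕ → ℕ → Prop := fun u j j' => (j, u) ∈ X ∧ (j', u) ∈ X ∧ cell (j, u) = cell (j', u)
  have Rs : ∀ u j j', R u j j' → R u j' j := fun u j j' h => ⟨h.2.1, h.1, h.2.2.symm⟩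
  let R' : ℕ → ℕ → ℕ → Prop := fun u j j' =>
    if u / 2 ≤ hh then 1 ≤ u ∧ R u j j' else 1 ≤ j ∧ 1 ≤ j' ∧ R u (j - 1) (j' - 1)
  have c0 : ∀ j, ∑ j' ∈ range (J + 1), (if R 0 j j' then 1 else 0) ≤ Lt := fun j => by
    rw [← card_filter]
    refine le_trans (card_le_card fun i hi => ?_) (h0 (cell (j, 0)))
    obtain ⟨-, -, a, b⟩ := mem_filter.1 hi
    exact mem_filter.2 ⟨mem_range.2 (hX _ a).1, a, b.symm⟩
  have c1 : ∀ u j, ∑ j' ∈ range (J + 1), (if R' u j j' then 1 else 0) ≤ L := fun u j => by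
    rw [← card_filter]
    by_cases q : u / 2 ≤ hh
    · by_cases q' : 1 ≤ u
      · refine le_trans (card_le_card fun i hi => ?_) (h1 u q' (cell (j, u)))
        have := (mem_filter.1 hi).2
        simp only [R', if_pos q] at this
        obtain ⟨-, -, a, b⟩ := this
        exact mem_filter.2 ⟨mem_range.2 (hX _ a).1, a, b.symm⟩
      · rw [filter_false_of_mem fun i _ h => q' (by simp only [R', if_pos q] at h; exact h.1)]
        simp
    · refine le_trans (card_le_card_of_injOn (fun i => i - 1) (fun i hi => ?_) fun i hi l hl k => ?_)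
        (h1 u (by omega) (cell (j - 1, u)))
      · have := (mem_filter.1 hi).2
        simp only [R', if_neg q] at this
        obtain ⟨-, -, -, a, b⟩ := this
        exact mem_filter.2 ⟨mem_range.2 (hX _ a).1, a, b.symm⟩
      · have a := (mem_filter.1 hi).2
        have b := (mem_filter.1 hl).2
        simp only [R', if_neg q] at a b
        have := a.2.1
        have := b.2.1
        simp only at k
        omega
  obtain ⟨f, -, f2⟩ := greedyL (C := V (Fin hh) × V (Fin hh)) (range (J + 1)) (fun _ => univ)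
    (fun j x j' y => (R 0 j j' ∧ x = y) ∨
      ∃ u ∈ range ks, R' u j j' ∧ if u / 2 ≤ hh then x.2 = y.2 else x.1 = y.1) (0, 0)
    (fun i x j y h => by
      rcases h with h | ⟨u, u1, u2, u3⟩
      · exact Or.inl ⟨Rs _ _ _ h.1, h.2.symm⟩
      · refine Or.inr ⟨u, u1, ?_, ?_⟩
        · by_cases q : u / 2 ≤ hh
          · simp only [R', if_pos q] at u2 ⊢
            exact ⟨u2.1, Rs _ _ _ u2.2⟩
          · simp only [R', if_neg q] at u2 ⊢
            exact ⟨u2.2.1, u2.1, Rs _ _ _ u2.2.2⟩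
        · split_ifs at u3 ⊢ <;> exact u3.symm)
    (fun j j' => (if R 0 j j' then 1 else 0) +
      2 ^ hh * ∑ u ∈ range ks, if R' u j j' then 1 else 0)
    (fun i _ j _ d => by
      refine ⟨(if R 0 i j then {d} else ∅) ∪ (range ks).biUnion fun u => if R' u i j then
        (if u / 2 ≤ hh then univ ×ˢ {d.2} else {d.1} ×ˢ univ) else ∅, ?_, fun c h => ?_⟩
      · refine (card_union_le _ _).trans (add_le_add ?_ (card_biUnion_le.trans ?_))
        · split_ifs <;> simp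
        · rw [mul_sum]
          refine sum_le_sum fun u _ => ?_
          split_ifs <;> simp
      · rcases h with h | ⟨u, u1, u2, u3⟩
        · exact mem_union_left _ (by rw [if_pos h.1]; exact mem_singleton.2 h.2)
        · refine mem_union_right _ (mem_biUnion.2 ⟨u, u1, ?_⟩)
          rw [if_pos u2]
          split_ifs at u3 ⊢
          · exact mem_product.2 ⟨mem_univ _, mem_singleton.2 u3⟩
          · exact mem_product.2 ⟨mem_singleton.2 u3, mem_univ _⟩)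
    (fun i _ => by
      rw [sum_add_distrib, ← mul_sum, sum_comm]
      refine lt_of_le_of_lt (add_le_add (c0 i) (Nat.mul_le_mul_left _
        ((sum_le_sum fun u _ => c1 u i).trans (le_of_eq (by simp))))) (hr.trans_le ?_)
      simp [pow_add])
  refine ⟨fun j => (f j).1, fun j => (f j).2, fun j j' u a b c d => ⟨?_, ?_, ?_⟩⟩
  · rintro rfl h
    exact f2 j (mem_range.2 (Nat.lt_succ_of_lt (hX _ a).1)) j'
      (mem_range.2 (Nat.lt_succ_of_lt (hX _ b).1)) d (Or.inl ⟨⟨a, b, c⟩, Prod.ext h.1 h.2⟩)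
  · intro u1 u2 h
    refine f2 j (mem_range.2 (Nat.lt_succ_of_lt (hX _ a).1)) j'
      (mem_range.2 (Nat.lt_succ_of_lt (hX _ b).1)) d
      (Or.inr ⟨u, mem_range.2 (hX _ a).2, ?_, by rw [if_pos u2]; exact h⟩)
    simp only [R', if_pos u2]
    exact ⟨u1, a, b, c⟩
  · intro u2 h
    have q : ¬ u / 2 ≤ hh := by omega
    refine f2 (j + 1) (mem_range.2 (Nat.succ_lt_succ (hX _ a).1)) (j' + 1)
      (mem_range.2 (Nat.succ_lt_succ (hX _ b).1)) (by omega)
      (Or.inr ⟨u, mem_range.2 (hX _ a).2, ?_, by rw [if_neg q]; exact h⟩)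
    simp only [R', if_neg q, Nat.add_sub_cancel]
    exact ⟨by omega, by omega, a, b, c⟩

end Pool.Agent.Work.MP_ede3c6_co.X
end

-- merged part: Pool.Agent.Work.MP_ede3c6_co.X.Gad
section
/-! The gadget: two routes of the same length with the same end labels, one of which uses a
prescribed direction. -/

set_option autoImplicit false

namespace Pool.Agent.Work.MP_ede3c6_co.X

open Finset Vol

/-- Shifts and zones of the gadget for a direction with label `lam`. -/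
structure Gad (p : Pm) (lam : p.Lab) where
  rho : ℕ → p.Lab
  fl : ℕ → ZMod 2
  bz : ℕ → V p.Zn
  az : ℕ → ℕ → V p.Zn
  r0 : rho 0 = 0
  rM : rho p.Mg = 0
  r1 : rho 2 = rho 1 + lam
  rs : ∀ i, i ≠ 1 → rho (i + 1) = rho i ∨ ∃ b, rho (i + 1) = rho i + e b
  f0 : ∀ i ≤ p.Mg, fl i = 0 → rho i = 0
  f1 : ∀ i, 2 ≤ i → i < p.Mg → fl i = 1
  fa : ∀ g o, fl (g + o) = 1 → az g o = bz g + zo (rho (g + o))
  nb : ∀ g, ¬ p.Std (bz g)
  na : ∀ g o, ¬ p.Std (az g o)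
  ib : ∀ g < p.Mg, ∀ g' < p.Mg, bz g = bz g' → g = g'
  ia : ∀ g < p.Mg, ∀ g' < p.Mg, ∀ o < 2, ∀ o' < 2, az g o = az g' o' → g = g'
  iab : ∀ g < p.Mg, ∀ g' < p.Mg, ∀ o < 2, az g o ≠ bz g'

section
variable (p : Pm)

/-- the flag bit -/
def flag : Lb p.Zn p.t p.mu p.kk := Sum.inl (Sum.inr 0)

theorem card_Lb : Fintype.card (Lb p.Zn p.t p.mu p.kk) = p.nL := by simp [Pm.nL]

/-- a numbering of the label bits -/
noncomputable def ix (b : Lb p.Zn p.t p.mu p.kk) : ℕ := Fintype.equivFin _ b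

theorem ix_lt (b : Lb p.Zn p.t p.mu p.kk) : ix p b < p.nL := by
  rw [← card_Lb]
  exact (Fintype.equivFin _ b).2

theorem ix_inj {b c : Lb p.Zn p.t p.mu p.kk} (h : ix p b = ix p c) : b = c :=
  (Fintype.equivFin _).injective (Fin.ext h)

open Classical in
/-- the time at which a bit is repaired -/
noncomputable def od (b : Lb p.Zn p.t p.mu p.kk) : ℕ :=
  if b = flag p then 3 * p.nL - 1 else
    if ∃ c, b = Sum.inl (Sum.inl (Sum.inl c)) then p.nL + ix p b else ix p b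

theorem od_inj {b c : Lb p.Zn p.t p.mu p.kk} (h : od p b = od p c) : b = c := by
  have := ix_lt p b
  have := ix_lt p c
  unfold od at h
  split_ifs at h with h1 h2 <;> first | exact h1.trans h2.symm | omega | exact ix_inj p (by omega)

theorem od_lt (b : Lb p.Zn p.t p.mu p.kk) : od p b < 3 * p.nL := by
  have := ix_lt p b
  unfold od
  split_ifs <;> omega

/-- the shift of the first route -/
noncomputable def rho (lam : p.Lab) (i : ℕ) : p.Lab :=
  if i = 0 then 0 else if i = 1 then (if lam (flag p) = 0 then e (flag p) else 0) else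
    fun b => if i - 2 ≤ od p b then (if b = flag p then 1 else lam b) else 0

theorem rho_ge (lam : p.Lab) (i : ℕ) (b : Lb p.Zn p.t p.mu p.kk) :
    rho p lam (i + 2) b = if i ≤ od p b then (if b = flag p then 1 else lam b) else 0 := by
  simp [rho]

theorem rho_low (lam : p.Lab) {i : ℕ} (h : i < 2) {b : Lb p.Zn p.t p.mu p.kk} (hb : b ≠ flag p) :
    rho p lam i b = 0 := by
  unfold rho
  split_ifs
  · rfl
  · simp [e_apply, hb]
  · rfl
  · omega

theorem z2 (a : ZMod 2) : a = 0 ∨ a = 1 := by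
  revert a
  decide

theorem gad_ex (hH : 9 * p.Mg < 2 ^ (p.H + 1)) (lam : p.Lab) : Nonempty (Gad p lam) := by
  classical
  let rt : ℕ → V p.Zn := fun i => zo (Function.update (rho p lam i) (flag p) 1)
  let A : ℕ → Finset (V (Fin (p.H + 1))) := fun g =>
    {0, fun b => rt g (Sum.inr b), fun b => rt (g + 1) (Sum.inr b)}
  obtain ⟨x, -, hx⟩ := greedyL (range p.Mg) (fun _ => (univ : Finset (V (Fin (p.H + 1)))))
    (fun g c g' d => ∃ a ∈ A g, ∃ a' ∈ A g', c + a = d + a') 0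
    (fun i c j d ⟨a, h1, b, h2, h3⟩ => ⟨b, h2, a, h1, h3.symm⟩) (fun _ _ => 9)
    (fun i _ j _ d => ⟨(A i ×ˢ A j).image fun q => d + q.2 + q.1,
      card_image_le.trans (by
        rw [card_product]
        exact Nat.mul_le_mul card_le_three card_le_three),
      fun c ⟨a, h1, b, h2, h3⟩ => mem_image.2 ⟨(a, b), mem_product.2 ⟨h1, h2⟩, by
        rw [← h3, add_assoc, vv, add_zero]⟩⟩)
    (fun i _ => by simpa [mul_comm] using hH)
  let bz : ℕ → V p.Zn := fun g =>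
    Sum.elim (Sum.elim (fun b => lam (Sum.inl (Sum.inl (Sum.inl b)))) 0) (x g)
  have key : ∀ g < p.Mg, ∀ g' < p.Mg, ∀ a ∈ A g, ∀ a' ∈ A g', x g + a = x g' + a' → g = g' :=
    fun g hg g' hg' a ha a' ha' h => by_contra fun k =>
      hx g (mem_range.2 hg) g' (mem_range.2 hg') k ⟨a, ha, a', ha', h⟩
  have mA : ∀ g, ∀ o < 2, (fun b => rt (g + o) (Sum.inr b)) ∈ A g := fun g o ho => by
    interval_cases o <;> simp [A]
  have m0 : ∀ g, (0 : V (Fin (p.H + 1))) ∈ A g := fun g => by simp [A]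
  have nL : 0 < p.nL := lt_of_le_of_lt (Nat.zero_le _) (ix_lt p (flag p))
  have odf : od p (flag p) = 3 * p.nL - 1 := by simp [od]
  refine ⟨⟨rho p lam, fun i => rho p lam i (flag p), bz, fun g o => bz g + rt (g + o),
    by simp [rho], ?_, ?_, ?_, ?_, ?_, ?_, ?_, ?_, ?_, ?_, ?_⟩⟩
  · funext b
    have := od_lt p b
    rw [Pm.Mg, rho_ge, if_neg (by omega)]
    rfl
  · funext b
    refine (rho_ge p lam 0 b).trans ?_
    rw [if_pos (Nat.zero_le _)]
    by_cases hb : b = flag p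
    · subst hb
      rcases z2 (lam (flag p)) with h | h <;> simp [rho, h, e_apply]
    · rw [if_neg hb, Pi.add_apply, rho_low p lam (by omega) hb, zero_add]
  · intro i hi
    rcases i with _ | _ | i
    · rcases z2 (lam (flag p)) with h | h
      · exact Or.inr ⟨flag p, by simp [rho, h]⟩
      · exact Or.inl (by simp [rho, h])
    · exact absurd rfl hi
    · by_cases h : ∃ b, od p b = i ∧ (if b = flag p then 1 else lam b) = 1
      · obtain ⟨b, h1, h2⟩ := h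
        refine Or.inr ⟨b, funext fun c => ?_⟩
        rw [show i + 1 + 1 + 1 = i + 1 + 2 from rfl, show i + 1 + 1 = i + 2 from rfl, Pi.add_apply,
          rho_ge, rho_ge, e_apply]
        by_cases k : c = b
        · subst k
          rw [if_neg (by omega), if_pos (by omega), h2, if_pos rfl]
          decide
        · have : od p c ≠ i := fun q => k (od_inj p (q.trans h1.symm))
          rw [if_neg k, add_zero]
          exact if_congr (by omega) rfl rfl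
      · refine Or.inl (funext fun c => ?_)
        rw [show i + 1 + 1 + 1 = i + 1 + 2 from rfl, show i + 1 + 1 = i + 2 from rfl,
          rho_ge, rho_ge]
        by_cases k : od p c = i
        · rw [if_neg (by omega), if_pos (by omega)]
          exact ((z2 _).resolve_right fun q => h ⟨c, k, q⟩).symm
        · exact if_congr (by omega) rfl rfl
  · intro i hi h
    funext b
    by_cases hb : b = flag p
    · exact hb ▸ h
    rcases i with _ | _ | i
    · exact rho_low p lam (by omega) hb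
    · exact rho_low p lam (by omega) hb
    · have := od_lt p b
      simp only [show i + 1 + 1 = i + 2 from rfl, rho_ge, if_true, odf] at h
      rw [show i + 1 + 1 = i + 2 from rfl, rho_ge, if_neg]
      · rfl
      · intro q
        rw [if_pos (by omega)] at h
        exact one_ne_zero h
  · intro i h1 h2
    obtain ⟨i, rfl⟩ := Nat.exists_eq_add_of_le' h1
    rw [Pm.Mg] at h2
    simp only [rho_ge, if_true, odf]
    rw [if_pos (by omega)]
  · intro g o h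
    simp only [rt]
    rw [← h, Function.update_eq_self]
  · rintro g ⟨-, b, h⟩
    exact h rfl
  · rintro g o ⟨⟨b, h1⟩, c, h2⟩
    have n1 : (Sum.inl (Sum.inl (Sum.inl b)) : Lb p.Zn p.t p.mu p.kk) ≠ flag p := by simp [flag]
    have n2 : (Sum.inl (Sum.inl (Sum.inr c)) : Lb p.Zn p.t p.mu p.kk) ≠ flag p := by simp [flag]
    simp only [bz, rt, zo, Pi.add_apply, Sum.elim_inl, Sum.elim_inr, Function.update_of_ne n1,
      Function.update_of_ne n2, Pi.zero_apply, zero_add] at h1 h2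
    generalize g + o = i at h1 h2
    rcases i with _ | _ | i
    · exact h2 (rho_low p lam (by omega) n2)
    · exact h2 (rho_low p lam (by omega) n2)
    · rw [show i + 1 + 1 = i + 2 from rfl, rho_ge] at h1 h2
      by_cases k : i ≤ p.nL
      · rw [if_pos (by rw [od, if_neg n1, if_pos ⟨b, rfl⟩]; omega), if_neg n1] at h1
        exact h1 (CharTwo.add_self_eq_zero _)
      · have := ix_lt p (Sum.inl (Sum.inl (Sum.inr c)))
        rw [if_neg (by rw [od, if_neg n2, if_neg (by simp)]; omega)] at h2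
        exact h2 rfl
  · intro g hg g' hg' h
    exact key g hg g' hg' 0 (m0 g) 0 (m0 g')
      (congrArg (· + 0) (funext fun b => congrFun h (Sum.inr b)))
  · intro g hg g' hg' o ho o' ho' h
    exact key g hg g' hg' _ (mA g o ho) _ (mA g' o' ho') (funext fun b => congrFun h (Sum.inr b))
  · intro g hg g' hg' o ho h
    obtain rfl := key g hg g' hg' _ (mA g o ho) 0 (m0 g')
      (funext fun b => (congrFun h (Sum.inr b)).trans (add_zero _).symm)
    have := congrFun h (Sum.inr 0)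
    rw [Pi.add_apply, add_eq_left] at this
    simp only [rt, zo] at this
    rw [show (Sum.inl (Sum.inr 0) : Lb p.Zn p.t p.mu p.kk) = flag p from rfl,
      Function.update_self] at this
    exact one_ne_zero this

end

end Pool.Agent.Work.MP_ede3c6_co.X
end

-- merged part: Pool.Agent.Work.MP_ede3c6_co.X.Emb
section
/-! From labels and rest vectors to points of the cube; injectivity at the level of labels. -/

set_option autoImplicit false

namespace Pool.Agent.Work.MP_ede3c6_co.X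

open Finset Vol

section Emb
variable {L R : Type} [Fintype L] [DecidableEq L] [Fintype R] [DecidableEq R] (lam : R → V L)

/-- label of a rest vector -/
def lsum (r : V R) : V L := ∑ c, r c • lam c

omit [Fintype L] [DecidableEq L] in
theorem lsum_e (r : V R) (c : R) : lsum lam (r + e c) = lsum lam r + lam c := by
  simp [lsum, add_smul, sum_add_distrib, e_apply]

/-- the point with given parity, label and rest -/
def pt (π : ZMod 2) (l : V L) (r : V R) : V (Option L ⊕ R) :=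
  Sum.elim (fun o => o.elim (π + par (l + lsum lam r) + par r) (l + lsum lam r)) r

omit [DecidableEq L] [DecidableEq R] in
theorem pt_inj {π π' : ZMod 2} {l l' : V L} {r r' : V R} (h : pt lam π l r = pt lam π' l' r') :
    π = π' ∧ l = l' ∧ r = r' := by
  have h3 : r = r' := funext fun c => congrFun h (Sum.inr c)
  subst h3
  have h2 : l = l' := add_right_cancel (funext fun b => congrFun h (Sum.inl (some b)))
  subst h2
  have h1 := congrFun h (Sum.inl none)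
  exact ⟨add_right_cancel (add_right_cancel h1), rfl, rfl⟩

theorem pt_none (π : ZMod 2) (l : V L) (r : V R) :
    pt lam (π + 1) l r = pt lam π l r + e (Sum.inl none) := by
  funext c
  rcases c with (_ | b) | c <;> simp [pt, e_apply]
  ring

theorem pt_reg (π : ZMod 2) (l : V L) (r : V R) (b : L) :
    pt lam (π + 1) (l + e b) r = pt lam π l r + e (Sum.inl (some b)) := by
  funext c
  rcases c with (_ | b') | c
  · simp only [pt, Sum.elim_inl, Option.elim_none, Pi.add_apply, e_apply, par_add, par_e]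
    simp only [Sum.inl.injEq, reduceCtorEq, if_false]
    generalize par l = x, par (lsum lam r) = y, par r = z
    revert π x y z
    decide
  · simp [pt, e_apply]
    ring
  · simp [pt, e_apply]

theorem pt_rest (π : ZMod 2) (l : V L) (r : V R) (c : R) :
    pt lam (π + 1) (l + lam c) (r + e c) = pt lam π l r + e (Sum.inr c) := by
  have k : l + lam c + lsum lam (r + e c) = l + lsum lam r := by
    rw [lsum_e, add_assoc, add_comm (lsum lam r), ← add_assoc (lam c), vv, zero_add]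
  funext d
  rcases d with (_ | b') | d
  · simp only [pt, k, Sum.elim_inl, Option.elim_none, Pi.add_apply, e_apply, par_add r, par_e]
    simp only [reduceCtorEq, if_false]
    generalize par (l + lsum lam r) = y, par r = z
    revert π y z
    decide
  · simp [pt, k, e_apply]
  · simp [pt, e_apply]

/-- one step of the spine -/
def Step (l : V L) (r : V R) (l' : V L) (r' : V R) : Prop :=
  (l' = l ∧ r' = r) ∨ (∃ b, l' = l + e b ∧ r' = r) ∨ ∃ c, l' = l + lam c ∧ r' = r + e c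

theorem emb (k : ℕ) (a : ℕ → ℕ) (l : ℕ → V L) (r : ℕ → V R) (dr : ℕ → ℕ → R)
    (hst : ∀ i, i + 1 < k → Step lam (l i) (r i) (l (i + 1)) (r (i + 1)))
    (hxx : ∀ i j, i < k → j < k → (i : ZMod 2) = j → l i = l j → r i = r j → i = j)
    (hxy : ∀ i j m, i < k → j < k → m < a j → (i : ZMod 2) = j + 1 → l i = l j + lam (dr j m) →
      r i = r j + e (dr j m) → False)
    (hyy : ∀ i j m m', i < k → j < k → m < a i → m' < a j → (i : ZMod 2) = j →
      l i + lam (dr i m) = l j + lam (dr j m') → r i + e (dr i m) = r j + e (dr j m') →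
      i = j ∧ m = m')
    {n : ℕ} (hn : n = 1 + Fintype.card L + Fintype.card R) : (cat k a).IsContained (cube n) := by
  refine Dat.contained (x := fun i => pt lam i (l i) (r i))
    (y := fun i m => pt lam (i + 1) (l i + lam (dr i m)) (r i + e (dr i m)))
    ⟨fun i j hi hj h => ?_, fun i j m hi hj hm h => ?_, fun i j m m' hi hj hm hm' h => ?_,
      fun i hi => ?_, fun i m _ _ => ?_⟩ (by simp [hn, add_comm])
  · obtain ⟨h1, h2, h3⟩ := pt_inj lam h
    exact hxx i j hi hj h1 h2 h3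
  · obtain ⟨h1, h2, h3⟩ := pt_inj lam h
    exact hxy i j m hi hj hm h1 h2 h3
  · obtain ⟨h1, h2, h3⟩ := pt_inj lam h
    exact hyy i j m m' hi hj hm hm' (add_right_cancel h1) h2 h3
  · simp only [Nat.cast_add, Nat.cast_one]
    rcases hst i hi with ⟨h1, h2⟩ | ⟨b, h1, h2⟩ | ⟨c, h1, h2⟩
    · rw [h1, h2, pt_none, hd_e]
    · rw [h1, h2, pt_reg, hd_e]
    · rw [h1, h2, pt_rest, hd_e]
  · rw [pt_rest, hd_e]

end Emb

section Bins
variable {Zn : Type} {t mu kk nJ : ℕ} {η : ℝ} (I : Inn t mu kk nJ η)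

/-- A layout: classes of sites with pairwise different resources. -/
structure Lay (Zn Cl : Type) where
  ok : Cl → Prop
  ty : Cl → ℕ
  pr : Cl → ZMod 2
  rz : Cl → ℕ → V Zn
  dl : Cl → V (Zt mu kk)
  us : V Zn → ZMod 2 → V (Fin t)
  tyT : ∀ x, ok x → ty x ∈ I.TS
  inj : ∀ x y r r', ok x → ok y → vr t mu (ty x) r → vr t mu (ty y) r' →
    rz x r = rz y r' → rp t mu (ty x) (pr x) r = rp t mu (ty y) (pr y) r' → x = y ∧ r = r'
  pair : ∀ x y, ok x → ok y → rz x 0 = rz y 0 → us (rz x 0) (pr x) ≠ us (rz y 0) (pr y) →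
    ty x < aS t mu ∨ ty y < aS t mu ∨ ty x = ty y

variable {I} {Cl : Type} (Y : Lay I Zn Cl)

/-- `l` is a site of the class `x` -/
def Lay.St (x : Cl) (l : V (Lb Zn t mu kk)) : Prop :=
  Y.ok x ∧ I.Site (Y.ty x) (Y.rz x 0) (Y.us (Y.rz x 0) (Y.pr x)) (Y.dl x) l

/-- inner directions -/
def Lay.jd (x : Cl) (m : ℕ) : V (Lb Zn t mu kk) := X.mk 0 (I.lu (Y.ty x) m) (I.lz (Y.ty x) m)

/-- inner directions that lead to a site -/
def Lay.Bad (x : Cl) (l : V (Lb Zn t mu kk)) (m : ℕ) : Prop :=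
  m ≤ Y.ty x ∧ ∃ y, Y.St y (l + Y.jd x m) ∧ Y.pr y = Y.pr x + 1

theorem vr_zero (τ : ℕ) : vr t mu τ 0 := Nat.zero_le _

theorem Lay.bad_uniq {x : Cl} {l : V (Lb Zn t mu kk)} (hx : Y.St x l) (a : ¬ Y.ty x < aS t mu)
    {m m' : ℕ} (h : Y.Bad x l m) (h' : Y.Bad x l m') : m = m' := by
  obtain ⟨x0, x1, -, x3⟩ := hx
  obtain ⟨u1, -⟩ := x3 (not_lt.1 a)
  have key : ∀ m y, m ≤ Y.ty x → Y.St y (l + Y.jd x m) → Y.pr y = Y.pr x + 1 →
      Y.rz y 0 = Y.rz x 0 ∧ Y.ty y = Y.ty x ∧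
      uo l + I.lu (Y.ty x) m = Y.us (Y.rz x 0) (Y.pr x + 1) ∧
      zz l + I.lz (Y.ty x) m + Y.dl y ∈ I.Dz (Y.ty x) := fun m y hm ⟨y0, y1, _, y3⟩ hp => by
    have hz : Y.rz y 0 = Y.rz x 0 := by rw [← y1, ← x1]; exact add_zero _
    have b : ¬ Y.ty y < aS t mu := fun b => by
      obtain ⟨rfl, -⟩ := Y.inj y x 0 0 y0 x0 (vr_zero _) (vr_zero _) hz (by simp [rp, a, b, hp])
      exact a b
    obtain ⟨u2, z2⟩ := y3 (not_lt.1 b)
    have ht : Y.ty y = Y.ty x := by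
      refine ((Y.pair y x y0 x0 hz fun k => ?_).resolve_left b).resolve_left a
      rw [k, ← u1] at u2
      exact (I.lu0 _ (Y.tyT x x0) (not_lt.1 a) m hm).1 (add_eq_left.1 u2)
    rw [hz, hp] at u2
    rw [ht] at z2
    exact ⟨hz, ht, u2, z2⟩
  obtain ⟨h1, y, h2, h3⟩ := h
  obtain ⟨k1, y', k2, k3⟩ := h'
  obtain ⟨a1, a2, a3, a4⟩ := key m y h1 h2 h3
  obtain ⟨b1, b2, b3, b4⟩ := key m' y' k1 k2 k3
  obtain ⟨rfl, -⟩ := Y.inj y y' 0 0 h2.1 k2.1 (vr_zero _) (vr_zero _) (a1.trans b1.symm)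
    (by rw [a2, b2, h3, k3])
  refine I.lfi _ (Y.tyT x x0) (not_lt.1 a) m h1 m' k1 _ a4 _ b4
    (add_left_cancel (a3.trans b3.symm)) ?_
  have k : ∀ u : V (Zt mu kk), zz l + u + Y.dl y + u = zz l + Y.dl y := fun u => by
    rw [add_right_comm, add_assoc (zz l), vv, add_zero]
  rw [k, k]

open Classical in
/-- numbering of the good inner directions -/
noncomputable def Lay.sel (x : Cl) (l : V (Lb Zn t mu kk)) (m : ℕ) : ℕ :=
  if ∃ b ≤ m, Y.Bad x l b then m + 1 else m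

theorem Lay.sel_le (x : Cl) (l : V (Lb Zn t mu kk)) {m : ℕ} (h : m < Y.ty x) :
    Y.sel x l m ≤ Y.ty x := by
  unfold Lay.sel
  split_ifs <;> omega

theorem Lay.sel_good {x : Cl} {l : V (Lb Zn t mu kk)} (hx : Y.St x l) (a : ¬ Y.ty x < aS t mu)
    (m : ℕ) : ¬ Y.Bad x l (Y.sel x l m) := by
  unfold Lay.sel
  split_ifs with h
  · obtain ⟨b, h1, h2⟩ := h
    intro k
    have := Y.bad_uniq hx a h2 k
    omega
  · exact fun k => h ⟨m, le_rfl, k⟩

theorem Lay.sel_inj (x : Cl) (l : V (Lb Zn t mu kk)) {m m' : ℕ} (h : Y.sel x l m = Y.sel x l m') :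
    m = m' := by
  unfold Lay.sel at h
  split_ifs at h with h1 h2 h2
  · omega
  · obtain ⟨b, k1, k2⟩ := h1
    exact absurd ⟨b, by omega, k2⟩ h2
  · obtain ⟨b, k1, k2⟩ := h2
    exact absurd ⟨b, by omega, k2⟩ h1
  · exact h

/-- label of the direction of leaf `m` -/
noncomputable def Lay.ld (x : Cl) (l : V (Lb Zn t mu kk)) (m : ℕ) : V (Lb Zn t mu kk) :=
  if Y.ty x < aS t mu then
    X.mk (Y.rz x 0 + Y.rz x (m + 1))
      (Y.us (Y.rz x 0) (Y.pr x) + Y.us (Y.rz x (m + 1)) (Y.pr x + 1)) 0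
  else Y.jd x (Y.sel x l m)

theorem Lay.ld_mem {x : Cl} (hx : Y.ok x) (l : V (Lb Zn t mu kk)) {m : ℕ} (hm : m < Y.ty x) :
    zz (Y.ld x l m) = 0 ∨ (zo (Y.ld x l m) = 0 ∧ (uo (Y.ld x l m), zz (Y.ld x l m)) ∈ I.JJ) := by
  unfold Lay.ld
  split_ifs with h
  · exact Or.inl rfl
  · exact Or.inr ⟨rfl, (I.lu0 _ (Y.tyT x hx) (not_lt.1 h) _ (Y.sel_le x l hm)).2⟩

theorem Lay.b1 {x y : Cl} {l : V (Lb Zn t mu kk)} (hx : Y.St x l) (hy : Y.St y l)
    (hp : Y.pr x = Y.pr y) : x = y := by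
  obtain ⟨x0, x1, x2, x3⟩ := hx
  obtain ⟨y0, y1, y2, y3⟩ := hy
  have hz : Y.rz x 0 = Y.rz y 0 := x1.symm.trans y1
  refine (Y.inj x y 0 0 x0 y0 (vr_zero _) (vr_zero _) hz ?_).1
  rw [hz, hp] at x2 x3
  by_cases a : Y.ty x < aS t mu <;> by_cases b : Y.ty y < aS t mu
  · simp [rp, a, b, hp]
  · exact absurd (y3 (not_lt.1 b)).1 (x2 a)
  · exact absurd (x3 (not_lt.1 a)).1 (y2 b)
  · simp [rp, a, b, hp]

/-- the resource that holds leaf `m` -/
def Lay.lr (x : Cl) (m : ℕ) : ℕ := if Y.ty x < aS t mu then m + 1 else 0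

theorem Lay.leaf {x : Cl} {l : V (Lb Zn t mu kk)} (hx : Y.St x l) {m : ℕ} (hm : m < Y.ty x) :
    vr t mu (Y.ty x) (Y.lr x m) ∧ rp t mu (Y.ty x) (Y.pr x) (Y.lr x m) = Y.pr x + 1 ∧
      zo (l + Y.ld x l m) = Y.rz x (Y.lr x m) ∧
      (Y.ty x < aS t mu → uo (l + Y.ld x l m) ≠ Y.us (Y.rz x (Y.lr x m)) (Y.pr x + 1)) := by
  obtain ⟨x0, x1, x2, x3⟩ := hx
  unfold Lay.lr Lay.ld vr rp
  by_cases a : Y.ty x < aS t mu
  · simp only [if_pos a, zo_add, uo_add, zo_mk, uo_mk, x1]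
    refine ⟨hm, by simp, by rw [← add_assoc, vv, zero_add], fun _ h => x2 a ?_⟩
    rw [← add_assoc, add_eq_right] at h
    rw [← add_zero (uo l), ← vv (Y.us (Y.rz x 0) (Y.pr x)), ← add_assoc, h, zero_add]
  · simp only [if_neg a, zo_add, Lay.jd, zo_mk, x1]
    exact ⟨le_rfl, by simp [a], add_zero _, fun h => absurd h a⟩

theorem Lay.b2 {x y : Cl} {l l' : V (Lb Zn t mu kk)} (hx : Y.St x l) (hy : Y.St y l') {m : ℕ}
    (hm : m < Y.ty y) (hl : l = l' + Y.ld y l' m) (hp : Y.pr x = Y.pr y + 1) : False := by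
  by_cases b : Y.ty y < aS t mu
  swap
  · rw [Lay.ld, if_neg b] at hl
    exact Y.sel_good hy b m ⟨Y.sel_le y l' hm, x, hl ▸ hx, hp⟩
  obtain ⟨y1, y2, y3, y4⟩ := Y.leaf hy hm
  obtain ⟨x0, x1, x2, x3⟩ := hx
  rw [← hl] at y3 y4
  have hz : Y.rz x 0 = Y.rz y (Y.lr y m) := x1.symm.trans y3
  by_cases a : Y.ty x < aS t mu
  · obtain ⟨rfl, h⟩ := Y.inj x y 0 _ x0 hy.1 (vr_zero _) y1 hz (by rw [y2, ← hp]; simp [rp, a])
    simp [Lay.lr, a] at h
  · exact y4 b (by rw [← hz, ← hp]; exact (x3 (not_lt.1 a)).1)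

theorem Lay.b3 {x y : Cl} {l l' : V (Lb Zn t mu kk)} (hx : Y.St x l) (hy : Y.St y l') {m m' : ℕ}
    (hm : m < Y.ty x) (hm' : m' < Y.ty y) (hl : l + Y.ld x l m = l' + Y.ld y l' m')
    (hp : Y.pr x = Y.pr y) : x = y ∧ m = m' ∧ l = l' := by
  obtain ⟨x1, x2, x3, -⟩ := Y.leaf hx hm
  obtain ⟨y1, y2, y3, -⟩ := Y.leaf hy hm'
  obtain ⟨rfl, h⟩ := Y.inj x y _ _ hx.1 hy.1 x1 y1 (by rw [← x3, ← y3, hl]) (by rw [x2, y2, hp])
  by_cases a : Y.ty x < aS t mu
  · obtain rfl : m = m' := by simpa [Lay.lr, a] using h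
    simp only [Lay.ld, if_pos a] at hl
    exact ⟨rfl, rfl, add_right_cancel hl⟩
  · obtain ⟨u1, z1⟩ := hx.2.2.2 (not_lt.1 a)
    obtain ⟨u2, z2⟩ := hy.2.2.2 (not_lt.1 a)
    simp only [Lay.ld, if_neg a] at hl
    have h1 := congrArg uo hl
    have h2 := congrArg zz hl
    simp only [Lay.jd, uo_add, zz_add, uo_mk, zz_mk, u1, u2] at h1 h2
    have k := I.lfi _ (Y.tyT x hx.1) (not_lt.1 a) _ (Y.sel_le x l hm) _ (Y.sel_le x l' hm') _ z1 _
      z2 (add_left_cancel h1) (by rw [add_right_comm, h2, add_right_comm])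
    rw [k] at hl
    obtain rfl := add_right_cancel hl
    exact ⟨rfl, Y.sel_inj x l k, rfl⟩

end Bins

end Pool.Agent.Work.MP_ede3c6_co.X
end

-- merged part: Pool.Agent.Work.MP_ede3c6_co.X.BF
section
/-! The Beck-Fiala theorem and the sliding balancing lemma.

PLAN. `beck_fiala`: induction on the number of live coordinates (`|x i| < 1`) of a point `x` of
the cube `[-1,1]^I`: there is a sign vector `x'` that agrees with `x` off the live set and has
`|∑ i, A y i * (x' i - x i)| ≤ 2 R` for every row `y`. Heavy rows (live mass `> R`) are fewer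
than the live coordinates (double counting), so a nonzero vector supported on the live set is
orthogonal to them (`LinearMap.ker_ne_bot_of_finrank_lt` or
`LinearMap.exists_ne_zero_mem_ker...`); move along it until a coordinate reaches `±1`; light rows
are bounded directly by `2 R`. Start at `x = 0`.
`slide1`: rows = keys (image of `S`), columns = values of `I` outside `PS`, entry
`A y v = ∑ x ∈ S with key x = y, I x = v of (-1)^(o x)`, column norm `≤ R`. The slots with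
`I x ∈ PS` are at most `N * R`.
`slide`: induction over a finite set `T` of coordinates, apply `slide1` with the key extended by
the bits already chosen (`key x, fun c => if c ∈ T then bit else 0`); invariant
`2 ^ |T| * load T ≤ load + 2 ^ |T| * (2 E)`, `E = (N + 1) * R`. -/

set_option autoImplicit false

namespace Pool.Agent.Work.MP_ede3c6_co.X

open Finset Vol

theorem BF_move {a d : ℝ} (ha : |a| ≤ 1) (hd : d ≠ 0) :
    ∃ τ, 0 ≤ τ ∧ |a + τ * d| = 1 ∧ ∀ t, 0 ≤ t → t ≤ τ → |a + t * d| ≤ 1 := by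
  obtain ⟨h1, h2⟩ := abs_le.mp ha
  rcases lt_or_gt_of_ne hd with h | h
  · have h3 : (-1 - a) / d * d = -1 - a := div_mul_cancel₀ _ hd
    refine ⟨(-1 - a) / d, div_nonneg_of_nonpos (by linarith) h.le, ?_, fun t h4 h5 => ?_⟩
    · rw [h3]
      norm_num
    · have h6 := mul_le_mul_of_nonpos_right h5 h.le
      have h7 := mul_nonpos_of_nonneg_of_nonpos h4 h.le
      rw [abs_le]
      constructor <;> linarith
  · have h3 : (1 - a) / d * d = 1 - a := div_mul_cancel₀ _ hd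
    refine ⟨(1 - a) / d, div_nonneg (by linarith) h.le, ?_, fun t h4 h5 => ?_⟩
    · rw [h3]
      norm_num
    · have h6 := mul_le_mul_of_nonneg_right h5 h.le
      have h7 := mul_nonneg h4 h.le
      rw [abs_le]
      constructor <;> linarith

theorem BF_ker {I Y : Type} [Fintype I] (A : Y → I → ℝ) (L : Finset I) (H : Finset Y)
    (h : H.card < L.card) :
    ∃ d : I → ℝ, (∃ i, d i ≠ 0) ∧ (∀ i, i ∉ L → d i = 0) ∧ ∀ y ∈ H, ∑ i, A y i * d i = 0 := by
  classical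
  let φ : (L → ℝ) →ₗ[ℝ] (H → ℝ) := Matrix.mulVecLin (Matrix.of fun (y : H) (i : L) => A y i)
  have h1 : LinearMap.ker φ ≠ ⊥ := LinearMap.ker_ne_bot_of_finrank_lt (by simpa using h)
  obtain ⟨d, h2, h3⟩ := Submodule.exists_mem_ne_zero_of_ne_bot h1
  refine ⟨fun i => if hi : i ∈ L then d ⟨i, hi⟩ else 0, ?_, fun i hi => dif_neg hi, ?_⟩
  · obtain ⟨i, hi⟩ := Function.ne_iff.mp h3
    exact ⟨i.1, by simpa [i.2] using hi⟩
  · intro y hy
    have h4 : ∑ i : L, A y i * d i = 0 := congrFun (LinearMap.mem_ker.mp h2) ⟨y, hy⟩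
    refine Eq.trans ?_ h4
    rw [← Finset.sum_subset (Finset.subset_univ L) (fun i _ hi => by simp [hi]),
      ← Finset.sum_coe_sort]
    exact Finset.sum_congr rfl fun i _ => by simp [i.2]

theorem BF_heavy {I Y : Type} [Fintype Y] (A : Y → I → ℝ) {R : ℝ} (hR : 0 ≤ R)
    (h : ∀ i, ∑ y, |A y i| ≤ R) (L : Finset I) (hL : L.Nonempty) :
    #{y | R < ∑ i ∈ L, |A y i|} < L.card := by
  rcases (univ.filter fun y => R < ∑ i ∈ L, |A y i|).eq_empty_or_nonempty with h0 | h0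
  · rw [h0]
    exact hL.card_pos
  have h1 : ∑ _y ∈ univ.filter fun y => R < ∑ i ∈ L, |A y i|, R <
      ∑ y ∈ univ.filter fun y => R < ∑ i ∈ L, |A y i|, ∑ i ∈ L, |A y i| :=
    Finset.sum_lt_sum_of_nonempty h0 fun y hy => (Finset.mem_filter.mp hy).2
  have h2 : ∑ y ∈ univ.filter fun y => R < ∑ i ∈ L, |A y i|, ∑ i ∈ L, |A y i| ≤
      ∑ y, ∑ i ∈ L, |A y i| :=
    Finset.sum_le_sum_of_subset_of_nonneg (Finset.subset_univ _) fun y _ _ =>
      Finset.sum_nonneg fun i _ => abs_nonneg _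
  have h3 : ∑ y, ∑ i ∈ L, |A y i| ≤ ∑ _i ∈ L, R := by
    rw [Finset.sum_comm]
    exact Finset.sum_le_sum fun i _ => h i
  have h4 := (h1.trans_le h2).trans_le h3
  rw [Finset.sum_const, Finset.sum_const, nsmul_eq_mul, nsmul_eq_mul] at h4
  exact_mod_cast lt_of_mul_lt_mul_right h4 hR

theorem BF_ind {I Y : Type} [Fintype I] [Fintype Y] (A : Y → I → ℝ) {R : ℝ} (hR : 0 ≤ R)
    (h : ∀ i, ∑ y, |A y i| ≤ R) (n : ℕ) : ∀ x : I → ℝ, (∀ i, |x i| ≤ 1) →
    #{i | |x i| < 1} ≤ n → ∃ x' : I → ℝ, (∀ i, |x' i| = 1) ∧ (∀ i, |x i| = 1 → x' i = x i) ∧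
      ∀ y, |∑ i, A y i * (x' i - x i)| ≤ 2 * R := by
  classical
  have base : ∀ x : I → ℝ, (∀ i, |x i| ≤ 1) → (univ.filter fun i => |x i| < 1) = ∅ →
      ∃ x' : I → ℝ, (∀ i, |x' i| = 1) ∧ (∀ i, |x i| = 1 → x' i = x i) ∧
        ∀ y, |∑ i, A y i * (x' i - x i)| ≤ 2 * R := by
    intro x hx h0
    refine ⟨x, fun i => le_antisymm (hx i) (not_lt.mp fun hi => ?_), fun _ _ => rfl, fun y => ?_⟩
    · exact Finset.notMem_empty i (h0 ▸ Finset.mem_filter.mpr ⟨Finset.mem_univ i, hi⟩)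
    · simpa using hR
  induction n with
  | zero => exact fun x hx h0 => base x hx (Finset.card_eq_zero.mp (Nat.le_zero.mp h0))
  | succ n ih =>
    intro x hx hn
    rcases (univ.filter fun i => |x i| < 1).eq_empty_or_nonempty with h0 | h0
    · exact base x hx h0
    obtain ⟨d, ⟨i1, hi1⟩, hd1, hd2⟩ := BF_ker A _ _ (BF_heavy A hR h _ h0)
    have hd3 : ∀ i, |x i| = 1 → d i = 0 := fun i hi => hd1 i (by simp [hi])
    have hm : ∀ i, ∃ τ, d i ≠ 0 → 0 ≤ τ ∧ |x i + τ * d i| = 1 ∧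
        ∀ t, 0 ≤ t → t ≤ τ → |x i + t * d i| ≤ 1 := by
      intro i
      by_cases hi : d i = 0
      · exact ⟨0, fun h => absurd hi h⟩
      · obtain ⟨τ, hτ⟩ := BF_move (hx i) hi
        exact ⟨τ, fun _ => hτ⟩
    choose τ hτ using hm
    obtain ⟨i0, h1, h2⟩ := Finset.exists_min_image (univ.filter fun i => d i ≠ 0) τ
      ⟨i1, by simpa using hi1⟩
    have h3 : d i0 ≠ 0 := (Finset.mem_filter.mp h1).2
    have h4 : ∀ i, |x i + τ i0 * d i| ≤ 1 := by
      intro i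
      by_cases hi : d i = 0
      · simpa [hi] using hx i
      · exact (hτ i hi).2.2 _ (hτ i0 h3).1 (h2 i (by simpa using hi))
    have h5 : (univ.filter fun i => |x i + τ i0 * d i| < 1) ⊆
        (univ.filter fun i => |x i| < 1).erase i0 := by
      intro i hi
      have hi' := (Finset.mem_filter.mp hi).2
      refine Finset.mem_erase.mpr ⟨?_, Finset.mem_filter.mpr ⟨Finset.mem_univ i, ?_⟩⟩
      · rintro rfl
        exact hi'.ne (hτ i h3).2.1
      · refine lt_of_le_of_ne (hx i) fun he => ?_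
        rw [hd3 i he, mul_zero, add_zero] at hi'
        exact hi'.ne he
    have h6 : i0 ∈ univ.filter fun i => |x i| < 1 := by
      by_contra hc
      exact h3 (hd1 i0 hc)
    have h7 : #{i | |x i + τ i0 * d i| < 1} ≤ n := by
      have := Finset.card_le_card h5
      rw [Finset.card_erase_of_mem h6] at this
      omega
    obtain ⟨x', g1, g2, g3⟩ := ih (fun i => x i + τ i0 * d i) h4 h7
    have g4 : ∀ i, |x i| = 1 → x' i = x i := by
      intro i hi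
      have := g2 i (by simpa [hd3 i hi] using hi)
      simpa [hd3 i hi] using this
    refine ⟨x', g1, g4, fun y => ?_⟩
    by_cases hy : R < ∑ i ∈ univ.filter fun i => |x i| < 1, |A y i|
    · have g5 := hd2 y (Finset.mem_filter.mpr ⟨Finset.mem_univ y, hy⟩)
      have g6 : ∑ i, A y i * (x' i - x i) =
          ∑ i, A y i * (x' i - (x i + τ i0 * d i)) + τ i0 * ∑ i, A y i * d i := by
        rw [Finset.mul_sum, ← Finset.sum_add_distrib]
        exact Finset.sum_congr rfl fun i _ => by ring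
      rw [g6, g5, mul_zero, add_zero]
      exact g3 y
    · have g7 : ∑ i ∈ univ.filter fun i => |x i| < 1, A y i * (x' i - x i) =
          ∑ i, A y i * (x' i - x i) := by
        refine Finset.sum_subset (Finset.subset_univ _) fun i _ hi => ?_
        have : |x i| = 1 := le_antisymm (hx i) (by simpa using hi)
        rw [g4 i this, sub_self, mul_zero]
      rw [← g7]
      refine (Finset.abs_sum_le_sum_abs _ _).trans ?_
      have g8 : ∀ i ∈ univ.filter fun i => |x i| < 1, |A y i * (x' i - x i)| ≤ 2 * |A y i| := by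
        intro i _
        have g9 : |x' i - x i| ≤ 2 := by
          have := abs_sub (x' i) (x i)
          linarith [g1 i, hx i]
        rw [abs_mul, mul_comm]
        exact mul_le_mul_of_nonneg_right g9 (abs_nonneg _)
      refine (Finset.sum_le_sum g8).trans ?_
      rw [← Finset.mul_sum]
      linarith [not_lt.mp hy]

theorem beck_fiala {I Y : Type} [Fintype I] [Fintype Y] (A : Y → I → ℝ) (R : ℝ) (hR : 0 ≤ R)
    (h : ∀ i, ∑ y, |A y i| ≤ R) :
    ∃ x : I → ℝ, (∀ i, x i = 1 ∨ x i = -1) ∧ ∀ y, |∑ i, A y i * x i| ≤ 2 * R := by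
  classical
  obtain ⟨x, h1, -, h2⟩ := BF_ind A hR h _ (fun _ => 0) (fun _ => by simp) le_rfl
  refine ⟨x, fun i => (abs_eq zero_le_one).mp (h1 i), fun y => ?_⟩
  simpa using h2 y

open Classical in
theorem BF_fin {X Y : Type} (S : Finset X) (key : X → Y) (I : X → ℕ) (e : X → ℝ)
    (he : ∀ x, |e x| ≤ 1) (R : ℕ) (hR : ∀ v, #{x ∈ S | I x = v} ≤ R) :
    ∃ s : ℕ → ℝ, (∀ v, s v = 1 ∨ s v = -1) ∧
      ∀ y, |∑ x ∈ S with key x = y, e x * s (I x)| ≤ 2 * R := by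
  have hcol : ∀ v : S.image I, ∑ y : S.image key,
      |∑ x ∈ (S.filter fun x => I x = v).filter fun x => key x = y, e x| ≤ (R : ℝ) := by
    intro v
    rw [Finset.sum_coe_sort (S.image key)
      fun y => |∑ x ∈ (S.filter fun x => I x = v).filter fun x => key x = y, e x|]
    have h1 : ∀ y ∈ S.image key,
        |∑ x ∈ (S.filter fun x => I x = v).filter fun x => key x = y, e x| ≤
          ∑ _x ∈ (S.filter fun x => I x = v).filter fun x => key x = y, (1 : ℝ) := fun y _ =>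
      (Finset.abs_sum_le_sum_abs _ _).trans (Finset.sum_le_sum fun x _ => he x)
    refine (Finset.sum_le_sum h1).trans ?_
    rw [Finset.sum_fiberwise_of_maps_to
      fun x hx => Finset.mem_image_of_mem key (Finset.mem_filter.mp hx).1]
    rw [Finset.sum_const, nsmul_eq_mul, mul_one]
    exact_mod_cast hR v
  obtain ⟨s, h1, h2⟩ := beck_fiala (fun (y : S.image key) (v : S.image I) =>
    ∑ x ∈ (S.filter fun x => I x = v).filter fun x => key x = y, e x) R (Nat.cast_nonneg R) hcol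
  refine ⟨fun v => if hv : v ∈ S.image I then s ⟨v, hv⟩ else 1, fun v => ?_, fun y => ?_⟩
  · by_cases hv : v ∈ S.image I
    · simpa only [dif_pos hv] using h1 ⟨v, hv⟩
    · exact Or.inl (dif_neg hv)
  by_cases hy : y ∈ S.image key
  · refine le_of_eq_of_le (congrArg _ ?_) (h2 ⟨y, hy⟩)
    rw [← Finset.sum_fiberwise_of_maps_to (s := S.filter fun x => key x = y) (t := S.image I)
      (g := I) fun x hx => Finset.mem_image_of_mem I (Finset.mem_filter.mp hx).1,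
      ← Finset.sum_coe_sort (S.image I)]
    refine Finset.sum_congr rfl fun v _ => ?_
    rw [Finset.sum_mul, Finset.filter_comm]
    refine Finset.sum_congr rfl fun x hx => ?_
    have h3 : I x = v := (Finset.mem_filter.mp (Finset.mem_filter.mp hx).1).2
    rw [h3]
    exact congrArg (e x * ·) (dif_pos v.2)
  · rw [Finset.sum_eq_zero, abs_zero]
    · positivity
    · intro x hx
      have h3 : y ∈ S.image key := Finset.mem_image.mpr ⟨x, Finset.mem_filter.mp hx⟩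
      exact absurd h3 hy

theorem BF_mem {X : Type} {p : X → Prop} {h : DecidablePred p} {S : Finset X} {x : X} :
    x ∈ @Finset.filter X p h S ↔ x ∈ S ∧ p x := Finset.mem_filter

/-- the sign of a bit -/
noncomputable def BF_sg (a : ZMod 2) : ℝ := if a = 0 then 1 else -1

theorem BF_sg_abs (a : ZMod 2) : |BF_sg a| = 1 := by
  unfold BF_sg
  split_ifs <;> simp

theorem BF_sg_add (a b : ZMod 2) : BF_sg (a + b) = BF_sg a * BF_sg b := by
  have h : ∀ c : ZMod 2, c = 0 ∨ c = 1 := by decide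
  have h2 : (1 + 1 : ZMod 2) = 0 := by decide
  rcases h a with rfl | rfl <;> rcases h b with rfl | rfl <;> simp [BF_sg, h2]

theorem BF_sg_ind (a β : ZMod 2) :
    2 * (if a = β then (1 : ℝ) else 0) = 1 + BF_sg β * BF_sg a := by
  have h : ∀ c : ZMod 2, c = 0 ∨ c = 1 := by decide
  rcases h a with rfl | rfl <;> rcases h β with rfl | rfl <;> simp [BF_sg] <;> norm_num

open Classical in
theorem slide1 {X Y : Type} (S : Finset X) (key : X → Y) (I : X → ℕ) (o : X → ZMod 2) (R N : ℕ)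
    (hR : ∀ v, #{x ∈ S | I x = v} ≤ R) (PS : Finset ℕ) (hP : PS.card ≤ N) (val : ℕ → ZMod 2) :
    ∃ b : ℕ → ZMod 2, (∀ v ∈ PS, b v = val v) ∧ ∀ y β,
      2 * #{x ∈ S | key x = y ∧ o x + b (I x) = β} ≤ #{x ∈ S | key x = y} + 2 * ((N + 1) * R) := by
  obtain ⟨s, h1, h2⟩ := BF_fin S key I (fun x => if I x ∈ PS then 0 else BF_sg (o x))
    (fun x => by
      by_cases hx : I x ∈ PS
      · simp [hx]
      · simp [hx, BF_sg_abs]) R hR
  obtain ⟨b, hb1, hb2⟩ : ∃ b : ℕ → ZMod 2, (∀ v ∈ PS, b v = val v) ∧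
      ∀ v, v ∉ PS → BF_sg (b v) = s v := by
    refine ⟨fun v => if v ∈ PS then val v else if s v = 1 then 0 else 1, fun v hv => if_pos hv,
      fun v hv => ?_⟩
    rcases h1 v with h | h
    · simp [hv, h, BF_sg]
    · have h3 : ¬ s v = 1 := by
        rw [h]
        norm_num
      simp only [if_neg hv, if_neg h3]
      simp [h, BF_sg]
  refine ⟨b, hb1, fun y β => ?_⟩
  have h3 : (#{x ∈ S | I x ∈ PS} : ℕ) ≤ N * R := by
    rw [Finset.card_eq_sum_card_fiberwise (s := S.filter fun x => I x ∈ PS) (t := PS) (f := I)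
      fun x hx => (Finset.mem_filter.mp hx).2]
    refine (Finset.sum_le_card_nsmul _ _ R fun v _ => ?_).trans ?_
    · refine le_trans (Finset.card_le_card fun x hx => ?_) (hR v)
      exact Finset.mem_filter.mpr
        ⟨(Finset.mem_filter.mp (Finset.mem_filter.mp hx).1).1, (Finset.mem_filter.mp hx).2⟩
    · exact Nat.mul_le_mul_right R hP
  have h4 : ∀ x ∈ S.filter fun x => key x = y, 2 * (if o x + b (I x) = β then (1 : ℝ) else 0) ≤
      1 + BF_sg β * ((if I x ∈ PS then 0 else BF_sg (o x)) * s (I x)) +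
        if I x ∈ PS then 1 else 0 := by
    intro x _
    by_cases hx : I x ∈ PS
    · simp only [if_pos hx]
      split_ifs <;> norm_num
    · simp only [if_neg hx]
      rw [BF_sg_ind, BF_sg_add, hb2 _ hx, add_zero]
  have h5 := Finset.sum_le_sum h4
  rw [← Finset.mul_sum, Finset.sum_add_distrib, Finset.sum_add_distrib, ← Finset.mul_sum,
    Finset.sum_boole, Finset.sum_boole, Finset.sum_const, nsmul_eq_mul, mul_one] at h5
  have h6 : BF_sg β * ∑ x ∈ S with key x = y,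
      (if I x ∈ PS then 0 else BF_sg (o x)) * s (I x) ≤ 2 * R := by
    refine (le_abs_self _).trans ?_
    rw [abs_mul, BF_sg_abs, one_mul]
    exact h2 y
  have h7 : (#((S.filter fun x => key x = y).filter fun x => I x ∈ PS) : ℝ) ≤ N * R := by
    have : #((S.filter fun x => key x = y).filter fun x => I x ∈ PS) ≤ N * R := by
      refine le_trans (Finset.card_le_card fun x hx => ?_) h3
      exact Finset.mem_filter.mpr
        ⟨(Finset.mem_filter.mp (Finset.mem_filter.mp hx).1).1, (Finset.mem_filter.mp hx).2⟩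
    exact_mod_cast this
  have h8 : (#{x ∈ S | key x = y ∧ o x + b (I x) = β} : ℝ) ≤
      #((S.filter fun x => key x = y).filter fun x => o x + b (I x) = β) := by
    refine Nat.cast_le.mpr (Finset.card_le_card fun x hx => ?_)
    obtain ⟨g1, g2, g3⟩ := Finset.mem_filter.mp hx
    exact Finset.mem_filter.mpr ⟨Finset.mem_filter.mpr ⟨g1, g2⟩, g3⟩
  have h9 : (0 : ℝ) ≤ N * R := by positivity
  have h10 : (2 * #{x ∈ S | key x = y ∧ o x + b (I x) = β} : ℝ) ≤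
      #{x ∈ S | key x = y} + 2 * ((N + 1) * R) := by linarith
  exact_mod_cast h10

open Classical in
theorem slide {X Y C : Type} [Fintype C] (S : Finset X) (key : X → Y) (I : C → X → ℕ)
    (o : C → X → ZMod 2) (R N : ℕ) (hR : ∀ c v, #{x ∈ S | I c x = v} ≤ R) (PS : C → Finset ℕ)
    (hP : ∀ c, (PS c).card ≤ N) (val : C → ℕ → ZMod 2) :
    ∃ b : C → ℕ → ZMod 2, (∀ c, ∀ v ∈ PS c, b c v = val c v) ∧ ∀ y (ρ : C → ZMod 2),
      2 ^ Fintype.card C * #{x ∈ S | key x = y ∧ (fun c => o c x + b c (I c x)) = ρ} ≤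
        #{x ∈ S | key x = y} + 2 ^ Fintype.card C * (2 * ((N + 1) * R)) := by
  have main : ∀ T : Finset C, ∃ b : C → ℕ → ZMod 2, (∀ c, ∀ v ∈ PS c, b c v = val c v) ∧
      ∀ y (ρ : C → ZMod 2),
        2 ^ T.card * #{x ∈ S | key x = y ∧ ∀ c ∈ T, o c x + b c (I c x) = ρ c} ≤
          #{x ∈ S | key x = y} + 2 ^ T.card * (2 * ((N + 1) * R)) := by
    intro T
    induction T using Finset.induction_on with
    | empty =>
      refine ⟨val, fun _ _ _ => rfl, fun y ρ => ?_⟩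
      rw [Finset.card_empty, pow_zero, one_mul]
      refine le_trans (Finset.card_le_card fun x hx => ?_) (Nat.le_add_right _ _)
      exact Finset.mem_filter.mpr ⟨(Finset.mem_filter.mp hx).1, (Finset.mem_filter.mp hx).2.1⟩
    | insert c0 T hc ih =>
      obtain ⟨b, h1, h2⟩ := ih
      obtain ⟨b0, h3, h4⟩ := slide1 S
        (fun x => (key x, fun c => if c ∈ T then o c x + b c (I c x) else 0)) (I c0) (o c0) R N
        (hR c0) (PS c0) (hP c0) (val c0)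
      refine ⟨Function.update b c0 b0, fun c v hv => ?_, fun y ρ => ?_⟩
      · by_cases he : c = c0
        · subst he
          rw [Function.update_self]
          exact h3 v hv
        · rw [Function.update_of_ne he]
          exact h1 c v hv
      have h5 := h4 (y, fun c => if c ∈ T then ρ c else 0) (ρ c0)
      have h6 : 2 * #{x ∈ S | key x = y ∧
          ∀ c ∈ insert c0 T, o c x + Function.update b c0 b0 c (I c x) = ρ c} ≤
          #{x ∈ S | key x = y ∧ ∀ c ∈ T, o c x + b c (I c x) = ρ c} + 2 * ((N + 1) * R) := by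
        refine le_trans (Nat.mul_le_mul_left 2 (Finset.card_le_card fun x hx => ?_))
          (h5.trans (Nat.add_le_add_right (Finset.card_le_card fun x hx => ?_) _))
        · obtain ⟨g1, g2, g3⟩ := Finset.mem_filter.mp hx
          refine BF_mem.mpr ⟨g1, Prod.ext g2 (funext fun c => ?_), ?_⟩
          · by_cases he : c ∈ T
            · have g4 := g3 c (Finset.mem_insert_of_mem he)
              rw [Function.update_of_ne (ne_of_mem_of_not_mem he hc)] at g4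
              simp only [if_pos he]
              exact g4
            · simp only [if_neg he]
          · have g4 := g3 c0 (Finset.mem_insert_self _ _)
            rwa [Function.update_self] at g4
        · obtain ⟨g1, g2⟩ := BF_mem.mp hx
          refine Finset.mem_filter.mpr ⟨g1, congrArg Prod.fst g2, fun c he => ?_⟩
          have g3 := congrFun (congrArg Prod.snd g2) c
          simpa only [if_pos he] using g3
      have h7 := Nat.mul_le_mul_left (2 ^ T.card) h6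
      have h8 := h2 y ρ
      rw [Finset.card_insert_of_notMem hc, pow_succ, mul_assoc, mul_assoc]
      rw [mul_add] at h7
      refine h7.trans ((Nat.add_le_add_right h8 _).trans (le_of_eq ?_))
      ring
  obtain ⟨b, h1, h2⟩ := main Finset.univ
  refine ⟨b, h1, fun y ρ => le_trans (Nat.mul_le_mul_left _ (Finset.card_le_card fun x hx => ?_))
    (h2 y ρ)⟩
  obtain ⟨g1, g2, g3⟩ := Finset.mem_filter.mp hx
  exact Finset.mem_filter.mpr ⟨g1, g2, fun c _ => congrFun g3 c⟩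

end Pool.Agent.Work.MP_ede3c6_co.X
end

-- merged part: Pool.Agent.Work.MP_ede3c6_co.X.P1
section
/-! The unshifted labels of the spine, the slots, and the balancing of the rest coordinates. -/

set_option autoImplicit false

namespace Pool.Agent.Work.MP_ede3c6_co.X

open Finset Vol

/-- All data that do not depend on the balancing. -/
structure Cx where
  p : Pm
  η : ℝ
  I : Inn p.t p.mu p.kk p.nJ η
  k : ℕ
  a : ℕ → ℕ
  C : ℕ
  S : Seg p k a C
  A : Alc p I S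
  n : ℕ
  ok : p.Ok n
  e1 : (p.N k + 1) * ((p.s + 1) * p.ks) ≤ 2 ^ (p.G + p.d * 2)
  lam : Fin p.G → p.Lab
  dir : p.Lab → Fin p.G
  hU : ∀ δ, (∀ b, zz δ (Sum.inr b) = 0) → lam (dir δ) = δ
  hJ : ∀ δ, zo δ = 0 → (uo δ, zz δ) ∈ I.JJ → lam (dir δ) = δ
  hD : ∀ δ ∈ A.Dl, lam (dir δ) = δ
  enc : Fin p.G → V (Fin p.s)
  dec : V (Fin p.s) → Fin p.G
  hdec : ∀ c, dec (enc c) = c
  gd : ∀ c, Gad p (lam c)

theorem div_step (j D r : ℕ) (h : r < D) :
    (j + 1 + D - 1 - r) / D = (j + D - 1 - r) / D + if j % D = r then 1 else 0 := by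
  have e1 : j + 1 + D - 1 - r = (j + D - 1 - r) + 1 := by omega
  rw [e1, Nat.succ_div]
  congr 1
  refine if_congr ?_ rfl rfl
  have e2 : j + D - 1 - r + 1 = j + (D - r) := by omega
  rw [e2, Nat.dvd_iff_mod_eq_zero, Nat.add_mod]
  have h1 := Nat.mod_lt j (show 0 < D by omega)
  rcases Nat.eq_zero_or_pos r with rfl | h2
  · simp
  · rw [Nat.mod_eq_of_lt (show D - r < D by omega)]
    generalize j % D = x at *
    by_cases q : x + (D - r) < D
    · rw [Nat.mod_eq_of_lt q]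
      omega
    · rw [Nat.mod_eq_sub_mod (by omega), Nat.mod_eq_of_lt (by omega)]
      omega

/-- residues of the local switches -/
def rl (i : ℕ) (σ : Fin 2) : ℕ := 2 ^ i - 1 + σ * 2 ^ (i + 1)

theorem rl_lt (i : ℕ) (σ : Fin 2) : rl i σ < 2 ^ (i + 2) := by
  have := Nat.two_pow_pos i
  unfold rl
  rw [pow_succ, pow_succ]
  fin_cases σ <;> simp <;> omega

theorem rl_inj {j i i' : ℕ} {σ σ' : Fin 2} (h : j % 2 ^ (i + 2) = rl i σ)
    (h' : j % 2 ^ (i' + 2) = rl i' σ') : i = i' ∧ σ = σ' := by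
  have key : ∀ {i i' : ℕ} {σ σ' : Fin 2}, j % 2 ^ (i + 2) = rl i σ → j % 2 ^ (i' + 2) = rl i' σ' →
      ¬ i < i' := fun {i i' σ σ'} h h' hi => by
    have p := Nat.two_pow_pos i
    have k1 : j % 2 ^ (i + 1) = 2 ^ i - 1 := by
      rw [← Nat.mod_mod_of_dvd j (pow_dvd_pow 2 (show i + 1 ≤ i + 2 by omega)), h, rl,
        Nat.add_mul_mod_self_right, Nat.mod_eq_of_lt (by rw [pow_succ]; omega)]
    have k2 : 2 ^ (i + 1) ∣ j + 1 := by
      have d1 : 2 ^ (i + 1) ∣ 2 ^ i' := pow_dvd_pow 2 hi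
      have p' := Nat.two_pow_pos i'
      rw [← Nat.div_add_mod j (2 ^ (i' + 2)), h', rl, show 2 ^ (i' + 2) * (j / 2 ^ (i' + 2)) +
        (2 ^ i' - 1 + σ' * 2 ^ (i' + 1)) + 1 = 2 ^ (i' + 2) * (j / 2 ^ (i' + 2)) +
        (2 ^ i' + σ' * 2 ^ (i' + 1)) by omega]
      exact dvd_add (Dvd.dvd.mul_right (d1.trans (pow_dvd_pow 2 (by omega))) _)
        (dvd_add d1 (Dvd.dvd.mul_left (d1.trans (pow_dvd_pow 2 (by omega))) _))
    rw [← Nat.div_add_mod j (2 ^ (i + 1)), k1, add_assoc, Nat.sub_add_cancel p,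
      Nat.dvd_add_right (Dvd.intro _ rfl)] at k2
    have := Nat.le_of_dvd p k2
    rw [pow_succ] at this
    omega
  obtain rfl : i = i' := le_antisymm (not_lt.1 (key h' h)) (not_lt.1 (key h h'))
  have k := h.symm.trans h'
  unfold rl at k
  exact ⟨rfl, Fin.ext (Nat.eq_of_mul_eq_mul_right (Nat.two_pow_pos _) (Nat.add_left_cancel k))⟩

namespace Cx
variable (x : Cx)

theorem G0 : 0 < x.p.G := lt_of_lt_of_le (by positivity) x.ok.hG

theorem s0 : 0 < x.p.s := Nat.pos_of_ne_zero fun h => by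
  have := x.ok.hP
  rw [h, zero_mul] at this
  omega

/-- long junctions -/
def lg (j : ℕ) : Prop := j % (x.p.P + 1) = x.p.P

instance (j : ℕ) : Decidable (x.lg j) := inferInstanceAs (Decidable (_ = _))

/-- number of junctions -/
abbrev J : ℕ := x.p.J x.k

/-- length of a block -/
abbrev bl (j : ℕ) : ℕ := x.S.bl j

/-- length of a segment -/
def sl (j : ℕ) : ℕ := x.bl j + 2 * x.p.Mj j

theorem sl_lg {j : ℕ} (h : x.lg j) : x.sl j = x.bl j + 2 * (x.p.M0 + x.p.Mg) := by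
  rw [sl, Pm.Mj, if_pos (show j % (x.p.P + 1) = x.p.P from h)]

theorem sl_sh {j : ℕ} (h : ¬ x.lg j) : x.sl j = x.bl j + 2 * x.p.M0 := by
  rw [sl, Pm.Mj, if_neg (show ¬ j % (x.p.P + 1) = x.p.P from h)]

theorem sl_ge (j : ℕ) : x.bl j + 2 * x.p.M0 ≤ x.sl j := by
  by_cases h : x.lg j
  · rw [x.sl_lg h]
    omega
  · rw [x.sl_sh h]

/-- the direction treated in the gadget of junction `j` -/
def cg (j : ℕ) : Fin x.p.G := ⟨j / (x.p.P + 1) % x.p.G, Nat.mod_lt _ x.G0⟩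

/-- inner part at the start of a junction -/
def zs (j : ℕ) : V (Zt x.p.mu x.p.kk) := zz (x.A.lm j (x.bl j - 1))

/-- inner part at the end of a junction -/
def zt (j : ℕ) : V (Zt x.p.mu x.p.kk) := zz (x.A.lm (j + 1) 0)

/-- shift of the last standard vertex of a junction -/
def ez : V (Zt x.p.mu x.p.kk) := Sum.elim (e x.I.i0) 0

/-- inner part at the last standard vertex of a junction -/
def zm (j : ℕ) : V (Zt x.p.mu x.p.kk) :=
  Sum.elim (fun i => x.zs j (Sum.inl i)) (fun b => x.zt j (Sum.inr b)) + x.ez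

/-- middle part in a junction -/
def ud (τ : ℕ) : V (Fin x.p.t) := if τ < aS x.p.t x.p.mu then fun _ => 1 else 0

/-- unshifted labels -/
def l0 (j o : ℕ) : x.p.Lab :=
  if o < x.bl j then x.A.lm j o else
  if o < x.bl j + 2 * x.p.M0 then
    X.mk (x.A.rz (x.A.cj j ((o - x.bl j) / 2) 0) 0)
      (x.ud (x.I.rd (x.S.mx j)) + if o + 1 < x.bl j + 2 * x.p.M0 then 0 else fun _ => 1)
      (if o + 1 < x.bl j + 2 * x.p.M0 then x.zs j else x.zm j) else
  if o < x.sl j then X.mk ((x.gd (x.cg j)).bz ((o - x.bl j) / 2 - x.p.M0)) 0 (x.zt j)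
  else x.A.lm (j + 1) 0

/-- special steps -/
def sp (j o : ℕ) : Prop :=
  x.bl j ≤ o ∧ (o - x.bl j) % 2 = 0 ∧ o + 2 ≠ x.bl j + 2 * x.p.M0

instance (j o : ℕ) : Decidable (x.sp j o) := inferInstanceAs (Decidable (_ ∧ _))

/-- the forced move -/
def dm (j o : ℕ) : V (Fin x.p.G) := if x.sp j o then 0 else e (x.dir (x.l0 j o + x.l0 j (o + 1)))

/-- sum of the forced moves before a segment -/
def Fs : ℕ → V (Fin x.p.G)
  | 0 => 0
  | j + 1 => Fs j + ∑ o ∈ range (x.sl j), x.dm j o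

/-- sum of the forced moves before a vertex -/
def Fg (j o : ℕ) : V (Fin x.p.G) := x.Fs j + ∑ q ∈ range o, x.dm j q

/-- number of the interval between two switches -/
def iv (pm D r j o : ℕ) : ℕ := (j + (if x.bl j + 2 * pm < o then 1 else 0) + D - 1 - r) / D

theorem iv_step (pm D r j o : ℕ) (h : r < D) (hh : ¬ (o = x.bl j + 2 * pm ∧ j % D = r)) :
    x.iv pm D r j (o + 1) = x.iv pm D r j o := by
  unfold iv
  by_cases q : o = x.bl j + 2 * pm
  · rw [if_pos (by omega), if_neg (by omega), div_step _ _ _ h, if_neg fun k => hh ⟨q, k⟩]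
    rfl
  · rw [if_congr (show x.bl j + 2 * pm < o + 1 ↔ x.bl j + 2 * pm < o by omega) rfl rfl]

/-- offset of a slot -/
def so (j u : ℕ) : ℕ :=
  if u = 0 then 0 else if u ≤ 2 * x.p.M0 + 1 then x.bl j + (u - 1) else x.sl j - 1

/-- the slots -/
def XS : Finset (ℕ × ℕ) := {y ∈ range x.J ×ˢ range x.p.ks | y.2 ≤ 2 * x.p.M0 ∨ x.lg y.1}

theorem mem_X {j u : ℕ} : (j, u) ∈ x.XS ↔ j < x.J ∧ u < x.p.ks ∧ (u ≤ 2 * x.p.M0 ∨ x.lg j) := by
  simp [XS, and_assoc]

/-- keys -/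
abbrev Ky : Type := ℕ × Option x.A.Tk × Option (x.A.Cl × V (Zt x.p.mu x.p.kk))

/-- key of a slot -/
def key (y : ℕ × ℕ) : x.Ky :=
  (y.2, if y.2 = 0 then some (x.A.tk y.1) else none, if 1 ≤ y.2 ∧ y.2 ≤ 2 * x.p.M0 then
    some (x.A.cj y.1 ((y.2 - 1) / 2) ((y.2 - 1) % 2),
      if y.2 < 2 * x.p.M0 then x.zs y.1 else x.zm y.1) else none)

theorem N_le : x.p.N x.k ≤ x.p.Q := by
  refine le_trans ?_ (x.e1.trans (Nat.pow_le_pow_right (by omega) (Nat.le_add_left _ _)))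
  refine le_trans (Nat.le_succ _) (Nat.le_mul_of_pos_right _ ?_)
  unfold Pm.ks
  positivity

theorem lg_card : #{j ∈ range x.J | x.lg j} ≤ x.p.N x.k := by
  rw [← card_range (x.p.N x.k)]
  refine card_le_card_of_injOn (fun j => j / (x.p.P + 1)) (fun j hj => ?_) fun i hi j hj h => ?_
  · exact mem_range.2 (Nat.div_lt_of_lt_mul (by
      rw [mul_comm]; exact mem_range.1 (mem_filter.1 hj).1))
  · have h1 : i % (x.p.P + 1) = x.p.P := (mem_filter.1 hi).2
    have h2 : j % (x.p.P + 1) = x.p.P := (mem_filter.1 hj).2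
    rw [← Nat.div_add_mod i (x.p.P + 1), ← Nat.div_add_mod j (x.p.P + 1), h1, h2]
    exact congrArg (fun z => (x.p.P + 1) * z + x.p.P) h

open Classical in
theorem load0 (y : x.Ky) :
    #{z ∈ x.XS | x.key z = y} ≤ (if y.1 = 0 then x.p.L0 else 2 ^ x.p.mu) * x.p.Q := by
  have H : ∀ T : Finset ℕ, (∀ j, (j, y.1) ∈ x.XS → x.key (j, y.1) = y → j ∈ T) →
      #{z ∈ x.XS | x.key z = y} ≤ T.card := fun T hT => by
    have k : ∀ z ∈ ({z ∈ x.XS | x.key z = y} : Finset _), z.2 = y.1 := fun z hz =>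
      congrArg Prod.fst (mem_filter.1 hz).2
    refine card_le_card_of_injOn Prod.fst (fun z hz => ?_) fun z hz w hw h =>
      Prod.ext h ((k z hz).trans (k w hw).symm)
    have := k z hz
    obtain ⟨j, u⟩ := z
    simp only at this
    subst this
    exact hT j (mem_filter.1 hz).1 (mem_filter.1 hz).2
  obtain ⟨u, tk, cz⟩ := y
  simp only at H ⊢
  by_cases h0 : u = 0
  · rw [if_pos h0]
    rcases tk with _ | tk
    · exact (H ∅ fun j _ h => by simp [key, h0] at h).trans (by simp)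
    · refine (H _ fun j h1 h => ?_).trans (x.A.tk2 tk)
      simp only [key, h0, if_true, Prod.mk.injEq, Option.some.injEq] at h
      exact mem_filter.2 ⟨mem_range.2 (Nat.lt_succ_of_lt (x.mem_X.1 h1).1), h.2.1⟩
  rw [if_neg h0]
  have hQ : x.p.Q ≤ 2 ^ x.p.mu * x.p.Q := Nat.le_mul_of_pos_left _ (Nat.two_pow_pos _)
  by_cases h1 : u ≤ 2 * x.p.M0
  · have h2 : 1 ≤ u ∧ u ≤ 2 * x.p.M0 := ⟨by omega, h1⟩
    rcases cz with _ | ⟨c, z⟩
    · exact (H ∅ fun j _ h => by simp [key, h2] at h).trans (by simp)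
    by_cases h3 : u < 2 * x.p.M0
    · refine (H _ fun j h1 h => ?_).trans ((x.A.cj4 ((u - 1) / 2) ((u - 1) % 2) c z).trans hQ)
      simp only [key, if_pos h2, if_pos h3, Prod.mk.injEq, Option.some.injEq] at h
      exact mem_filter.2 ⟨mem_range.2 (x.mem_X.1 h1).1, h.2.2⟩
    · refine (H (univ.biUnion fun w : V (Fin x.p.mu) => _) fun j h1 h => ?_).trans
        (card_biUnion_le.trans ((sum_le_sum fun w _ => x.A.cj5 ((u - 1) / 2) ((u - 1) % 2) c
          (Sum.elim w fun b => z (Sum.inr b))).trans (by simp)))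
      simp only [key, if_pos h2, if_neg h3, Prod.mk.injEq, Option.some.injEq] at h
      refine mem_biUnion.2 ⟨fun i => x.zt j (Sum.inl i), mem_univ _,
        mem_filter.2 ⟨mem_range.2 (x.mem_X.1 h1).1, h.2.2.1, funext fun b => ?_⟩⟩
      rcases b with b | b
      · rfl
      · rw [← h.2.2.2]
        exact (add_zero _).symm
  · refine (H _ fun j h2 _ => ?_).trans ((x.lg_card.trans x.N_le).trans hQ)
    exact mem_filter.2 ⟨mem_range.2 (x.mem_X.1 h2).1, (x.mem_X.1 h2).2.2.resolve_left h1⟩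

theorem fibre (pm D r : ℕ) (h : r < D) (v : ℕ) :
    #{z ∈ x.XS | x.iv pm D r z.1 (x.so z.1 z.2) = v} ≤ (D + 1) * x.p.ks := by
  refine le_trans (card_le_card (t := Ico (v * D + r + 1 - D - 1) (v * D + r + 1) ×ˢ range x.p.ks)
    fun z hz => ?_) ?_
  · obtain ⟨h1, h2⟩ := mem_filter.1 hz
    refine mem_product.2 ⟨mem_Ico.2 ?_, mem_range.2 (x.mem_X.1 h1).2.1⟩
    unfold iv at h2
    rw [Nat.div_eq_iff (by omega)] at h2
    split_ifs at h2 <;> omega
  · rw [card_product, card_range, Nat.card_Ico]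
    exact Nat.mul_le_mul_right _ (by omega)

/-- selector bits -/
def sv (b : Fin x.p.s → ℕ → ZMod 2) (j o : ℕ) : V (Fin x.p.s) :=
  fun c => b c (x.iv (2 * x.p.hh) x.p.s c j o)

/-- global bits -/
def gv (b : Fin x.p.G → ℕ → ZMod 2) (j o : ℕ) : V (Fin x.p.G) :=
  fun c => x.Fg j o c +
    b c (x.iv (x.p.M0 + 1) (x.p.G * (x.p.P + 1)) (c * (x.p.P + 1) + x.p.P) j o)

/-- local bits -/
def v1 (b : ℕ → Fin 2 → ℕ → ZMod 2) (j o : ℕ) : V (Fin x.p.d × Fin 2) :=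
  fun c => b c.1 c.2 (x.iv (2 * x.p.hh + 1) (2 ^ ((c.1 : ℕ) + 2)) (rl c.1 c.2) j o)

theorem res_lt (c : Fin x.p.G) : c * (x.p.P + 1) + x.p.P < x.p.G * (x.p.P + 1) := by
  have := Nat.mul_le_mul_right (x.p.P + 1) (Nat.succ_le_of_lt c.2)
  rw [Nat.succ_mul] at this
  omega

/-- cell of a slot -/
def cell (bS : Fin x.p.s → ℕ → ZMod 2) (bG : Fin x.p.G → ℕ → ZMod 2)
    (b1 : ℕ → Fin 2 → ℕ → ZMod 2) (z : ℕ × ℕ) :
    ((x.Ky × V (Fin x.p.s)) × V (Fin x.p.G)) × V (Fin x.p.d × Fin 2) :=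
  (((x.key z, x.sv bS z.1 (x.so z.1 z.2)), x.gv bG z.1 (x.so z.1 z.2)), x.v1 b1 z.1 (x.so z.1 z.2))

end Cx

theorem cf {α : Type} {S : Finset α} {P Q : α → Prop} {_ : DecidablePred P} {_ : DecidablePred Q}
    (h : ∀ a, P a ↔ Q a) : #(S.filter P) = #(S.filter Q) :=
  congrArg card (filter_congr fun a _ => h a)

theorem cl {α : Type} {S : Finset α} {P Q : α → Prop} {_ : DecidablePred P} {_ : DecidablePred Q}
    (h : ∀ a, P a → Q a) : #(S.filter P) ≤ #(S.filter Q) :=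
  card_le_card fun a ha => mem_filter.2 ⟨(mem_filter.1 ha).1, h a (mem_filter.1 ha).2⟩

open Classical in
theorem slide' {X Y : Type} {d : ℕ} (S : Finset X) (key : X → Y) (I : Fin d → X → ℕ)
    (o : Fin d → X → ZMod 2) (R N : ℕ) (hR : ∀ c v, #{x ∈ S | I c x = v} ≤ R)
    (PS : Finset ℕ) (hP : PS.card ≤ N) (val : Fin d → ℕ → ZMod 2) (L : Y → ℕ) (T : ℕ)
    (hL : ∀ y, #{x ∈ S | key x = y} ≤ L y * (2 ^ d * T)) :
    ∃ b : Fin d → ℕ → ZMod 2, (∀ c, ∀ v ∈ PS, b c v = val c v) ∧ ∀ y : Y × V (Fin d),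
      #{x ∈ S | (key x, fun c => o c x + b c (I c x)) = y} ≤ L y.1 * T + 2 * ((N + 1) * R) := by
  obtain ⟨b, h1, h2⟩ := slide S key I o R N hR (fun _ => PS) (fun _ => hP) val
  refine ⟨b, h1, fun y => Nat.le_of_mul_le_mul_left ?_ (Nat.two_pow_pos d)⟩
  have := h2 y.1 y.2
  rw [Fintype.card_fin] at this
  rw [filter_congr fun x _ => Prod.ext_iff]
  refine (le_of_eq (by congr)).trans (this.trans ?_)
  rw [mul_add (2 ^ d), mul_left_comm (2 ^ d) (L _)]
  exact Nat.add_le_add_right (hL _) _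

open Classical in
theorem slideR {X : Type} (S : Finset X) (I : ℕ → Fin 2 → X → ℕ) (A : ℕ)
    (hR : ∀ i σ v, #{x ∈ S | I i σ x = v} ≤ 5 * 2 ^ i * A) (d : ℕ) :
    ∀ (Y : Type) (key : X → Y) (L : Y → ℕ),
      (∀ y, #{x ∈ S | key x = y} ≤ L y * 2 ^ (d * 2) + 20 * A * 2 ^ d) →
      ∃ b : ℕ → Fin 2 → ℕ → ZMod 2, ∀ y : Y × V (Fin d × Fin 2),
        #{x ∈ S | (key x, fun c : Fin d × Fin 2 => b c.1 c.2 (I c.1 c.2 x)) = y} ≤
          L y.1 + 20 * A := by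
  induction d with
  | zero =>
    intro Y key L h
    refine ⟨fun _ _ _ => 0, fun y => le_trans (card_le_card fun z hz => ?_) (by simpa using h y.1)⟩
    exact mem_filter.2 ⟨(mem_filter.1 hz).1, congrArg Prod.fst (mem_filter.1 hz).2⟩
  | succ d ih =>
    intro Y key L h
    obtain ⟨b0, -, h0⟩ := slide S key (I d) (fun _ _ => 0) _ 0 (hR d) (fun _ => ∅) (by simp)
      fun _ _ => 0
    obtain ⟨b, hb⟩ := ih (Y × V (Fin 2)) (fun z => (key z, fun σ => b0 σ (I d σ z)))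
      (fun y => L y.1) fun y => by
        have k1 := h0 y.1 y.2
        have k2 := h y.1
        simp only [zero_add, Fintype.card_fin] at k1
        rw [add_mul, pow_add, pow_succ 2 d] at k2
        refine Nat.le_of_mul_le_mul_left ((congrArg (2 ^ 2 * ·)
          (cf fun _ => Prod.ext_iff)).trans_le (k1.trans
            ((Nat.add_le_add_right k2 _).trans (le_of_eq ?_)))) (Nat.two_pow_pos 2)
        ring
    refine ⟨fun i => if i = d then b0 else b i, fun y => le_trans (cl fun z hz => ?_)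
      (hb ((y.1, fun σ => y.2 (Fin.last d, σ)), fun c => y.2 (c.1.castSucc, c.2)))⟩
    subst hz
    refine Prod.ext (Prod.ext rfl (funext fun σ => by simp)) (funext fun c => ?_)
    simp [c.1.2.ne]

open Classical in
theorem Cx.bal (x : Cx) : ∃ bS bG b1,
    (∀ j < x.J, x.lg j → ∀ c : Fin x.p.s,
      bS c ((j + 1 + x.p.s - 1 - c) / x.p.s) = x.enc (x.cg j) c) ∧
    ∀ y, #{z ∈ x.XS | x.cell bS bG b1 z = y} ≤
      (if y.1.1.1.1 = 0 then x.p.L0 else 2 ^ x.p.mu) + x.p.er := by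
  obtain ⟨bS, s1, s2⟩ := slide' x.XS x.key
    (fun (c : Fin x.p.s) z => x.iv (2 * x.p.hh) x.p.s c z.1 (x.so z.1 z.2)) (fun _ _ => 0) _
    (x.p.N x.k) (fun c v => x.fibre _ _ _ c.2 v)
    ((range (x.p.N x.k)).image fun ch => (ch + 1) * x.p.P')
    (card_image_le.trans (card_range _).le)
    (fun c v => x.enc ⟨(v / x.p.P' - 1) % x.p.G, Nat.mod_lt _ x.G0⟩ c)
    (fun y => if y.1 = 0 then x.p.L0 else 2 ^ x.p.mu) (2 ^ (x.p.G + x.p.d * 2))
    (fun y => by rw [← pow_add]; exact x.load0 y)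
  obtain ⟨bG, -, g2⟩ := slide' x.XS (fun z => (x.key z, x.sv bS z.1 (x.so z.1 z.2)))
    (fun (c : Fin x.p.G) z => x.iv (x.p.M0 + 1) (x.p.G * (x.p.P + 1)) (c * (x.p.P + 1) + x.p.P)
      z.1 (x.so z.1 z.2)) (fun c z => x.Fg z.1 (x.so z.1 z.2) c) _ 0
    (fun c v => x.fibre _ _ _ (x.res_lt c) v) ∅ (by simp) (fun _ _ => 0)
    (fun y => (if y.1.1 = 0 then x.p.L0 else 2 ^ x.p.mu) + 2) (2 ^ (x.p.d * 2))
    (fun y => by
      have := s2 y
      simp only [zero_add] at this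
      rw [← pow_add, add_mul]
      exact (cf fun _ => Iff.rfl).trans_le
        (this.trans (Nat.add_le_add_left (Nat.mul_le_mul_left _ x.e1) _)))
  obtain ⟨b1, c2⟩ := slideR x.XS
    (fun i σ z => x.iv (2 * x.p.hh + 1) (2 ^ (i + 2)) (rl i σ) z.1 (x.so z.1 z.2)) x.p.ks
    (fun i σ v => (x.fibre _ _ _ (rl_lt i σ) v).trans (Nat.mul_le_mul_right _ (by
      have := Nat.two_pow_pos i
      rw [pow_add]
      omega))) x.p.d _
    (fun z => ((x.key z, x.sv bS z.1 (x.so z.1 z.2)), x.gv bG z.1 (x.so z.1 z.2)))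
    (fun y => (if y.1.1.1 = 0 then x.p.L0 else 2 ^ x.p.mu) + 2 + 2)
    (fun y => by
      have := g2 y
      simp only [zero_add, one_mul] at this
      rw [add_mul]
      exact (cf fun _ => Iff.rfl).trans_le ((this.trans (Nat.add_le_add_left
        (Nat.mul_le_mul_left _ x.ok.e2) _)).trans (Nat.le_add_right _ _)))
  refine ⟨bS, bG, b1, fun j hj hl c => ?_, fun y => ?_⟩
  · have h1 : j % (x.p.P + 1) = x.p.P := hl
    have h2 := Nat.div_add_mod j (x.p.P + 1)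
    have hP := x.ok.hP
    have P0 : 0 < x.p.P' := Nat.pos_of_ne_zero fun h => by
      rw [h, mul_zero] at hP
      omega
    have h3 : (j + 1 + x.p.s - 1 - c) / x.p.s = (j / (x.p.P + 1) + 1) * x.p.P' := by
      have := c.2
      have h4 : (j / (x.p.P + 1) + 1) * x.p.P' * x.p.s = j + 1 := by
        rw [mul_assoc, mul_comm x.p.P', ← hP, add_mul, mul_comm (j / _)]
        omega
      rw [Nat.div_eq_iff x.s0, h4]
      omega
    rw [h3, s1 c _ (mem_image.2 ⟨j / (x.p.P + 1), mem_range.2 (Nat.div_lt_of_lt_mul (by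
      rw [mul_comm]; exact hj)), rfl⟩)]
    simp only [Nat.mul_div_cancel _ P0, Nat.add_sub_cancel]
    rfl
  · refine (cf fun _ => Iff.rfl).trans_le (le_trans (c2 y) (le_of_eq ?_))
    rw [Pm.er]
    omega

end Pool.Agent.Work.MP_ede3c6_co.X
end

-- merged part: Pool.Agent.Work.MP_ede3c6_co.X.KP
section
/-! Asymptotically perfect one-error codes for every large length.

PLAN. Say `Col ι w` if there is a map `κ` from `V ι` to a type with at most `w` elements with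
`κ (x + e i) = κ (x + e j) → i = j`.
(1) Base: let `F` be a finite field with `q` elements (`GaloisField 3 α`), `2 ^ s ≤ q`, `g` an
injection `V (Fin s) → F`. Coordinates `(v, p)`, `v : Fin r → F`, `p : V (Fin s)`, `p ≠ 0`;
`σ v x = ∑ p, x (v, p) • p`; colour `(∑ v, g (σ v x), ∑ v, g (σ v x) • v)` in `F × (Fin r → F)`.
Flipping `(v, p)` adds `d • (1, v)` with `d = g (σ v x + p) - g (σ v x) ≠ 0`, which determines
`d`, `v`, `p`. Length `q ^ r (2 ^ s - 1)`, `q ^ (r + 1)` colours.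
(2) Doubling: `κ' x = (κ (x ∘ inl + x ∘ inr), par (x ∘ inr))` on `ι ⊕ ι`, twice as many colours.
(3) Restriction along an injection `ι' → ι` (extend by zero) and pull back to `Fin mu` (use only
the first `ι` coordinates).
(4) For `δ > 0` there are `α, s` with `2 ^ s < 3 ^ α ≤ (1 + δ) 2 ^ s` (pigeonhole on the numbers
`3 ^ α / 2 ^ (log 2 (3 ^ α))` in `[1, 2)`; if the quotient `γ` of two close ones is below 1, take
the last power with `γ ^ M > 1 / 2`, then `1 < 2 γ ^ M ≤ 1 / γ`; or use density of the group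
generated by `log 2`, `log 3`). Then `1 / 2 ^ s ≤ δ`. With `θ = q / 2 ^ s`, `1 < θ ≤ 1 + δ`, fix
`r0` with `θ ^ r0 ≥ 2`; for `m ≥ q ^ r0 2 ^ s` there are `r ≤ r0`, `j` with
`m ≤ q ^ r (2 ^ s - 1) 2 ^ j ≤ (1 + δ) m` (take `J` with `(2 ^ s - 1) 2 ^ J < m ≤ (2 ^ s - 1)
2 ^ (J + 1)`, the least `r` with `m ≤ θ ^ r (2 ^ s - 1) 2 ^ J`, `j = J - s r`).
(5) The largest colour class (pigeonhole) is the code. -/

set_option autoImplicit false

namespace Pool.Agent.Work.MP_ede3c6_co.X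

open Finset Vol

/-- colourings which separate the neighbours of every vertex -/
def KP_Col (n w : ℕ) : Prop :=
  ∃ (ι K : Type) (_ : Fintype ι) (_ : DecidableEq ι) (_ : Fintype K) (κ : V ι → K),
    Fintype.card ι = n ∧ Fintype.card K = w ∧
      ∀ (x : V ι) (i j : ι), κ (x + e i) = κ (x + e j) → i = j

theorem KP_base (F : Type) [Field F] [Fintype F] (s r : ℕ) (h : 2 ^ s ≤ Fintype.card F) :
    KP_Col (Fintype.card F ^ r * (2 ^ s - 1)) (Fintype.card F ^ (r + 1)) := by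
  classical
  obtain ⟨g⟩ : Nonempty (V (Fin s) ↪ F) :=
    Function.Embedding.nonempty_of_card_le (by simpa using h)
  let σ : (Fin r → F) → V ((Fin r → F) × {p : V (Fin s) // p ≠ 0}) → V (Fin s) :=
    fun v x => ∑ p, x (v, p) • p.1
  have hσ : ∀ v x u p, σ v (x + e (u, p)) = σ v x + if v = u then p.1 else 0 := by
    intro v x u p
    simp only [σ, Pi.add_apply, add_smul, sum_add_distrib, e_apply, Prod.mk.injEq]
    congr 1
    split_ifs with k
    · simp [k]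
    · simp [k]
  let κ : V ((Fin r → F) × {p : V (Fin s) // p ≠ 0}) → F × (Fin r → F) :=
    fun x => ∑ v, (g (σ v x), g (σ v x) • v)
  have hκ : ∀ x u p, κ (x + e (u, p)) =
      κ x + (g (σ u x + p.1) - g (σ u x), (g (σ u x + p.1) - g (σ u x)) • u) := by
    intro x u p
    simp only [κ, hσ]
    rw [← add_sum_erase _ _ (mem_univ u), ← add_sum_erase _ _ (mem_univ u),
      sum_congr rfl fun v hv => by rw [if_neg (ne_of_mem_erase hv), add_zero], if_pos rfl]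
    ext <;> simp <;> ring
  refine ⟨_, _, inferInstance, inferInstance, inferInstance, κ, ?_, ?_, ?_⟩
  · simp [Fintype.card_subtype_compl]
  · simp [pow_succ, mul_comm]
  · rintro x ⟨u, p⟩ ⟨u', p'⟩ k
    rw [hκ, hκ, add_right_inj, Prod.mk.injEq] at k
    obtain ⟨k1, k2⟩ := k
    have d : g (σ u x + p.1) - g (σ u x) ≠ 0 := fun q =>
      p.2 (add_eq_left.1 (g.injective (sub_eq_zero.1 q)))
    rw [← k1] at k2
    obtain rfl : u = u' := smul_right_injective _ d k2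
    rw [Subtype.ext (add_left_cancel (g.injective (sub_left_injective k1)))]

theorem KP_dbl {n w : ℕ} (h : KP_Col n w) : KP_Col (n * 2) (w * 2) := by
  obtain ⟨ι, K, _, _, _, κ, h1, h2, h3⟩ := h
  let κ' : V (ι ⊕ ι) → K × ZMod 2 :=
    fun x => (κ (x ∘ Sum.inl + x ∘ Sum.inr), par (x ∘ Sum.inr))
  have a : ∀ x c, κ' (x + e (Sum.inl c)) =
      (κ (x ∘ Sum.inl + x ∘ Sum.inr + e c), par (x ∘ Sum.inr)) := by
    intro x c
    have a1 : (x + e (Sum.inl c) : V (ι ⊕ ι)) ∘ Sum.inl = x ∘ Sum.inl + e c := by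
      funext i; simp [e_apply]
    have a2 : (x + e (Sum.inl c) : V (ι ⊕ ι)) ∘ Sum.inr = x ∘ Sum.inr := by
      funext i; simp [e_apply]
    simp only [κ', a1, a2, add_right_comm]
  have b : ∀ x c, κ' (x + e (Sum.inr c)) =
      (κ (x ∘ Sum.inl + x ∘ Sum.inr + e c), par (x ∘ Sum.inr) + 1) := by
    intro x c
    have a1 : (x + e (Sum.inr c) : V (ι ⊕ ι)) ∘ Sum.inl = x ∘ Sum.inl := by
      funext i; simp [e_apply]
    have a2 : (x + e (Sum.inr c) : V (ι ⊕ ι)) ∘ Sum.inr = x ∘ Sum.inr + e c := by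
      funext i; simp [e_apply]
    simp only [κ', a1, a2, add_assoc, par_add, par_e]
  refine ⟨_, _, inferInstance, inferInstance, inferInstance, κ', ?_, ?_, ?_⟩
  · simp [h1, mul_two]
  · simp [h2]
  · rintro x (i | i) (j | j) k <;> simp only [a, b, Prod.mk.injEq] at k
    · rw [h3 _ _ _ k.1]
    · simp at k
    · simp at k
    · rw [h3 _ _ _ k.1]

theorem KP_pow {n w : ℕ} (h : KP_Col n w) (j : ℕ) : KP_Col (n * 2 ^ j) (w * 2 ^ j) := by
  induction j with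
  | zero => simpa using h
  | succ j ih => simpa only [pow_succ, mul_assoc] using KP_dbl ih

theorem KP_code {n w m mu : ℕ} (h : KP_Col n w) (hm : m ≤ n) :
    ∃ C : Finset (V (Fin mu)), (2 : ℝ) ^ mu ≤ w * C.card ∧
      ∀ x ∈ C, ∀ x' ∈ C, ∀ i j : Fin mu, (i : ℕ) < m → (j : ℕ) < m → x + e i = x' + e j →
        i = j := by
  classical
  obtain ⟨ι, K, _, _, _, κ, h1, h2, h3⟩ := h
  obtain ⟨f⟩ : Nonempty (Fin m ↪ ι) :=
    Function.Embedding.nonempty_of_card_le (by simpa [h1] using hm)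
  let u : Fin mu → V ι := fun i => if k : (i : ℕ) < m then e (f ⟨i, k⟩) else 0
  let φ : V (Fin mu) → V ι := fun x => ∑ i, x i • u i
  have hφ : ∀ x (i : Fin mu) (k : (i : ℕ) < m), φ (x + e i) = φ x + e (f ⟨i, k⟩) := by
    intro x i k
    simp only [φ, Pi.add_apply, add_smul, sum_add_distrib, e_apply]
    congr 1
    simp only [ite_smul, one_smul, zero_smul, sum_ite_eq', mem_univ, if_true]
    exact dif_pos k
  have : Nonempty K := ⟨κ 0⟩
  have w0 : (0 : ℝ) < w := by exact_mod_cast h2 ▸ Fintype.card_pos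
  obtain ⟨y, hy⟩ := Fintype.exists_le_card_fiber_of_nsmul_le_card (fun x => κ (φ x))
    (b := (2 : ℝ) ^ mu / w) (by
      rw [h2, nsmul_eq_mul, mul_div_cancel₀ _ w0.ne']
      simp)
  refine ⟨_, by rwa [div_le_iff₀' w0] at hy, fun x hx x' hx' i j hi hj k => ?_⟩
  have e1 : x = x + e i + e i := by rw [add_assoc, vv, add_zero]
  have e2 : x' = x + e i + e j := by rw [k, add_assoc, vv, add_zero]
  have q := (mem_filter.1 hx).2.trans (mem_filter.1 hx').2.symm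
  rw [e2, hφ _ j hj] at q
  nth_rewrite 1 [e1] at q
  rw [hφ _ i hi] at q
  exact Fin.ext (Fin.mk.inj (f.injective (h3 _ _ _ q)))

theorem KP_irr : Irrational (Real.log 3 / Real.log 2) := by
  have l2 : 0 < Real.log 2 := Real.log_pos (by norm_num)
  have l3 : 0 < Real.log 3 := Real.log_pos (by norm_num)
  rintro ⟨r, hr⟩
  have r0 : (0 : ℝ) < r := hr ▸ div_pos l3 l2
  have n0 : 0 < r.num := Rat.num_pos.2 (by exact_mod_cast r0)
  obtain ⟨a, ha⟩ := Int.eq_ofNat_of_zero_le n0.le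
  have d0 : (0 : ℝ) < r.den := by exact_mod_cast r.den_pos
  rw [Rat.cast_def, ha, div_eq_div_iff d0.ne' l2.ne', Int.cast_natCast, mul_comm (Real.log 3),
    ← Real.log_pow, ← Real.log_pow] at hr
  have k := Real.log_injOn_pos (by simp) (by simp) hr
  have k' : 2 ^ a = 3 ^ r.den := by exact_mod_cast k
  have o : Odd (2 ^ a) := k' ▸ Odd.pow (by decide)
  have a0 : a ≠ 0 := by omega
  exact Nat.not_odd_iff_even.2 ((Nat.even_pow.2 ⟨by decide, a0⟩)) o

theorem KP_near {δ : ℝ} (h0 : 0 < δ) (h1 : δ ≤ 1) :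
    ∃ α s : ℕ, 2 ^ s < 3 ^ α ∧ (3 : ℝ) ^ α ≤ (1 + δ) * 2 ^ s := by
  have l2 : 0 < Real.log 2 := Real.log_pos (by norm_num)
  have l3 : 0 < Real.log 3 := Real.log_pos (by norm_num)
  have : Fact (0 < Real.log 2) := ⟨l2⟩
  have d := AddCircle.denseRange_zsmul_coe_iff.2 KP_irr
  have d' : DenseRange (· • ((Real.log 3 : ℝ) : AddCircle (Real.log 2)) : ℕ → _) :=
    denseRange_zsmul_iff_nsmul.1 (by simpa using d)
  have ld : 0 < Real.log (1 + δ) := Real.log_pos (by linarith)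
  have ld' : Real.log (1 + δ) ≤ Real.log 2 := Real.log_le_log (by linarith) (by linarith)
  obtain ⟨α, y, hy, k⟩ := d'.exists_mem_open
    (QuotientAddGroup.isOpenMap_coe _ (isOpen_Ioo (a := 0) (b := Real.log (1 + δ))))
    (Set.Nonempty.image _ (Set.nonempty_Ioo.2 ld))
  have k' : ((y : ℝ) : AddCircle (Real.log 2)) = ((α • Real.log 3 : ℝ) : AddCircle _) := by
    simpa using k
  obtain ⟨z, hz⟩ := AddSubgroup.mem_zmultiples_iff.1 (QuotientAddGroup.eq.1 k')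
  rw [zsmul_eq_mul, nsmul_eq_mul] at hz
  have z0 : -1 < z := by
    have : (-1 : ℝ) * Real.log 2 < z * Real.log 2 := by
      have := mul_nonneg (Nat.cast_nonneg (α := ℝ) α) l3.le
      linarith [hy.2]
    exact_mod_cast lt_of_mul_lt_mul_right this l2.le
  obtain ⟨s, rfl⟩ := Int.eq_ofNat_of_zero_le (show 0 ≤ z by omega)
  rw [Int.cast_natCast, ← Real.log_pow, ← Real.log_pow] at hz
  refine ⟨α, s, ?_, ?_⟩
  · have : (2 : ℝ) ^ s < 3 ^ α :=
      (Real.log_lt_log_iff (by positivity) (by positivity)).1 (by linarith [hy.1])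
    exact_mod_cast this
  · refine (Real.log_le_log_iff (by positivity) (by positivity)).1 ?_
    rw [Real.log_mul (by positivity) (by positivity)]
    linarith [hy.2]

theorem KP_len {q s D : ℕ} (h : 2 ^ s < q) (hD : 0 < D) : ∃ m0 : ℕ, ∀ m, m0 ≤ m →
    ∃ r j, m ≤ q ^ r * D * 2 ^ j ∧ q ^ r * D * 2 ^ j * 2 ^ s ≤ q * m := by
  classical
  have T0 : (0 : ℝ) < 2 ^ s := by positivity
  obtain ⟨r0, h0⟩ := pow_unbounded_of_one_lt (2 : ℝ)
    (show (1 : ℝ) < q / 2 ^ s from (one_lt_div T0).2 (by exact_mod_cast h))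
  rw [div_pow, lt_div_iff₀ (by positivity)] at h0
  have h0' : 2 * (2 ^ s) ^ r0 < q ^ r0 := by exact_mod_cast h0
  refine ⟨D * 2 ^ (s * r0) + 1, fun m hm => ?_⟩
  have ex : ∃ J, m ≤ D * 2 ^ J :=
    ⟨m, (Nat.lt_two_pow_self).le.trans (Nat.le_mul_of_pos_left _ hD)⟩
  have J1 := Nat.find_spec ex
  have J0 : s * r0 < Nat.find ex := by
    by_contra k
    have := Nat.mul_le_mul_left D (Nat.pow_le_pow_right (show 0 < 2 by decide) (not_lt.1 k))
    omega
  obtain ⟨J, hJ⟩ : ∃ J, Nat.find ex = J + 1 := ⟨Nat.find ex - 1, by omega⟩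
  have J2 : D * 2 ^ J < m := not_le.1 (Nat.find_min ex (by omega))
  rw [hJ] at J1 J0
  have r1 : m * (2 ^ s) ^ r0 ≤ q ^ r0 * D * 2 ^ J := by
    calc m * (2 ^ s) ^ r0 ≤ D * 2 ^ (J + 1) * (2 ^ s) ^ r0 := Nat.mul_le_mul_right _ J1
      _ = 2 * (2 ^ s) ^ r0 * (D * 2 ^ J) := by ring
      _ ≤ q ^ r0 * (D * 2 ^ J) := Nat.mul_le_mul_right _ h0'.le
      _ = _ := by ring
  have ex' : ∃ r, m * (2 ^ s) ^ r ≤ q ^ r * D * 2 ^ J := ⟨r0, r1⟩
  have r2 := Nat.find_spec ex'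
  have r3 : Nat.find ex' ≤ r0 := Nat.find_min' ex' r1
  have r4 : Nat.find ex' ≠ 0 := fun k => by
    rw [k] at r2
    simp at r2
    omega
  obtain ⟨r, hr⟩ : ∃ r, Nat.find ex' = r + 1 := ⟨Nat.find ex' - 1, by omega⟩
  have r5 : q ^ r * D * 2 ^ J < m * (2 ^ s) ^ r := not_le.1 (Nat.find_min ex' (by omega))
  rw [hr] at r2 r3
  obtain ⟨j, rfl⟩ : ∃ j, J = j + s * (r + 1) :=
    ⟨J - s * (r + 1), by have := Nat.mul_le_mul_left s r3; omega⟩
  rw [pow_add 2 j, pow_mul, ← mul_assoc] at r2 r5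
  refine ⟨r + 1, j, Nat.le_of_mul_le_mul_right r2 (by positivity), ?_⟩
  have r6 : q ^ r * D * 2 ^ j * 2 ^ s ≤ m := by
    refine Nat.le_of_mul_le_mul_right (le_of_eq_of_le ?_ r5.le) (show 0 < (2 ^ s) ^ r by positivity)
    ring
  calc _ = q * (q ^ r * D * 2 ^ j * 2 ^ s) := by ring
    _ ≤ _ := Nat.mul_le_mul_left _ r6

theorem kp (η : ℝ) (hη : 0 < η) : ∃ m0 : ℕ, ∀ ι mu : ℕ, m0 ≤ ι → ι ≤ mu →
    ∃ C : Finset (V (Fin mu)), (2 : ℝ) ^ mu ≤ (1 + η) * ι * C.card ∧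
      ∀ x ∈ C, ∀ x' ∈ C, ∀ i j : Fin mu, (i : ℕ) < ι → (j : ℕ) < ι → x + e i = x' + e j →
        i = j := by
  obtain ⟨δ, d0, d1, d2⟩ : ∃ δ : ℝ, 0 < δ ∧ δ ≤ 1 / 5 ∧ 4 * δ ≤ η :=
    ⟨min (1 / 5) (η / 4), by positivity, min_le_left _ _, by linarith [min_le_right (1 / 5) (η / 4)]⟩
  obtain ⟨α, s, h1, h2⟩ := KP_near d0 (by linarith)
  have T0 : (0 : ℝ) < 2 ^ s := by positivity
  have h1' : (2 : ℝ) ^ s + 1 ≤ 3 ^ α := by exact_mod_cast h1
  have h3 : 1 ≤ δ * 2 ^ s := by linarith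
  have s1 : 1 < 2 ^ s := by
    have : (1 : ℝ) < 2 ^ s := by linarith only [h3, mul_le_mul_of_nonneg_right d1 T0.le]
    exact_mod_cast this
  have a0 : α ≠ 0 := by
    rintro rfl
    omega
  obtain ⟨m0, hm⟩ := KP_len (D := 2 ^ s - 1) h1 (by omega)
  refine ⟨m0, fun m mu m1 _ => ?_⟩
  obtain ⟨r, j, k1, k2⟩ := hm m m1
  have : Fact (Nat.Prime 3) := ⟨by decide⟩
  let : Fintype (GaloisField 3 α) := Fintype.ofFinite _
  have c : Fintype.card (GaloisField 3 α) = 3 ^ α := by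
    rw [← Nat.card_eq_fintype_card, GaloisField.card 3 α a0]
  have b := KP_pow (KP_base (GaloisField 3 α) s r (c ▸ h1.le)) j
  rw [c] at b
  obtain ⟨C, c1, c2⟩ := KP_code (mu := mu) b k1
  refine ⟨C, c1.trans (mul_le_mul_of_nonneg_right ?_ (Nat.cast_nonneg _)), c2⟩
  have k3 : (((3 : ℝ) ^ α) ^ r * (2 ^ s - 1) * 2 ^ j * 2 ^ s) ≤ 3 ^ α * m := by
    have : (((3 ^ α) ^ r * (2 ^ s - 1) * 2 ^ j * 2 ^ s : ℕ) : ℝ) ≤ ((3 ^ α * m : ℕ) : ℝ) := by
      exact_mod_cast k2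
    simpa [Nat.cast_sub s1.le] using this
  push_cast
  rw [pow_succ]
  generalize ((3 : ℝ) ^ α) = q at *
  generalize ((2 : ℝ) ^ s) = T at *
  have q0 : 0 < q := by linarith
  have m0 : (0 : ℝ) ≤ m := Nat.cast_nonneg _
  have u0 : 0 ≤ q ^ r * q * 2 ^ j := by positivity
  have e1 : q ^ r * q * 2 ^ j * ((T - 1) * T) ≤ q * q * m := by
    calc _ = q * (q ^ r * (T - 1) * 2 ^ j * T) := by ring
      _ ≤ q * (q * m) := mul_le_mul_of_nonneg_left k3 q0.le
      _ = _ := by ring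
  have e2 : (1 - δ) * (T * T) ≤ (T - 1) * T := by
    linarith only [mul_le_mul_of_nonneg_right h3 T0.le]
  have e3 : q * q ≤ (1 + η) * ((1 - δ) * (T * T)) := by
    calc q * q ≤ ((1 + δ) * T) * ((1 + δ) * T) := mul_self_le_mul_self q0.le h2
      _ = ((1 + δ) * (1 + δ)) * (T * T) := by ring
      _ ≤ ((1 + η) * (1 - δ)) * (T * T) :=
        mul_le_mul_of_nonneg_right (by
          linarith only [mul_le_mul_of_nonneg_left d1 d0.le, mul_le_mul_of_nonneg_right d2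
            (show 0 ≤ 1 - δ by linarith only [d1])]) (by positivity)
      _ = _ := by ring
  have p0 : 0 < (1 - δ) * (T * T) := mul_pos (by linarith) (by positivity)
  refine le_of_mul_le_mul_right ?_ p0
  calc _ ≤ q ^ r * q * 2 ^ j * ((T - 1) * T) := mul_le_mul_of_nonneg_left e2 u0
    _ ≤ q * q * m := e1
    _ ≤ (1 + η) * ((1 - δ) * (T * T)) * m := mul_le_mul_of_nonneg_right e3 m0
    _ = _ := by ring

end Pool.Agent.Work.MP_ede3c6_co.X
end

-- merged part: Pool.Agent.Work.MP_ede3c6_co.X.InnEx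
section
/-! Existence of the inner structure.

PLAN (changes with respect to `W/InnEx.lean`; adapt the proof there).
`q = 2 ^ t - 1`, `μ' = mu - 1`. The available directions `JJ` are the pairs
`(υ, Sum.elim (e i) α)` with `υ ≠ 0` from a set `JT` of triples `(υ, i, α)` of exactly `nJ`
elements that contains all triples with `i < μ'` (`Finset.exists_subsuperset_card_eq`);
`i0 = 0`. A type `τ ≥ aS` must have `τ + 1` directions. With `b = a + 1`: `rd a = a` if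
`a < aS = q mu`; if `b ≤ q μ' 2 ^ kk`, `l` = least level with `b ≤ q μ' 2 ^ l`,
`ι = ⌈b / (q 2 ^ l)⌉ ≤ μ'`, `μ' ≤ 2 ι`, `rd a = q ι 2 ^ l - 1`, leaves enumerate
`(univ.erase 0) ×ˢ {i < ι} ×ˢ Iv 0 l`; otherwise (top type) `rd a = nJ - 1`, level `kk`,
`ι = mu`, leaves enumerate `JT`; here `q mu 2 ^ kk ≤ (mu / μ') a`. So for `τ ≥ aS` in `TS` one has
a set `Lf τ` of `τ + 1` triples inside `JT` with `i < io τ` and `α` supported below `lev τ`, and
`q (io τ) 2 ^ lev τ ≤ (1 + ε) a` whenever `τ = rd a`. `top0` holds since `kk ≥ 1`, `mu ≥ 3`. -/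

set_option autoImplicit false

namespace Pool.Agent.Work.MP_ede3c6_co.X

open Finset Vol

theorem InnEx_en (α : Type) [Nonempty α] : ∃ en : Finset α → ℕ → α, ∀ s : Finset α,
    (∀ i < s.card, en s i ∈ s) ∧ ∀ i < s.card, ∀ j < s.card, en s i = en s j → i = j :=
  ⟨fun s i => if h : i < s.card then s.equivFin.symm ⟨i, h⟩ else Classical.arbitrary α, fun s =>
    ⟨fun i h => by simp only [dif_pos h]; exact coe_mem _, fun i h j h' e => by
      simpa [dif_pos h, dif_pos h'] using e⟩⟩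

/-- vectors supported on the bits in `[i, j)` -/
def InnEx_Iv (kk i j : ℕ) : Finset (V (Fin kk)) :=
  Fintype.piFinset fun b => if i ≤ (b : ℕ) ∧ (b : ℕ) < j then univ else {0}

theorem InnEx_mem {kk i j : ℕ} {x : V (Fin kk)} (h : x ∈ InnEx_Iv kk i j) (b : Fin kk)
    (hb : (b : ℕ) < i ∨ j ≤ b) : x b = 0 := by
  have := Fintype.mem_piFinset.1 h b
  rwa [if_neg (by omega), mem_singleton] at this

theorem InnEx_card {kk i j : ℕ} (h : j ≤ kk) : (InnEx_Iv kk i j).card = 2 ^ (j - i) := by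
  rw [InnEx_Iv, Fintype.card_piFinset]
  simp only [apply_ite card, card_univ, ZMod.card, card_singleton]
  rw [Fin.prod_univ_eq_prod_range (fun b => if i ≤ b ∧ b < j then 2 else 1), prod_ite,
    prod_const_one, mul_one, prod_const, ← Nat.card_Ico]
  refine congrArg (fun s : Finset ℕ => 2 ^ s.card) ?_
  ext b
  simp only [mem_filter, mem_range, mem_Ico]
  omega

theorem InnEx_fin {ε η q M a τ ι c x y z : ℝ} (e0 : 0 ≤ ε) (e1 : ε ≤ 1) (e2 : 3 * ε ≤ η)
    (hq : 0 ≤ q) (ha : 0 ≤ a) (hc : 0 ≤ c) (hx : 0 ≤ x) (hy : 0 ≤ y) (hz : 0 ≤ z)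
    (k1 : M ≤ (1 + ε) * ι * c) (k2 : τ = q * ι * x) (k3 : τ ≤ (1 + ε) * a) :
    q * (M * (x * (y * z))) ≤ (1 + η) * a * (c * y * z) :=
  calc _ ≤ q * ((1 + ε) * ι * c * (x * (y * z))) := by gcongr
    _ = (1 + ε) * τ * (c * y * z) := by rw [k2]; ring
    _ ≤ (1 + ε) * ((1 + ε) * a) * (c * y * z) := by gcongr
    _ ≤ _ := by
      rw [← mul_assoc (1 + ε)]
      gcongr ?_ * _ * _
      nlinarith

theorem InnEx_num (q n kk nJ : ℕ) (hq : 1 ≤ q) (hn : 1 ≤ n) (j1 : q * n * 2 ^ kk ≤ nJ)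
    (j2 : nJ ≤ q * (n + 1) * 2 ^ kk) :
    ∃ (TS : Finset ℕ) (rd lev io : ℕ → ℕ), TS.card ≤ q * (n + 1) + (n + 1) * (kk + 1) ∧
      (∀ a, a ≤ nJ - 1 → rd a ∈ TS ∧ a ≤ rd a ∧ (a < q * (n + 1) → rd a = a) ∧
        (q * (n + 1) ≤ a → n * (rd a + 1) ≤ (n + 2) * a)) ∧
      ∀ τ ∈ TS, lev τ ≤ kk ∧ (τ < q * (n + 1) → lev τ = 0) ∧
        (q * (n + 1) ≤ τ → n ≤ 2 * io τ ∧ (τ + 1 = q * io τ * 2 ^ lev τ ∧ io τ ≤ n ∨
          τ + 1 = nJ ∧ io τ = n + 1 ∧ lev τ = kk)) := by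
  let TS := range (q * (n + 1)) ∪ insert (nJ - 1)
    ((((Icc 1 n).filter fun ι => n ≤ 2 * ι) ×ˢ range (kk + 1)).image fun p => q * p.1 * 2 ^ p.2 - 1)
  have j0 : 0 < q * n * 2 ^ kk := by positivity
  have h1 : ∀ a, a ≤ nJ - 1 → ∃ τ, τ ∈ TS ∧ a ≤ τ ∧ (a < q * (n + 1) → τ = a) ∧
      (q * (n + 1) ≤ a → n * (τ + 1) ≤ (n + 2) * a) := fun a ha => by
    rcases lt_or_ge a (q * (n + 1)) with h | h
    · exact ⟨a, mem_union_left _ (mem_range.2 h), le_rfl, fun _ => rfl, fun c => by omega⟩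
    rcases lt_or_ge (q * n * 2 ^ kk) (a + 1) with hb | hb
    · refine ⟨nJ - 1, mem_union_right _ (mem_insert_self _ _), ha, fun c => by omega, fun _ => ?_⟩
      rw [Nat.sub_add_cancel (by omega)]
      calc n * nJ ≤ n * (q * (n + 1) * 2 ^ kk) := Nat.mul_le_mul_left _ j2
        _ = (n + 1) * (q * n * 2 ^ kk) := by ring
        _ ≤ (n + 2) * a := Nat.mul_le_mul (by omega) (by omega)
    have ex : ∃ l, a + 1 ≤ q * n * 2 ^ l := ⟨kk, hb⟩
    have l1 := Nat.find_spec ex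
    have l2 := Nat.find_min' ex hb
    have l3 : q * n * 2 ^ Nat.find ex ≤ 2 * a := by
      rcases e : Nat.find ex with _ | l
      · rw [mul_add] at h
        omega
      · have := Nat.find_min ex (show l < _ by omega)
        rw [pow_succ, ← mul_assoc]
        omega
    generalize Nat.find ex = l at l1 l2 l3
    have w0 : 0 < q * 2 ^ l := by positivity
    have i1 := Nat.div_mul_le_self (a + q * 2 ^ l) (q * 2 ^ l)
    have i2 := Nat.lt_div_mul_add (a := a + q * 2 ^ l) w0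
    generalize (a + q * 2 ^ l) / (q * 2 ^ l) = ι at i1 i2
    have e : q * ι * 2 ^ l = ι * (q * 2 ^ l) := by ring
    rw [show q * n * 2 ^ l = n * (q * 2 ^ l) by ring] at l1 l3
    have i3 : ι < n + 1 := lt_of_mul_lt_mul_right (by rw [add_mul]; omega) w0.le
    have i4 : n ≤ 2 * ι := le_of_mul_le_mul_right (by rw [mul_assoc]; omega) w0
    refine ⟨q * ι * 2 ^ l - 1, mem_union_right _ (mem_insert_of_mem (mem_image.2 ⟨(ι, l),
      mem_product.2 ⟨mem_filter.2 ⟨mem_Icc.2 (by omega), i4⟩, mem_range.2 (by omega)⟩, rfl⟩)),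
      by omega, fun c => by omega, fun _ => ?_⟩
    have := Nat.mul_le_mul_left n (show q * ι * 2 ^ l - 1 + 1 ≤ a + q * 2 ^ l by omega)
    rw [mul_add n a] at this
    rw [add_mul]
    omega
  have h2 : ∀ τ ∈ TS, ∃ l ι, l ≤ kk ∧ (τ < q * (n + 1) → l = 0) ∧
      (q * (n + 1) ≤ τ → n ≤ 2 * ι ∧ (τ + 1 = q * ι * 2 ^ l ∧ ι ≤ n ∨
        τ + 1 = nJ ∧ ι = n + 1 ∧ l = kk)) := fun τ h => by
    rcases lt_or_ge τ (q * (n + 1)) with c | c
    · exact ⟨0, 0, by omega, fun _ => rfl, fun _ => by omega⟩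
    rcases mem_insert.1 ((mem_union.1 h).resolve_left (by simpa using c)) with rfl | h
    · exact ⟨kk, n + 1, le_rfl, fun _ => by omega, fun _ => by omega⟩
    obtain ⟨p, hp, rfl⟩ := mem_image.1 h
    simp only [mem_product, mem_filter, mem_Icc, mem_range] at hp
    have : 0 < q * p.1 * 2 ^ p.2 := mul_pos (mul_pos hq hp.1.1.1) (Nat.two_pow_pos _)
    exact ⟨p.2, p.1, by omega, fun _ => by omega, fun _ => ⟨hp.1.2, Or.inl (by omega)⟩⟩
  choose! rd h1 using h1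
  choose! lev io h2 using h2
  refine ⟨TS, rd, lev, io, (card_union_le _ _).trans (add_le_add (card_range _).le
    ((card_insert_le _ _).trans ?_)), h1, h2⟩
  rw [add_mul, one_mul]
  refine add_le_add (card_image_le.trans ?_) (by omega)
  rw [card_product, card_range]
  exact Nat.mul_le_mul_right _ ((card_filter_le _ _).trans (by simp))

theorem inn_ex (η : ℝ) (hη : 0 < η) : ∃ m0 : ℕ, ∀ t mu kk nJ : ℕ, 1 ≤ t → m0 ≤ mu → 1 ≤ kk →
    (2 ^ t - 1) * (mu - 1) * 2 ^ kk ≤ nJ → nJ ≤ (2 ^ t - 1) * mu * 2 ^ kk →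
    Nonempty (Inn t mu kk nJ η) := by
  obtain ⟨ε, e0, e1, e2⟩ : ∃ ε : ℝ, 0 < ε ∧ ε ≤ 1 ∧ 3 * ε ≤ η :=
    ⟨min 1 (η / 3), by positivity, min_le_left _ _, by linarith [min_le_right 1 (η / 3)]⟩
  obtain ⟨m0, hk⟩ := kp ε e0
  refine ⟨2 * m0 + ⌈5 / ε⌉₊ + 3, fun t mu kk nJ ht hm hkk J1 J2 => ?_⟩
  obtain ⟨n, hn⟩ : ∃ n, mu = n + 1 := ⟨mu - 1, by omega⟩
  rw [show mu - 1 = n by omega] at J1
  choose! Cd c1 c2 using fun ι => hk ι mu
  have hq : 1 ≤ 2 ^ t - 1 := by have := Nat.pow_le_pow_right two_pos ht; omega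
  obtain ⟨TS, rd, lev, io, n1, n2, n3⟩ :=
    InnEx_num (2 ^ t - 1) n kk nJ hq (by omega) J1 (hn ▸ J2)
  rw [← hn] at n1 n2 n3
  have : Nonempty (Fin mu) := ⟨⟨0, by omega⟩⟩
  obtain ⟨f1, g1⟩ := InnEx_en (V (Fin t) × Fin mu × V (Fin kk))
  obtain ⟨f2, g2⟩ := InnEx_en (V (Fin t) × V (Fin mu) × V (Fin kk))
  obtain ⟨f3, g3⟩ := InnEx_en (V (Fin kk))
  have cq : (univ.erase (0 : V (Fin t))).card = 2 ^ t - 1 := by simp
  have big : ∀ τ ∈ TS, aS t mu ≤ τ → m0 ≤ io τ ∧ io τ ≤ mu := fun τ h h' => by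
    have := (n3 τ h).2.2 h'
    omega
  obtain ⟨JT, t1, t2, t3⟩ := exists_subsuperset_card_eq (n := nJ)
    (s := (univ.erase (0 : V (Fin t))) ×ˢ (univ.filter fun i : Fin mu => i < n) ×ˢ
      (univ : Finset (V (Fin kk)))) (t := (univ.erase 0) ×ˢ univ ×ˢ univ)
    (product_subset_product_right (product_subset_product_left (filter_subset _ _)))
    (by rw [card_product, card_product, cq, Fin.card_filter_val_lt, min_eq_right (by omega),
          ← mul_assoc]; simpa using J1)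
    (by rw [card_product, card_product, cq, ← mul_assoc]; simpa using J2)
  obtain ⟨Lf, cL, mL⟩ : ∃ Lf : ℕ → Finset (V (Fin t) × Fin mu × V (Fin kk)),
      (∀ τ ∈ TS, aS t mu ≤ τ → (Lf τ).card = τ + 1) ∧ ∀ τ ∈ TS, aS t mu ≤ τ → ∀ x ∈ Lf τ,
        (x.1 ≠ 0 ∧ x ∈ JT) ∧ (x.2.1 : ℕ) < io τ ∧ ∀ b : Fin kk, lev τ ≤ b → x.2.2 b = 0 := by
    refine ⟨fun τ => if io τ ≤ n then (univ.erase (0 : V (Fin t))) ×ˢ
      (univ.filter fun i : Fin mu => i < io τ) ×ˢ InnEx_Iv kk 0 (lev τ) else JT,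
      fun τ h h' => ?_, fun τ h h' x hx => ?_⟩
    · rcases ((n3 τ h).2.2 h').2 with ⟨b1, b2⟩ | ⟨b1, b2, -⟩
      · simp only [if_pos b2]
        rw [card_product, card_product, cq, Fin.card_filter_val_lt, min_eq_right (by omega),
          InnEx_card (n3 τ h).1, Nat.sub_zero, ← mul_assoc, ← b1]
      · simp only [if_neg (show ¬io τ ≤ n by omega)]
        rw [t3, b1]
    · rcases ((n3 τ h).2.2 h').2 with ⟨b1, b2⟩ | ⟨b1, b2, b3⟩
      · simp only [if_pos b2, mem_product, mem_erase, mem_filter] at hx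
        exact ⟨⟨hx.1.1, t1 (mem_product.2 ⟨mem_erase.2 hx.1, mem_product.2
          ⟨mem_filter.2 ⟨mem_univ _, hx.2.1.2.trans_le b2⟩, mem_univ _⟩⟩)⟩, hx.2.1.2,
          fun b hb => InnEx_mem hx.2.2 b (Or.inr hb)⟩
      · simp only [if_neg (show ¬io τ ≤ n by omega)] at hx
        exact ⟨⟨(mem_erase.1 (mem_product.1 (t2 hx)).1).1, hx⟩, b2 ▸ x.2.1.2,
          fun b hb => absurd b.2 (by omega)⟩
  have lf : ∀ τ ∈ TS, aS t mu ≤ τ → ∀ l ≤ τ, l < (Lf τ).card := fun τ h c l hl => by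
    rw [cL τ h c]
    omega
  have top : aS t mu ≤ nJ - 1 := by
    have a1 := Nat.mul_le_mul_left ((2 ^ t - 1) * n) (Nat.pow_le_pow_right two_pos hkk)
    have a2 := Nat.mul_le_mul_left (2 ^ t - 1) (show 2 ≤ n by omega)
    rw [aS, hn, mul_add]
    omega
  have one : (fun _ => 1 : V (Fin t)) ≠ 0 := fun c => one_ne_zero (congrFun c ⟨0, ht⟩)
  obtain ⟨Bs, b1, b2, b3⟩ : ∃ Bs : ℕ → ℕ → Finset (V (Fin t) × V (Fin mu) × V (Fin kk)),
      (∀ τ j, j ≤ kk → τ < aS t mu → (Bs τ j).card = (2 ^ t - 1) * (2 ^ mu * 2 ^ j)) ∧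
      (∀ τ j, j ≤ kk → aS t mu ≤ τ → (Bs τ j).card = (Cd (io τ)).card * 2 ^ (j - lev τ)) ∧
      ∀ τ j, ∀ x ∈ Bs τ j, (τ < aS t mu → x.1 ≠ 0) ∧ (aS t mu ≤ τ → x.1 = 0 ∧ x.2.1 ∈ Cd (io τ) ∧
        ∀ b : Fin kk, b < lev τ → x.2.2 b = 0) ∧ ∀ b : Fin kk, j ≤ b → x.2.2 b = 0 := by
    refine ⟨fun τ j => if τ < aS t mu then (univ.erase 0) ×ˢ univ ×ˢ InnEx_Iv kk 0 j
      else {0} ×ˢ Cd (io τ) ×ˢ InnEx_Iv kk (lev τ) j, fun τ j h c => ?_, fun τ j h c => ?_,
      fun τ j x h => ?_⟩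
    · simp [c, InnEx_card h]
    · simp [c.not_gt, InnEx_card h]
    · by_cases c : τ < aS t mu <;>
        simp only [c, if_true, if_false, mem_product, mem_erase, mem_singleton] at h
      · exact ⟨fun _ => h.1.1, fun c' => absurd c c'.not_gt,
          fun b hb => InnEx_mem h.2.2 b (Or.inr hb)⟩
      · exact ⟨fun c' => absurd c' c, fun _ => ⟨h.1, h.2.1, fun b hb => InnEx_mem h.2.2 b (Or.inl hb)⟩,
          fun b hb => InnEx_mem h.2.2 b (Or.inr hb)⟩
  have hv : ∀ j, ∀ β < 2 ^ (kk - j), ∀ b : Fin kk, b < j → f3 (InnEx_Iv kk j kk) β b = 0 :=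
    fun j β h b hb => InnEx_mem ((g3 _).1 β (h.trans_eq (InnEx_card le_rfl).symm)) b (Or.inl hb)
  have ef : ∀ τ < aS t mu, ∀ j ≤ kk, bin t mu kk = (Bs τ j).card * 2 ^ (kk - j) := fun τ h j hj => by
    rw [b1 τ j hj h, mul_assoc, mul_assoc, ← pow_add, Nat.add_sub_cancel' hj, ← pow_add, bin]
  refine ⟨⟨TS, rd, fun τ => {z | (fun i => z (.inl i)) ∈ Cd (io τ) ∧
      ∀ b : Fin kk, b < lev τ → z (.inr b) = 0},
    JT.image fun p => (p.1, Sum.elim (e p.2.1) p.2.2), ⟨0, by omega⟩, fun τ l => (f1 (Lf τ) l).1,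
    fun τ l => Sum.elim (e (f1 (Lf τ) l).2.1) (f1 (Lf τ) l).2.2, lev, fun τ j => (Bs τ j).card,
    fun τ j f => (f2 (Bs τ j) f).1, fun τ j f => Sum.elim (f2 (Bs τ j) f).2.1 (f2 (Bs τ j) f).2.2,
    fun j β => Sum.elim 0 (f3 (InnEx_Iv kk j kk) β), n1, top, fun a h => (n2 a h).1,
    fun a h => (n2 a h).2.1, card_image_le.trans t3.le, fun α => mem_image.2
      ⟨(fun _ => 1, ⟨0, by omega⟩, α), t1 (mem_product.2 ⟨mem_erase.2 ⟨one, mem_univ _⟩,
        mem_product.2 ⟨mem_filter.2 ⟨mem_univ _, show 0 < n by omega⟩, mem_univ _⟩⟩), rfl⟩,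
    fun τ z hz z' hz' => ⟨hz.1, hz'.2⟩, fun τ h c l hl =>
      ⟨(mL τ h c _ ((g1 _).1 l (lf τ h c l hl))).1.1,
        mem_image.2 ⟨_, (mL τ h c _ ((g1 _).1 l (lf τ h c l hl))).1.2, rfl⟩⟩,
    fun τ h c l hl l' hl' z hz z' hz' u1 u2 => ?_, fun τ h => (n3 τ h).1,
    fun τ h j j1 j2 f hf => ?_, fun τ h j j1 j2 f hf f' hf' β hβ β' hβ' u1 u2 => ?_,
    fun τ h j j1 j2 => ?_, fun τ h => ?_, fun τ h c j _ j2 => (ef τ c j j2).le,
    fun a h j j1 j2 => ?_⟩⟩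
  · replace hl := lf τ h c l hl
    replace hl' := lf τ h c l' hl'
    obtain ⟨-, x2, x3⟩ := mL τ h c _ ((g1 _).1 l hl)
    obtain ⟨-, y2, y3⟩ := mL τ h c _ ((g1 _).1 l' hl')
    refine (g1 _).2 l hl l' hl' (Prod.ext u1 (Prod.ext (c2 _ (big τ h c).1 (big τ h c).2 _ hz.1 _
      hz'.1 _ _ x2 y2 (funext fun i => congrFun u2 (.inl i))) (funext fun b => ?_)))
    rcases lt_or_ge (b : ℕ) (lev τ) with k | k
    · simpa [hz.2 b k, hz'.2 b k] using congrFun u2 (.inr b)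
    · rw [x3 b k, y3 b k]
  · obtain ⟨x1, x2, -⟩ := b3 τ j _ ((g2 _).1 f hf)
    refine ⟨x1, fun c => ⟨(x2 c).1, fun β hβ => ⟨by simpa using (x2 c).2.1, fun b hb => ?_⟩⟩⟩
    simp [(x2 c).2.2 b hb, hv j β hβ b (hb.trans_le j1)]
  · have x := (b3 τ j _ ((g2 _).1 f hf)).2.2
    have y := (b3 τ j _ ((g2 _).1 f' hf')).2.2
    have k : (f2 (Bs τ j) f).2.2 = (f2 (Bs τ j) f').2.2 := funext fun b => by
      rcases lt_or_ge (b : ℕ) j with k | k
      · simpa [hv j β hβ b k, hv j β' hβ' b k] using congrFun u2 (.inr b)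
      · rw [x b k, y b k]
    refine ⟨(g2 _).2 f hf f' hf' (Prod.ext u1 (Prod.ext (funext fun i => ?_) k)),
      (g3 _).2 β (hβ.trans_eq (InnEx_card le_rfl).symm) β' (hβ'.trans_eq (InnEx_card le_rfl).symm)
        (funext fun b => ?_)⟩
    · simpa using congrFun u2 (.inl i)
    · simpa [k] using congrFun u2 (.inr b)
  · rcases lt_or_ge τ (aS t mu) with c | c
    · rw [b1 τ j j2 c]
      exact mul_pos hq (mul_pos (Nat.two_pow_pos _) (Nat.two_pow_pos _))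
    · rw [b2 τ j j2 c]
      refine mul_pos (Nat.pos_of_ne_zero fun k => ?_) (Nat.two_pow_pos _)
      have := c1 _ (big τ h c).1 (big τ h c).2
      rw [k, Nat.cast_zero, mul_zero] at this
      exact absurd this (pow_pos two_pos _).not_ge
  · rw [pow_add]
    rcases lt_or_ge τ (aS t mu) with c | c
    · rw [b1 τ _ (n3 τ h).1 c, (n3 τ h).2.1 c, pow_zero, mul_one]
      exact Nat.mul_le_mul_right _ (Nat.sub_le _ _)
    · rw [b2 τ _ (n3 τ h).1 c, Nat.sub_self, pow_zero, mul_one]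
      exact ((card_le_univ _).trans (by simp)).trans (Nat.le_mul_of_pos_left _ (Nat.two_pow_pos _))
  obtain ⟨r1, r2, r3, r4⟩ := n2 a h
  rcases lt_or_ge a (aS t mu) with c | c
  · rw [r3 c, oth, if_pos c, ef a c j j2]
    rw [Nat.cast_mul, Nat.cast_pow, Nat.cast_ofNat]
    exact mul_le_mul_of_nonneg_right (le_mul_of_one_le_left a.cast_nonneg (le_add_of_nonneg_right
      hη.le)) (mul_nonneg (Nat.cast_nonneg _) (pow_nonneg zero_le_two _))
  have c' := c.trans r2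
  have k1 := c1 _ (big _ r1 c').1 (big _ r1 c').2
  have k2 : n * ((2 ^ t - 1) * io (rd a) * 2 ^ lev (rd a)) ≤ (n + 1) * (rd a + 1) := by
    rcases ((n3 _ r1).2.2 c').2 with ⟨b1, -⟩ | ⟨b1, b2, b3⟩
    · rw [← b1]
      exact Nat.mul_le_mul_right _ n.le_succ
    · rw [b1, b2, b3, hn]
      exact (Nat.mul_le_mul_left _ J1).trans' (le_of_eq (by ring))
  have m0' : (1 : ℝ) ≤ n := by exact_mod_cast (show 1 ≤ n by omega)
  have k3 : (((2 ^ t - 1 : ℕ) : ℝ) * io (rd a) * 2 ^ lev (rd a)) ≤ (1 + ε) * a := by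
    have a0 : n * (n * ((2 ^ t - 1) * io (rd a) * 2 ^ lev (rd a))) ≤ (n + 1) * ((n + 2) * a) :=
      (Nat.mul_le_mul_left _ k2).trans ((Nat.mul_left_comm _ _ _).trans_le
        (Nat.mul_le_mul_left _ (r4 c)))
    have a1 : (n : ℝ) * (n * (((2 ^ t - 1 : ℕ) : ℝ) * io (rd a) * 2 ^ lev (rd a))) ≤
        (n + 1) * ((n + 2) * a) := by exact_mod_cast a0
    have a2 : 5 / ε ≤ n := (Nat.le_ceil _).trans (by exact_mod_cast (show _ ≤ n by omega))
    rw [div_le_iff₀ e0] at a2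
    rw [← mul_assoc, ← mul_assoc (n + 1 : ℝ)] at a1
    refine le_of_mul_le_mul_left (a1.trans ?_) (by positivity : (0 : ℝ) < n * n)
    rw [← mul_assoc]
    exact mul_le_mul_of_nonneg_right
      (by linarith only [mul_le_mul_of_nonneg_left a2 n.cast_nonneg, m0']) a.cast_nonneg
  have k4 : (2 : ℝ) ^ kk = 2 ^ lev (rd a) * (2 ^ (j - lev (rd a)) * 2 ^ (kk - j)) := by
    rw [← pow_add, ← pow_add]
    congr 1
    omega
  rw [oth, if_neg c'.not_gt, b2 _ j j2 c', bin, Nat.cast_mul, Nat.cast_mul, Nat.cast_one, one_mul,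
    Nat.cast_pow, Nat.cast_pow, Nat.cast_ofNat, pow_add, k4]
  exact InnEx_fin e0.le e1 e2 (Nat.cast_nonneg _) a.cast_nonneg (Nat.cast_nonneg _)
    (pow_nonneg zero_le_two _) (pow_nonneg zero_le_two _) (pow_nonneg zero_le_two _) k1 rfl k3

end Pool.Agent.Work.MP_ede3c6_co.X
end

-- merged part: Pool.Agent.Work.MP_ede3c6_co.X.SegEx
section
/-! Existence of the segmentation.

PLAN. `ap i = if i < k then a i else 0`, `κ = 2 M0 + 2`, `mw x` = sup of `ap (x + o)`, `o < κ`;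
`base j = (j / (P + 1)) Lc + (j % (P + 1)) K`; for a short `j` (`j % (P + 1) ≠ P`) `om j < Kp`
minimises `mw (base j + κ ω)`, `st j = base j + κ om j`, `mx j = mw (st j)`; for a long `j`
`st j = base j`, `mx j = Am`. `len j = 2 Mj j + 2`, `st j + len j ≤ base (j + 1)`.
`bs 0 = 0`, `bs (j + 1) = st j + len j - 1`, `bl j = st j + 1 - bs j`;
`av j o = if o = bl j - 1 then mx j else if o = 0 ∧ 0 < j then mx (j - 1) else ap (bs j + o)`
(`bl j ≥ 2` for `j > 0`). Volumes telescope: with `T x = ∑ i < x, (1 + ap i)` one has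
`Kp (1 + mx j) ≤ T (base (j + 1)) - T (base j)` for short `j` (`1 + mw x ≤ ∑ o < κ, (1 + ap (x + o))`),
`base (J + 1) = N Lc + K ≤ k + Lc + K`, `T (k + Lc + K) ≤ 2 C + Lc + K`; there are `N` long
`j ≤ J`; `wt π i (av j o) ≤ wt π i (ap i) + [o = 0] (1 + av j 0) + [o = bl j - 1] (1 + mx j)`. -/

set_option autoImplicit false

namespace Pool.Agent.Work.MP_ede3c6_co.X

open Finset Vol

theorem SegEx_rec (P A B : ℕ) (g : ℕ → ℕ) (h0 : g 0 = 0)
    (hs : ∀ j, g (j + 1) = g j + if j % (P + 1) = P then A else B) (q r : ℕ) (hr : r ≤ P) :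
    g (q * (P + 1) + r) = q * (P * B + A) + r * B := by
  have h1 : ∀ q r, r ≤ P → g (q * (P + 1) + r) = g (q * (P + 1)) + r * B := by
    intro q r
    induction r with
    | zero => intro _; simp
    | succ r ih =>
      intro hr
      have e : (q * (P + 1) + r) % (P + 1) = r := by
        rw [Nat.mul_add_mod_self_right]
        exact Nat.mod_eq_of_lt (by omega)
      rw [← add_assoc, hs, ih (by omega), e, if_neg (by omega)]
      ring
  have h2 : ∀ q, g (q * (P + 1)) = q * (P * B + A) := by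
    intro q
    induction q with
    | zero => simpa using h0
    | succ q ih =>
      have e : (q * (P + 1) + P) % (P + 1) = P := by
        rw [Nat.mul_add_mod_self_right]
        exact Nat.mod_eq_of_lt (by omega)
      have e2 : (q + 1) * (P + 1) = q * (P + 1) + P + 1 := by ring
      rw [e2, hs, h1 q P le_rfl, ih, e, if_pos rfl]
      ring
  rw [h1 q r hr, h2]

theorem SegEx_blk (g : ℕ → ℕ) (κ x c : ℕ) (n : ℕ)
    (h : ∀ ω < n, c ≤ ∑ o ∈ range κ, g (x + κ * ω + o)) :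
    ∑ i ∈ range x, g i + n * c ≤ ∑ i ∈ range (x + κ * n), g i := by
  induction n with
  | zero => simp
  | succ n ih =>
    have e : x + κ * (n + 1) = x + κ * n + κ := by ring
    have h1 := ih fun ω hω => h ω (by omega)
    have h2 := h n (by omega)
    rw [e, sum_range_add _ (x + κ * n) κ, Nat.succ_mul]
    omega

theorem SegEx_step (ap : ℕ → ℕ) (Am κ Kp : ℕ) (hκ : 1 ≤ κ) (hK : 1 ≤ Kp) (ha : ∀ i, ap i ≤ Am)
    (x : ℕ) : ∃ s m : ℕ, x ≤ s ∧ s + κ ≤ x + κ * Kp ∧ m ≤ Am ∧ (∀ o < κ, ap (s + o) ≤ m) ∧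
      ∑ i ∈ range x, (1 + ap i) + Kp * (1 + m) ≤ ∑ i ∈ range (x + κ * Kp), (1 + ap i) := by
  obtain ⟨ω, hω, hmin⟩ := exists_min_image (range Kp)
    (fun ω => (range κ).sup fun o => ap (x + κ * ω + o)) ⟨0, mem_range.2 (by omega)⟩
  have hω' := mem_range.1 hω
  refine ⟨x + κ * ω, (range κ).sup fun o => ap (x + κ * ω + o), by omega, ?_,
    Finset.sup_le fun o _ => ha _, fun o ho => ?_, ?_⟩
  · have : κ * (ω + 1) ≤ κ * Kp := Nat.mul_le_mul_left _ hω'
    rw [Nat.mul_succ] at this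
    omega
  · exact Finset.le_sup (f := fun o => ap (x + κ * ω + o)) (mem_range.2 ho)
  · refine SegEx_blk (fun i => 1 + ap i) κ x _ Kp fun w hw => ?_
    have h1 := hmin w (mem_range.2 hw)
    obtain ⟨o, ho, e⟩ := Finset.exists_mem_eq_sup (range κ) ⟨0, mem_range.2 (by omega)⟩
      (fun o => ap (x + κ * w + o))
    have h2 : 1 + ap (x + κ * w + o) ≤ ∑ o ∈ range κ, (1 + ap (x + κ * w + o)) :=
      single_le_sum (f := fun o => 1 + ap (x + κ * w + o)) (fun _ _ => Nat.zero_le _) ho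
    rw [e] at h1
    omega

theorem SegEx_tail (g : ℕ → ℕ) (k L c x : ℕ) (hx : x ≤ k + L) (h1 : ∑ i ∈ range k, g i ≤ c)
    (h2 : ∀ i, k ≤ i → g i ≤ 1) : ∑ i ∈ range x, g i ≤ c + L := by
  have h3 : ∑ i ∈ range x, g i ≤ ∑ i ∈ range (k + L), g i :=
    sum_le_sum_of_subset (range_mono hx)
  have h4 : ∑ o ∈ range L, g (k + o) ≤ ∑ o ∈ range L, 1 :=
    sum_le_sum fun o _ => h2 _ (by omega)
  rw [sum_range_add] at h3
  simp only [sum_const, card_range, smul_eq_mul, mul_one] at h4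
  omega

theorem SegEx_dat (p : Pm) (hP : 1 ≤ p.P) (hK : 1 ≤ p.Kp) (k : ℕ) (ap : ℕ → ℕ) (C : ℕ)
    (ha : ∀ i, ap i ≤ p.Am) (h0 : ∀ i, k ≤ i → ap i = 0)
    (hC : ∑ i ∈ range k, (1 + ap i) ≤ 2 * C) :
    ∃ st mx : ℕ → ℕ, st 0 + 1 ≤ 2 * p.K ∧ (∀ j, st j + 2 * p.Mj j + 2 ≤ st (j + 1)) ∧
      (∀ j, st (j + 1) + 1 ≤ st j + 2 * p.Mj j + 1 + 2 * p.K) ∧
      (∀ j, j % (p.P + 1) = p.P → mx j = p.Am ∧ st j % 2 = 0) ∧ (∀ j, mx j ≤ p.Am) ∧
      (∀ j o, o < 2 * p.Mj j + 2 → ap (st j + o) ≤ mx j) ∧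
      (∀ j, j + 1 = p.J k → k ≤ st j + 2 * p.Mj j + 1) ∧
      st (p.J k) + 2 * p.Mj (p.J k) + 1 ≤ k + (p.Lc + p.K) ∧
      ∑ j ∈ range (p.J k + 1), (1 + mx j) ≤
        (2 * C + p.Lc + p.K) / p.Kp + p.N k * (1 + p.Am) := by
  choose s m hs1 hs2 hm1 hm2 hT using SegEx_step ap p.Am (2 * p.M0 + 2) p.Kp (by omega) hK ha
  have eK : (2 * p.M0 + 2) * p.Kp = p.K := rfl
  simp only [eK] at hs2 hT
  have hK2 : 2 * p.M0 + 2 ≤ p.K := by
    rw [← eK]
    exact Nat.le_mul_of_pos_right _ hK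
  have hKe : p.K % 2 = 0 := by
    have : p.K = 2 * ((p.M0 + 1) * p.Kp) := by rw [← eK]; ring
    omega
  obtain ⟨b, b0, bs⟩ : ∃ b : ℕ → ℕ, b 0 = 0 ∧ ∀ j, b (j + 1) = b j +
      if j % (p.P + 1) = p.P then 2 * (p.M0 + p.Mg) + 2 else p.K :=
    ⟨fun n => ∑ j ∈ range n, if j % (p.P + 1) = p.P then 2 * (p.M0 + p.Mg) + 2 else p.K,
      by simp, fun j => sum_range_succ _ _⟩
  have be : ∀ j, b j % 2 = 0 := by
    intro j
    induction j with
    | zero => rw [b0]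
    | succ j ih =>
      rw [bs]
      split_ifs <;> omega
  have bq : ∀ q r, r ≤ p.P → b (q * (p.P + 1) + r) = q * p.Lc + r * p.K :=
    SegEx_rec p.P _ _ b b0 bs
  obtain ⟨st, hl, hs⟩ : ∃ st : ℕ → ℕ, (∀ j, j % (p.P + 1) = p.P → st j = b j) ∧
      ∀ j, j % (p.P + 1) ≠ p.P → st j = s (b j) :=
    ⟨fun j => if j % (p.P + 1) = p.P then b j else s (b j), fun j h => if_pos h,
      fun j h => if_neg h⟩
  obtain ⟨mx, ml, ms⟩ : ∃ mx : ℕ → ℕ, (∀ j, j % (p.P + 1) = p.P → mx j = p.Am) ∧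
      ∀ j, j % (p.P + 1) ≠ p.P → mx j = m (b j) :=
    ⟨fun j => if j % (p.P + 1) = p.P then p.Am else m (b j), fun j h => if_pos h,
      fun j h => if_neg h⟩
  have Ml : ∀ j, j % (p.P + 1) = p.P → p.Mj j = p.M0 + p.Mg := fun j h => if_pos h
  have Ms : ∀ j, j % (p.P + 1) ≠ p.P → p.Mj j = p.M0 := fun j h => if_neg h
  have f1 : ∀ j, b j ≤ st j ∧ st j + 1 ≤ b j + p.K ∧ st j + 2 * p.Mj j + 2 ≤ b (j + 1) ∧
      b (j + 1) ≤ st j + 2 * p.Mj j + 1 + p.K := by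
    intro j
    have e := bs j
    by_cases h : j % (p.P + 1) = p.P
    · rw [if_pos h] at e
      rw [hl j h, Ml j h]
      omega
    · rw [if_neg h] at e
      have := hs1 (b j)
      have := hs2 (b j)
      rw [hs j h, Ms j h]
      omega
  have hLc : 0 < p.Lc := by
    unfold Pm.Lc
    omega
  have hN1 : k < p.N k * p.Lc := by
    unfold Pm.N
    rw [mul_comm]
    exact Nat.lt_mul_div_succ k hLc
  have hN2 : p.N k * p.Lc ≤ k + p.Lc := by
    unfold Pm.N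
    have := Nat.div_mul_le_self k p.Lc
    rw [Nat.succ_mul]
    omega
  have bJ : b (p.J k) = p.N k * p.Lc := by
    have := bq (p.N k) 0 (Nat.zero_le _)
    simpa [Pm.J] using this
  have bJ1 : b (p.J k + 1) = p.N k * p.Lc + p.K := by
    have := bq (p.N k) 1 hP
    simpa [Pm.J] using this
  refine ⟨st, mx, ?_, fun j => ?_, fun j => ?_, fun j h => ⟨ml j h, ?_⟩, fun j => ?_,
    fun j o ho => ?_, fun j hj => ?_, ?_, ?_⟩
  · have := f1 0
    omega
  · have := f1 j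
    have := f1 (j + 1)
    omega
  · have := f1 j
    have := f1 (j + 1)
    omega
  · rw [hl j h]
    exact be j
  · by_cases h : j % (p.P + 1) = p.P
    · rw [ml j h]
    · rw [ms j h]
      exact hm1 _
  · by_cases h : j % (p.P + 1) = p.P
    · rw [ml j h]
      exact ha _
    · rw [ms j h, hs j h]
      rw [Ms j h] at ho
      exact hm2 _ o ho
  · have e : j = k / p.Lc * (p.P + 1) + p.P := by
      have : p.J k = k / p.Lc * (p.P + 1) + p.P + 1 := by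
        unfold Pm.J Pm.N
        ring
      omega
    have h : j % (p.P + 1) = p.P := by
      rw [e, Nat.mul_add_mod_self_right]
      exact Nat.mod_eq_of_lt (by omega)
    have e2 := bs j
    rw [if_pos h, hj, bJ] at e2
    rw [hl j h, Ml j h]
    omega
  · have := f1 (p.J k)
    omega
  · have t1 : ∀ n, p.Kp * ∑ j ∈ range n, (if j % (p.P + 1) = p.P then 0 else 1 + mx j) ≤
        ∑ i ∈ range (b n), (1 + ap i) := by
      intro n
      induction n with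
      | zero => simp
      | succ n ih =>
        rw [sum_range_succ, mul_add, bs]
        by_cases h : n % (p.P + 1) = p.P
        · rw [if_pos h, if_pos h, mul_zero, add_zero]
          exact ih.trans (sum_le_sum_of_subset (range_mono (Nat.le_add_right _ _)))
        · rw [if_neg h, if_neg h, ms n h]
          have := hT (b n)
          omega
    have t2 : ∑ i ∈ range (b (p.J k + 1)), (1 + ap i) ≤ 2 * C + (p.Lc + p.K) :=
      SegEx_tail _ k _ _ _ (by omega) hC fun i hi => by rw [h0 i hi]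
    have t3 : ∑ j ∈ range (p.J k + 1), (if j % (p.P + 1) = p.P then 0 else 1 + mx j) ≤
        (2 * C + p.Lc + p.K) / p.Kp := by
      rw [Nat.le_div_iff_mul_le hK, mul_comm]
      have := t1 (p.J k + 1)
      omega
    have t4 : ∑ j ∈ range (p.J k + 1), (if j % (p.P + 1) = p.P then 1 + p.Am else 0) =
        p.N k * (1 + p.Am) := by
      have := SegEx_rec p.P (1 + p.Am) 0
        (fun n => ∑ j ∈ range n, if j % (p.P + 1) = p.P then 1 + p.Am else 0) (by simp)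
        (fun j => sum_range_succ _ _) (p.N k) 1 hP
      simpa [Pm.J] using this
    have t5 : ∑ j ∈ range (p.J k + 1), (1 + mx j) =
        ∑ j ∈ range (p.J k + 1), (if j % (p.P + 1) = p.P then 0 else 1 + mx j) +
        ∑ j ∈ range (p.J k + 1), (if j % (p.P + 1) = p.P then 1 + p.Am else 0) := by
      rw [← sum_add_distrib]
      refine sum_congr rfl fun j _ => ?_
      by_cases h : j % (p.P + 1) = p.P
      · rw [if_pos h, if_pos h, ml j h, zero_add]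
      · rw [if_neg h, if_neg h, add_zero]
    omega

theorem SegEx_tel (W bs bl : ℕ → ℕ) (h : ∀ j, bs j + bl j ≤ bs (j + 1)) (n : ℕ) :
    ∑ j ∈ range n, ∑ o ∈ range (bl j), W (bs j + o) ≤ ∑ i ∈ range (bs n), W i := by
  induction n with
  | zero => simp
  | succ n ih =>
    have h1 : ∑ i ∈ range (bs n + bl n), W i ≤ ∑ i ∈ range (bs (n + 1)), W i :=
      sum_le_sum_of_subset (range_mono (h n))
    rw [sum_range_add] at h1
    rw [sum_range_succ]
    omega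

theorem seg_ex (p : Pm) (hP : 1 ≤ p.P) (hK : 1 ≤ p.Kp) (k : ℕ) (a : ℕ → ℕ) (C : ℕ)
    (ha : ∀ i < k, a i ≤ p.Am) (hC : ∀ π < 2, cls k a π ≤ C) : Nonempty (Seg p k a C) := by
  obtain ⟨ap, ap1, ap0⟩ : ∃ ap : ℕ → ℕ, (∀ i < k, ap i = a i) ∧ ∀ i, k ≤ i → ap i = 0 :=
    ⟨fun i => if i < k then a i else 0, fun i h => if_pos h, fun i h => if_neg (by omega)⟩
  have apM : ∀ i, ap i ≤ p.Am := by
    intro i
    by_cases h : i < k
    · rw [ap1 i h]
      exact ha i h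
    · rw [ap0 i (by omega)]
      exact Nat.zero_le _
  have hT : ∑ i ∈ range k, (1 + ap i) ≤ 2 * C := by
    have e : ∑ i ∈ range k, (1 + ap i) = cls k a 0 + cls k a 1 := by
      unfold cls
      rw [← sum_add_distrib]
      refine sum_congr rfl fun i hi => ?_
      rw [ap1 i (mem_range.1 hi)]
      split_ifs <;> omega
    have := hC 0 (by omega)
    have := hC 1 (by omega)
    omega
  obtain ⟨st, mx, s0, s1, s2, s3, s4, s5, s6, s7, s8⟩ := SegEx_dat p hP hK k ap C apM ap0 hT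
  obtain ⟨bs, b0, b1⟩ : ∃ bs : ℕ → ℕ, bs 0 = 0 ∧ ∀ j, bs (j + 1) = st j + 2 * p.Mj j + 1 :=
    ⟨fun j => Nat.casesOn j 0 fun j => st j + 2 * p.Mj j + 1, rfl, fun _ => rfl⟩
  have b2 : ∀ j, bs (j + 1) + 1 ≤ st (j + 1) := fun j => by
    have := s1 j
    have := b1 j
    omega
  have b3 : ∀ j, bs j ≤ st j := fun j => by
    cases j with
    | zero => omega
    | succ j =>
      have := b2 j
      omega
  obtain ⟨bl, l1⟩ : ∃ bl : ℕ → ℕ, ∀ j, bs j + bl j = st j + 1 :=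
    ⟨fun j => st j + 1 - bs j, fun j => by
      have := b3 j
      dsimp only
      omega⟩
  obtain ⟨av, a1, a2, a3⟩ : ∃ av : ℕ → ℕ → ℕ, (∀ j, av j (bl j - 1) = mx j) ∧
      (∀ j, av (j + 1) 0 = mx j) ∧
      ∀ j o, o ≠ bl j - 1 → (o ≠ 0 ∨ j = 0) → av j o = ap (bs j + o) := by
    refine ⟨fun j o => if o = bl j - 1 then mx j else if o = 0 ∧ 0 < j then mx (j - 1)
      else ap (bs j + o), fun j => if_pos rfl, fun j => ?_, fun j o h1 h2 => ?_⟩
    · have := l1 (j + 1)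
      have := b2 j
      dsimp only
      rw [if_neg (by omega), if_pos ⟨rfl, by omega⟩, Nat.add_sub_cancel]
    · dsimp only
      rw [if_neg h1, if_neg (by omega)]
  have a4 : ∀ j o, o = bl j - 1 ∨ (o = 0 ∧ ∃ i, j = i + 1) ∨ av j o = ap (bs j + o) := by
    intro j o
    by_cases h1 : o = bl j - 1
    · exact Or.inl h1
    · by_cases h2 : o ≠ 0 ∨ j = 0
      · exact Or.inr (Or.inr (a3 j o h1 h2))
      · exact Or.inr (Or.inl ⟨by omega, j - 1, by omega⟩)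
  have aM : ∀ j o, av j o ≤ p.Am := by
    intro j o
    rcases a4 j o with h | ⟨h, i, hi⟩ | h
    · rw [h, a1]
      exact s4 _
    · rw [h, hi, a2]
      exact s4 _
    · rw [h]
      exact apM _
  have eW : p.Wb C k = (2 * C + p.Lc + p.K) / p.Kp + p.N k * (1 + p.Am) + (1 + p.Am) := by
    unfold Pm.Wb
    ring
  have wl : ∑ j ∈ range (p.J k + 1), (1 + mx j) ≤ p.Wb C k := by omega
  have wf : ∑ j ∈ range (p.J k + 1), (1 + av j 0) ≤ p.Wb C k := by
    rw [sum_range_succ']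
    simp only [a2]
    rw [sum_range_succ] at s8
    have := aM 0 0
    omega
  refine ⟨⟨bs, bl, av, mx, b0, fun j => ?_, fun j => ?_, fun j => ?_, aM, a1, a2,
    fun j h => ⟨(s3 j h).1, ?_⟩, fun j o h1 h2 => ?_, fun j o h1 h2 => ?_, ?_, fun π hπ => ?_,
    wf, wl⟩⟩
  · have := l1 j
    have := b1 j
    omega
  · have := l1 j
    have := b3 j
    omega
  · have := l1 j
    cases j with
    | zero => omega
    | succ j =>
      have := b1 j
      have := s2 j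
      omega
  · have := l1 j
    have := (s3 j h).2
    omega
  · rw [← ap1 _ h2]
    rcases a4 j o with h | ⟨h, i, hi⟩ | h
    · have e : bs j + o = st j + 0 := by
        have := l1 j
        omega
      rw [e, h, a1]
      exact s5 j 0 (by omega)
    · rw [h, hi, a2, b1, add_zero, add_assoc]
      exact s5 i _ (by omega)
    · rw [h]
  · rw [← ap1 _ h2, l1, add_assoc]
    exact s5 j _ (by omega)
  · have e : p.J k = k / p.Lc * (p.P + 1) + p.P + 1 := by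
      unfold Pm.J Pm.N
      ring
    have := s6 _ e.symm
    rw [e, b1]
    exact this
  · have v1 : ∀ j, ∑ o ∈ range (bl j), wt π (bs j + o) (av j o) ≤
        ∑ o ∈ range (bl j), wt π (bs j + o) (ap (bs j + o)) + (1 + av j 0) + (1 + mx j) := by
      intro j
      have u1 : ∑ o ∈ range (bl j), wt π (bs j + o) (av j o) ≤
          ∑ o ∈ range (bl j), (wt π (bs j + o) (ap (bs j + o)) +
            (if o = 0 then 1 + av j 0 else 0) + if o = bl j - 1 then 1 + mx j else 0) := by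
        refine sum_le_sum fun o _ => ?_
        have w : wt π (bs j + o) (av j o) ≤ 1 + av j o := by
          unfold wt
          split_ifs <;> omega
        rcases a4 j o with h | ⟨h, -⟩ | h
        · rw [if_pos h, ← a1, ← h]
          omega
        · rw [if_pos h]
          subst h
          omega
        · rw [h]
          omega
      rw [sum_add_distrib, sum_add_distrib, sum_ite_eq', sum_ite_eq'] at u1
      split_ifs at u1 <;> omega
    have v2 := sum_le_sum fun j (_ : j ∈ range (p.J k + 1)) => v1 j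
    rw [sum_add_distrib, sum_add_distrib] at v2
    have v3 := SegEx_tel (fun i => wt π i (ap i)) bs bl (fun j => by
      have := l1 j
      have := b1 j
      omega) (p.J k + 1)
    have v4 : ∑ i ∈ range (bs (p.J k + 1)), wt π i (ap i) ≤ C + (p.Lc + p.K) := by
      refine SegEx_tail _ k _ _ _ (by rw [b1]; exact s7) ?_ fun i hi => ?_
      · refine le_trans (le_of_eq ?_) (hC π hπ)
        unfold cls wt
        exact sum_congr rfl fun i hi => by rw [ap1 i (mem_range.1 hi)]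
      · rw [ap0 i hi]
        unfold wt
        split_ifs <;> omega
    unfold Pm.Vb
    omega

end Pool.Agent.Work.MP_ede3c6_co.X
end

-- merged part: Pool.Agent.Work.MP_ede3c6_co.X.AlcExA
section
/-! Allocation of zones: block types, bins and the number of requests. -/

set_option autoImplicit false

namespace Pool.Agent.Work.MP_ede3c6_co.X.AlcExA

open Finset Vol Classical

theorem mf {α : Type} {s : Finset α} {P : α → Prop} {_ : DecidablePred P} {x : α}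
    (h : x ∈ s.filter P) : x ∈ s ∧ P x := mem_filter.1 h

theorem flt {α : Type} (s : Finset α) (P Q : α → Prop) {_ : DecidablePred P} {_ : DecidablePred Q}
    (h : ∀ x ∈ s, P x → Q x) : #(s.filter P) ≤ #(s.filter Q) :=
  card_le_card fun x hx => mem_filter.2 ⟨(mem_filter.1 hx).1,
    h x (mem_filter.1 hx).1 (mem_filter.1 hx).2⟩

theorem le_of_ne_imp {α : Type} {s : Finset α} {c : ℕ} (h : ∀ x ∈ s, s.card ≤ c) : s.card ≤ c := by
  rcases s.eq_empty_or_nonempty with rfl | ⟨x, hx⟩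
  · exact Nat.zero_le _
  · exact h x hx

theorem inj1 {α β : Type} [Nonempty β] (s : Finset α) (t : Finset β) (h : s.card ≤ t.card) :
    ∃ f : α → β, (∀ x ∈ s, f x ∈ t) ∧ ∀ x ∈ s, ∀ y ∈ s, f x = f y → x = y := by
  obtain ⟨f, h1, h2⟩ := Set.Finite.exists_injOn_of_encard_le (t := (t : Set β)) s.finite_toSet (by
    rw [Set.encard_coe_eq_coe_finsetCard, Set.encard_coe_eq_coe_finsetCard]
    exact_mod_cast h)
  exact ⟨f, fun x hx => h1 hx, fun x hx y hy e => h2 hx hy e⟩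

theorem zones {α β γ P : Type} [Nonempty γ] (A : Finset γ) (RJ : Finset α) (RM : P → Finset β)
    (h0 : #RJ ≤ #A) (h : ∀ π, #RJ + #(RM π) ≤ #A) :
    ∃ (gJ : α → γ) (gM : P → β → γ), (∀ x ∈ RJ, gJ x ∈ A) ∧
      (∀ x ∈ RJ, ∀ y ∈ RJ, gJ x = gJ y → x = y) ∧ (∀ π, ∀ x ∈ RM π, gM π x ∈ A) ∧
      (∀ π, ∀ x ∈ RM π, ∀ y ∈ RM π, gM π x = gM π y → x = y) ∧
      ∀ π, ∀ x ∈ RJ, ∀ y ∈ RM π, gJ x ≠ gM π y := by
  obtain ⟨gJ, h1, h2⟩ := inj1 RJ A h0
  have k : ∀ π, #(RM π) ≤ #(A \ RJ.image gJ) := fun π => by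
    have a1 := le_card_sdiff (RJ.image gJ) A
    have a2 : #(RJ.image gJ) ≤ #RJ := card_image_le
    have := h π
    omega
  choose gM h3 h4 using fun π => inj1 (RM π) _ (k π)
  exact ⟨gJ, gM, h1, h2, fun π x hx => (mem_sdiff.1 (h3 π x hx)).1, h4, fun π x hx y hy e =>
    (mem_sdiff.1 (h3 π y hy)).2 (e ▸ mem_image_of_mem gJ hx)⟩

theorem std_ex (p : Pm) : ∃ A : Finset (V p.Zn), #A = p.nA ∧ ∀ Z ∈ A, p.Std Z := by
  let F : (V (Fin p.t1) × V (Fin p.t1)) × V (Fin (p.H + 1)) → V p.Zn := fun x =>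
    Sum.elim (Sum.elim x.1.1 x.1.2) x.2
  have hF : Function.Injective F := by
    rintro ⟨⟨x, y⟩, z⟩ ⟨⟨x', y'⟩, z'⟩ e
    have e1 : x = x' := funext fun b => congrFun e (Sum.inl (Sum.inl b))
    have e2 : y = y' := funext fun b => congrFun e (Sum.inl (Sum.inr b))
    have e3 : z = z' := funext fun b => congrFun e (Sum.inr b)
    rw [e1, e2, e3]
  refine ⟨((univ.erase 0 ×ˢ univ.erase 0) ×ˢ univ).image F, ?_, fun Z hZ => ?_⟩
  · rw [card_image_of_injective _ hF, card_product, card_product,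
      card_erase_of_mem (mem_univ _), card_univ, card_univ]
    simp [Pm.nA, ZMod.card]
  · obtain ⟨⟨⟨x, y⟩, z⟩, hx, rfl⟩ := mem_image.1 hZ
    have h1 := mem_product.1 (mem_product.1 hx).1
    exact ⟨Function.ne_iff.1 (ne_of_mem_erase h1.1), Function.ne_iff.1 (ne_of_mem_erase h1.2)⟩

section Res
variable (t mu : ℕ)

/-- admissible resource numbers -/
noncomputable def RV (τ : ℕ) : Finset ℕ := {r ∈ range (aS t mu + 1) | vr t mu τ r}

/-- admissible resource numbers of a given parity -/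
noncomputable def RR (τ : ℕ) (q π : ZMod 2) : Finset ℕ := {r ∈ RV t mu τ | rp t mu τ q r = π}

/-- one for small types -/
def sm (τ : ℕ) : ℕ := if τ < aS t mu then 1 else 0

variable {t mu}

theorem mem_RV {τ r : ℕ} : r ∈ RV t mu τ ↔ vr t mu τ r := by
  rw [RV, mem_filter, mem_range, and_iff_right_iff_imp, vr]
  split_ifs <;> omega

theorem mem_RR {τ r : ℕ} {q π : ZMod 2} :
    r ∈ RR t mu τ q π ↔ vr t mu τ r ∧ rp t mu τ q r = π := by rw [RR, mem_filter, mem_RV]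

theorem vr_zero (τ : ℕ) : vr t mu τ 0 := Nat.zero_le _

theorem RV_le (τ : ℕ) : #(RV t mu τ) ≤ aS t mu + 1 :=
  (card_filter_le _ _).trans (card_range _).le

theorem RR_le (τ : ℕ) (q π : ZMod 2) : #(RR t mu τ q π) ≤ aS t mu + 1 :=
  (card_filter_le _ _).trans (RV_le τ)

theorem RV_le' (τ : ℕ) : #(RV t mu τ) ≤ sm t mu τ + oth t mu τ := by
  refine (card_le_card (t := range (sm t mu τ + oth t mu τ)) fun r hr => ?_).trans
    (card_range _).le
  rw [mem_RV, vr] at hr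
  rw [mem_range, sm, oth]
  split_ifs at hr ⊢ <;> omega

theorem RR_same (τ : ℕ) (q : ZMod 2) : #(RR t mu τ q q) ≤ sm t mu τ := by
  refine (card_le_card (t := range (sm t mu τ)) fun r hr => ?_).trans (card_range _).le
  have h := (mem_RR.1 hr).2
  rw [rp] at h
  split_ifs at h with c
  · rw [mem_range, sm, if_pos c.1, c.2]
    exact one_pos
  · exact absurd (add_eq_left.1 h) one_ne_zero

theorem RR_oth (τ : ℕ) {q π : ZMod 2} (h : q ≠ π) : #(RR t mu τ q π) ≤ oth t mu τ := by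
  by_cases c : τ < aS t mu
  · refine (card_le_card (t := Ioc 0 τ) fun r hr => ?_).trans (by rw [oth, if_pos c]; simp)
    obtain ⟨h1, h2⟩ := mem_RR.1 hr
    rw [vr, if_pos c] at h1
    refine mem_Ioc.2 ⟨Nat.pos_of_ne_zero fun e => h ?_, h1⟩
    rwa [rp, if_pos ⟨c, e⟩] at h2
  · refine (card_filter_le _ _).trans ((RV_le' τ).trans ?_)
    rw [sm, if_neg c, zero_add]

end Res

/-- block types -/
abbrev BT (p : Pm) : Type := ℕ × ℕ × (Fin (2 * p.K) → ℕ)

variable {p : Pm} {η : ℝ} (I : Inn p.t p.mu p.kk p.nJ η) {k : ℕ} {a : ℕ → ℕ} {C : ℕ} (S : Seg p k a C)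

/-- the type of block `j` -/
def Bt (j : ℕ) : BT p := (S.bl j, S.bs j % 2, fun o => I.rd (S.av j o))

/-- the block types that occur -/
noncomputable def BB : Finset (BT p) := (range (p.J k + 1)).image (Bt I S)

/-- the type at an offset -/
def ta (B : BT p) (o : ℕ) : ℕ := if h : o < 2 * p.K then B.2.2 ⟨o, h⟩ else 0

/-- the level of a block type -/
def kB (B : BT p) : ℕ := (range B.1).sup fun o => I.lev (ta B o)

/-- tracks of a bundle -/
def w (B : BT p) : ℕ := 2 ^ (p.kk - kB I B)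

/-- blocks of a type -/
noncomputable def NB (B : BT p) : ℕ := #{j ∈ range (p.J k + 1) | Bt I S j = B}

/-- bundles of a type -/
noncomputable def FB (B : BT p) : ℕ := NB I S B / (p.L0 * p.Q * w I B) + 1

/-- bundles of a bin -/
def m (B : BT p) (o : ℕ) : ℕ := I.mb (ta B o) (kB I B)

/-- bins of a type and an offset -/
noncomputable def nb (B : BT p) (o : ℕ) : ℕ := FB I S B / m I B o + 1

/-- the bin of a track -/
def bn (B : BT p) (v o : ℕ) : ℕ := v / w I B / m I B o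

/-- the middle part of the label of a track -/
def ul (B : BT p) (v o : ℕ) : V (Fin p.t) := I.su (ta B o) (kB I B) (v / w I B % m I B o)

/-- the inner part of the label of a track -/
def zl (B : BT p) (v o : ℕ) : V (Zt p.mu p.kk) :=
  I.sz (ta B o) (kB I B) (v / w I B % m I B o) + I.hv (kB I B) (v % w I B)

/-- main requests -/
noncomputable def RM (π : ZMod 2) : Finset (Σ _ : BT p, Σ _ : ℕ, ℕ × ℕ) :=
  (BB I S).sigma fun B => (range B.1).sigma fun o =>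
    range (nb I S B o) ×ˢ RR p.t p.mu (ta B o) ((B.2.1 + o : ℕ) : ZMod 2) π

/-- block types with a given last type and parity -/
noncomputable def Wl (γ : ℕ × ℕ) : Finset (BT p) :=
  {B ∈ BB I S | (ta B (B.1 - 1), (B.2.1 + B.1) % 2) = γ}

/-- block types with a given first type and parity -/
noncomputable def Wf (γ : ℕ × ℕ) : Finset (BT p) := {B ∈ BB I S | (ta B 0, B.2.1) = γ}

/-- units of a group -/
noncomputable def nu (γ : ℕ × ℕ) : ℕ :=
  p.L0 * 2 ^ p.t * (∑ B ∈ Wl I S γ, nb I S B (B.1 - 1) + ∑ B ∈ Wf I S γ, nb I S B 0) + 1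

/-- junction requests -/
noncomputable def RJ : Finset (Σ _ : ℕ × ℕ, ℕ × ℕ × ℕ) :=
  (I.TS ×ˢ range 2).sigma fun γ => range (nu I S γ) ×ˢ range p.M0 ×ˢ RV p.t p.mu γ.1

variable {I S}

theorem ta_Bt {j o : ℕ} (h : o < S.bl j) : ta (Bt I S j) o = I.rd (S.av j o) :=
  dif_pos (h.trans_le (S.bl2 j))

theorem mem_BB {j : ℕ} (h : j ≤ p.J k) : Bt I S j ∈ BB I S :=
  mem_image_of_mem _ (mem_range.2 (Nat.lt_succ_of_le h))

theorem of_BB {B : BT p} (h : B ∈ BB I S) : ∃ j, j ≤ p.J k ∧ Bt I S j = B := by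
  obtain ⟨j, h1, h2⟩ := mem_image.1 h
  exact ⟨j, Nat.le_of_lt_succ (mem_range.1 h1), h2⟩

theorem ta_mem {B : BT p} (h : B ∈ BB I S) {o : ℕ} (ho : o < B.1) : ta B o ∈ I.TS := by
  obtain ⟨j, -, rfl⟩ := of_BB h
  rw [ta_Bt ho]
  exact I.rdT _ (S.avM j o)

theorem lev_le {B : BT p} {o : ℕ} (ho : o < B.1) : I.lev (ta B o) ≤ kB I B :=
  le_sup (f := fun o => I.lev (ta B o)) (mem_range.2 ho)

theorem kB_le {B : BT p} (h : B ∈ BB I S) : kB I B ≤ p.kk :=
  Finset.sup_le fun _ ho => I.lev1 _ (ta_mem h (mem_range.1 ho))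

theorem len_pos {B : BT p} (h : B ∈ BB I S) : 1 ≤ B.1 := by
  obtain ⟨j, -, rfl⟩ := of_BB h
  exact S.bl1 j

theorem len_le {B : BT p} (h : B ∈ BB I S) : B.1 ≤ 2 * p.K := by
  obtain ⟨j, -, rfl⟩ := of_BB h
  exact S.bl2 j

theorem w_pos (B : BT p) : 0 < w I B := Nat.two_pow_pos _

theorem m_pos {B : BT p} (h : B ∈ BB I S) {o : ℕ} (ho : o < B.1) : 0 < m I B o :=
  I.mb0 _ (ta_mem h ho) _ (lev_le ho) (kB_le h)

theorem card_BB : #(BB I S) ≤ p.nB := by
  refine (card_le_card (t := range (2 * p.K + 1) ×ˢ range 2 ×ˢ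
    Fintype.piFinset fun _ : Fin (2 * p.K) => I.TS) fun B hB => ?_).trans ?_
  · obtain ⟨j, -, rfl⟩ := of_BB hB
    exact mem_product.2 ⟨mem_range.2 (Nat.lt_succ_of_le (S.bl2 j)), mem_product.2
      ⟨mem_range.2 (Nat.mod_lt _ two_pos), Fintype.mem_piFinset.2 fun o => I.rdT _ (S.avM j o)⟩⟩
  · rw [card_product, card_product, card_range, card_range, Fintype.card_piFinset_const, Pm.nB,
      mul_assoc]
    exact Nat.mul_le_mul_left _ (Nat.mul_le_mul_left _ (Nat.pow_le_pow_left I.cTS _))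

theorem sti {B : BT p} (h : B ∈ BB I S) {o : ℕ} (ho : o < B.1) {v v' : ℕ}
    (h1 : bn I B v o = bn I B v' o) (h2 : ul I B v o = ul I B v' o)
    (h3 : zl I B v o = zl I B v' o) : v = v' := by
  have hm := m_pos h ho
  obtain ⟨e1, e2⟩ := I.sti _ (ta_mem h ho) _ (lev_le ho) (kB_le h) _ (Nat.mod_lt _ hm) _
    (Nat.mod_lt _ hm) _ (Nat.mod_lt _ (w_pos B)) _ (Nat.mod_lt _ (w_pos B)) h2 h3
  have e3 : v / w I B = v' / w I B := Nat.ext_div_mod h1 e1
  exact Nat.ext_div_mod e3 e2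

theorem bn_lt {B : BT p} {v : ℕ} (hv : v < FB I S B * w I B) (o : ℕ) :
    bn I B v o < nb I S B o :=
  Nat.lt_succ_of_le (Nat.div_le_div_right ((Nat.div_lt_iff_lt_mul (w_pos B)).2 hv).le)

theorem mem_RM {π : ZMod 2} {B : BT p} {o b r : ℕ} : (⟨B, o, b, r⟩ : Σ _ : BT p, Σ _ : ℕ, ℕ × ℕ) ∈
    RM I S π ↔ (B ∈ BB I S ∧ o < B.1 ∧ b < nb I S B o) ∧ vr p.t p.mu (ta B o) r ∧
      rp p.t p.mu (ta B o) ((B.2.1 + o : ℕ) : ZMod 2) r = π := by
  simp only [RM, mem_sigma, mem_product, mem_range, mem_RR, and_assoc]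

theorem mem_RJ {γ : ℕ × ℕ} {ν u r : ℕ} : (⟨γ, ν, u, r⟩ : Σ _ : ℕ × ℕ, ℕ × ℕ × ℕ) ∈ RJ I S ↔
    γ ∈ I.TS ×ˢ range 2 ∧ ν < nu I S γ ∧ u < p.M0 ∧ vr p.t p.mu γ.1 r := by
  simp only [RJ, mem_sigma, mem_product, mem_range, mem_RV, and_assoc]

theorem FB_le (hA : ∀ π, #(RM I S π) ≤ p.nA) {B : BT p} (h : B ∈ BB I S) :
    FB I S B ≤ 2 ^ (p.t + p.mu) * p.nA := by
  obtain ⟨o, ho, e⟩ := exists_mem_eq_sup (range B.1) (nonempty_range_iff.2
    (Nat.one_le_iff_ne_zero.1 (len_pos h))) fun o => I.lev (ta B o)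
  have ho' := mem_range.1 ho
  have h1 : m I B o ≤ 2 ^ (p.t + p.mu) := by
    rw [m, kB, e]
    exact I.mb1 _ (ta_mem h ho')
  have h2 : nb I S B o ≤ p.nA := by
    refine le_trans ?_ (hA (rp p.t p.mu (ta B o) ((B.2.1 + o : ℕ) : ZMod 2) 0))
    rw [← card_range (nb I S B o)]
    refine card_le_card_of_injOn (fun b => ⟨B, o, b, 0⟩) (fun b hb => ?_) fun b _ b' _ e => ?_
    · exact mem_coe.2 (mem_RM.2 ⟨⟨h, ho', mem_range.1 hb⟩, vr_zero _, rfl⟩)
    · exact congrArg (fun x : (Σ _ : BT p, Σ _ : ℕ, ℕ × ℕ) => x.2.2.1) e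
  exact (Nat.lt_mul_div_succ _ (m_pos h ho')).le.trans (Nat.mul_le_mul h1 h2)

/-- blocks with types in `W` and a given inner label at the offset `o` -/
theorem cnt {tr : ℕ → ℕ} (t1 : ∀ j ≤ p.J k, tr j < FB I S (Bt I S j) * w I (Bt I S j))
    (t2 : ∀ B v, #{j ∈ range (p.J k + 1) | Bt I S j = B ∧ tr j = v} ≤ p.L0 * p.Q)
    (o : BT p → ℕ) (ho : ∀ B ∈ BB I S, o B < B.1) (W : Finset (BT p)) (z : V (Zt p.mu p.kk)) :
    #{j ∈ range (p.J k + 1) | Bt I S j ∈ W ∧ zl I (Bt I S j) (tr j) (o (Bt I S j)) = z} ≤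
      p.L0 * 2 ^ p.t * (∑ B ∈ W, nb I S B (o B)) * p.Q := by
  refine (card_le_mul_card_image_of_maps_to
    (f := fun j => (⟨Bt I S j, bn I (Bt I S j) (tr j) (o (Bt I S j)),
      ul I (Bt I S j) (tr j) (o (Bt I S j))⟩ : Σ _ : BT p, ℕ × V (Fin p.t)))
    (t := W.sigma fun B => range (nb I S B (o B)) ×ˢ univ) (fun j hj => ?_) (p.L0 * p.Q)
    fun y _ => ?_).trans (le_of_eq ?_)
  · obtain ⟨h1, h2, -⟩ := mem_filter.1 hj
    exact mem_sigma.2 ⟨h2, mem_product.2 ⟨mem_range.2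
      (bn_lt (t1 j (Nat.le_of_lt_succ (mem_range.1 h1))) _), mem_univ _⟩⟩
  · refine le_of_ne_imp fun j0 hj0 => ?_
    refine le_trans (card_le_card fun j hj => ?_) (t2 (Bt I S j0) (tr j0))
    obtain ⟨a1, a2⟩ := mem_filter.1 hj
    obtain ⟨a3, -, a4⟩ := mem_filter.1 a1
    obtain ⟨b1, b2⟩ := mem_filter.1 hj0
    obtain ⟨b3, -, b4⟩ := mem_filter.1 b1
    have e := a2.trans b2.symm
    have e1 : Bt I S j = Bt I S j0 := congrArg Sigma.fst e
    have e2 := congrArg (fun x : (Σ _ : BT p, ℕ × V (Fin p.t)) => x.2.1) e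
    have e3 := congrArg (fun x : (Σ _ : BT p, ℕ × V (Fin p.t)) => x.2.2) e
    have hB : Bt I S j0 ∈ BB I S := mem_image_of_mem _ b3
    simp only [e1] at e2 e3 a4
    exact mem_filter.2 ⟨a3, e1, sti hB (ho _ hB) e2 e3 (a4.trans b4.symm)⟩
  · simp only [card_sigma, card_product, card_range, card_univ, Fintype.card_pi, ZMod.card,
      prod_const, Fintype.card_fin, ← sum_mul]
    ring

end Pool.Agent.Work.MP_ede3c6_co.X.AlcExA
end
end

-- merged part: Pool.Agent.Work.MP_ede3c6_co.X.Par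
section
/-! Choice of the parameters.

PLAN (adapt `W/Par.lean`; now `hh`, `Kp`, `K`, `L0`, `ks`, `er` are constants that depend only on
`ε` and `m0`). `η = ε / 20`, `r ≥ 1 / η`, `t = t1 = r`, `μ0 = m0 + r`, `q = 2 ^ t - 1`.
`hh` with `r (er + 2 ^ hh ks (2 ^ (2 μ0) + er) + 1) ≤ 2 ^ (2 hh)` (`ks = 4 hh + 9`,
`er = 4 + 20 ks`), `Kp ≥ 16 r M0 2 ^ (2 hh) 2 ^ t`. `l = log 2 n`, `ν = log 2 l`,
`H = (ν + c0) (2 K) + c1` with constants such that `nT ≤ 2 ^ (ν + c0)` (`nT ≤ c l`) and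
`r (2 nB (2 K) (aS + 1) + M0 (...)) ≤ 2 ^ H ≤ nA`, `9 Mg < 2 ^ (H + 1)`;
`2 ^ H ≤ c l ^ (2 K)`; `nD` and the middle term of `hG` are at most `c' (2 ^ H) ^ 2`, so with
`Cx = 4 K + 1` all lost coordinates `1 + nL + 2 hh + s + 2 d + 2 ^ (...) + nD` are at most
`l ^ Cx` for large `n`. `nJ = n + 1 - l ^ Cx` (`≥ n / 2`), `kk` the largest number with
`q μ0 2 ^ kk ≤ nJ` (`kk ≥ 1` for large `n`), `mu = nJ / (q 2 ^ kk) + 1` (so `μ0 < mu ≤ 2 μ0`),
`s = l + 1`, `P' = n ^ 6`, `P = s P' - 1`, `d = 5 (l + 1)`, `G` = the rest of `n`,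
`L0 = 2 ^ (2 hh) - (er + 2 ^ hh ks (2 ^ mu + er) + 1)`. Any other choice that works is fine.

DONE with the choice of `W/Par.lean` for a constant `y`: `t = 2 μ0 + r`, `hh = 2 y`,
`Kp = 2 ^ (6 y)`, `H = (2 ν + 10) (2 K)`, `nJ = n - (2 (2 ^ H) ^ 2 + 43 l)`, `c = 12 K + 1`. -/

set_option autoImplicit false

namespace Pool.Agent.Work.MP_ede3c6_co.X

open Finset Vol

theorem Par_grow (C k : ℕ) : ∃ N : ℕ, ∀ x ≥ N, C * x ^ k ≤ 2 ^ x := by
  have h := (isLittleO_pow_const_const_pow_of_one_lt (R := ℝ) k (one_lt_two (α := ℝ))).def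
    (c := 1 / (C + 1)) (by positivity)
  obtain ⟨N, hN⟩ := Filter.eventually_atTop.1 h
  refine ⟨N, fun x hx => ?_⟩
  have := hN x hx
  rw [Real.norm_of_nonneg (by positivity), Real.norm_of_nonneg (by positivity), one_div,
    inv_mul_eq_div, le_div_iff₀ (by positivity)] at this
  have h3 : (C : ℝ) * x ^ k ≤ 2 ^ x := by nlinarith [pow_nonneg (Nat.cast_nonneg (α := ℝ) x) k]
  exact_mod_cast h3

theorem Par_mu {q μ0 A : ℕ} (hq : 1 ≤ q) (h0 : 1 ≤ μ0) (h : 2 * (q * μ0) ≤ A) : ∃ mu kk : ℕ,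
    μ0 < mu ∧ mu ≤ 2 * μ0 ∧ 1 ≤ kk ∧ q * (mu - 1) * 2 ^ kk ≤ A ∧ A ≤ q * mu * 2 ^ kk := by
  have ha : 0 < q * μ0 := Nat.mul_pos hq h0
  have h3 : 2 ≤ A / (q * μ0) := (Nat.le_div_iff_mul_le ha).2 h
  have h1 := Nat.pow_log_le_self 2 (show A / (q * μ0) ≠ 0 by omega)
  have h2 := Nat.lt_pow_succ_log_self one_lt_two (A / (q * μ0))
  have h4 := Nat.log_pos one_lt_two h3
  generalize Nat.log 2 (A / (q * μ0)) = kk at h1 h2 h4
  rw [Nat.le_div_iff_mul_le ha] at h1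
  rw [Nat.div_lt_iff_lt_mul ha] at h2
  have hb : 0 < q * 2 ^ kk := by positivity
  refine ⟨A / (q * 2 ^ kk) + 1, kk,
    Nat.lt_succ_of_le ((Nat.le_div_iff_mul_le hb).2 (le_of_eq_of_le (by ring) h1)),
    (Nat.div_lt_iff_lt_mul hb).2 (lt_of_lt_of_eq h2 (by rw [Nat.succ_eq_add_one]; ring)), h4,
    le_of_eq_of_le (by rw [Nat.add_sub_cancel]; ring) (Nat.div_mul_le_self A (q * 2 ^ kk)),
    ((Nat.div_lt_iff_lt_mul hb).1 (Nat.lt_succ_self _)).le.trans_eq (by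
      rw [Nat.succ_eq_add_one]; ring)⟩

/-- sizes of the iterated logarithms -/
structure Par_L (r t n l ν y : ℕ) : Prop where
  r4 : 4 ≤ r
  rt : r ≤ t
  y1 : 2 ^ y ≤ ν
  ν1 : 2 ^ ν ≤ l
  ν2 : l < 2 ^ (ν + 1)
  l1 : 2 ^ l ≤ n
  l2 : n < 2 ^ (l + 1)
  hY : 16 * r * 2 ^ t * (8 * y + 11) ^ 2 ≤ 2 ^ y
  hV : 36 * ν ^ 8 ≤ 2 ^ ν
  hL : 86 * l ^ 2 ≤ 2 ^ l
  hN : 4 * n ^ 8 ≤ 2 ^ n

theorem Par_L.b {r t n l ν y : ℕ} (h : Par_L r t n l ν y) : 2 ^ t ≤ 2 ^ y ∧ t ≤ y ∧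
    8 * y + 11 ≤ 2 ^ y ∧ 36 * ν ^ 8 ≤ l ∧ ν ≤ l ∧ 86 * l ^ 2 ≤ n ∧ 86 * l ≤ n ∧ 11 ≤ ν := by
  have h4 := h.r4
  have a1 : 2 ^ t ≤ 2 ^ y := le_trans (by
    calc 2 ^ t = 1 * 2 ^ t * 1 := by ring
      _ ≤ 16 * r * 2 ^ t * (8 * y + 11) ^ 2 := by
        gcongr
        · omega
        · exact Nat.one_le_pow _ _ (by omega)) h.hY
  have a2 : 8 * y + 11 ≤ 2 ^ y := le_trans (by
    calc 8 * y + 11 = 1 * 1 * (8 * y + 11) ^ 1 := by ring
      _ ≤ 16 * r * 2 ^ t * (8 * y + 11) ^ 2 := by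
        gcongr
        · omega
        · exact Nat.one_le_two_pow
        · omega
        · omega) h.hY
  have a3 : ν ≤ l := (Nat.lt_two_pow_self.le).trans h.ν1
  have a4 : 11 ≤ ν := by linarith [h.y1]
  have a5 := h.hL.trans h.l1
  refine ⟨a1, (Nat.pow_le_pow_iff_right (by norm_num)).1 a1, a2, h.hV.trans h.ν1, a3, a5, ?_, a4⟩
  exact le_trans (Nat.mul_le_mul_left _ (Nat.le_self_pow (by norm_num) l)) a5

theorem Par_L.c {r t n l ν y K H : ℕ} (h : Par_L r t n l ν y) (hK : K = (8 * y + 8) * (2 ^ y) ^ 6)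
    (hH : H = (2 * ν + 10) * (2 * K)) : ((2 ^ y) ^ 6 ≤ K ∧ 8 * y + 8 ≤ K ∧ K ≤ ν ^ 7) ∧
      (6 * H ≤ l ∧ 2 * ν + 10 ≤ H ∧ 20 * K ≤ H) ∧ 8 * (2 ^ H * 2 ^ H) ≤ n ∧
      2 * (2 ^ H * 2 ^ H) + 43 * l + 1 ≤ l ^ (12 * K + 1) := by
  obtain ⟨-, -, b3, b4, b5, -, -, b8⟩ := h.b
  have k2 : 8 * y + 8 ≤ K := hK ▸ Nat.le_mul_of_pos_right _ (by positivity)
  have k3 : K ≤ ν ^ 7 := by
    calc K = (8 * y + 8) * (2 ^ y) ^ 6 := hK
      _ ≤ ν * ν ^ 6 := by
          gcongr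
          · linarith [h.y1]
          · exact h.y1
      _ = ν ^ 7 := by ring
  have c1 : 6 * H ≤ l := by
    refine le_trans ?_ b4
    calc 6 * H = 6 * ((2 * ν + 10) * (2 * K)) := by rw [hH]
      _ ≤ 6 * ((3 * ν) * (2 * ν ^ 7)) := by
          gcongr
          omega
      _ = 36 * ν ^ 8 := by ring
  have c2 : 2 * ν + 10 ≤ H := hH ▸ Nat.le_mul_of_pos_right _ (by omega)
  refine ⟨⟨hK ▸ Nat.le_mul_of_pos_left _ (by omega), k2, k3⟩, ⟨c1, c2, by clear * - K H ν hH c1 c2 hK k2 k3; nlinarith⟩, ?_, ?_⟩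
  · refine le_trans ?_ h.l1
    rw [← pow_add, show 8 = 2 ^ 3 by norm_num, ← pow_add]
    exact Nat.pow_le_pow_right (by norm_num) (by omega)
  · have a1 : 2 ^ H * 2 ^ H ≤ l ^ (12 * K) := by
      clear * - H ν K l y hH k2 b8 r t n h
      refine le_trans ?_ (Nat.pow_le_pow_left h.ν1 _)
      rw [← pow_add, ← pow_mul]
      exact Nat.pow_le_pow_right (by norm_num) (by nlinarith)
    have a2 : l ≤ l ^ (12 * K) := Nat.le_self_pow (by omega) _
    have a3 := Nat.mul_le_mul_left (l ^ (12 * K)) (show 46 ≤ l by omega)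
    rw [pow_succ]
    omega

/-- the choice of the parameters -/
structure Par_H (p : Pm) (r n l ν y : ℕ) : Prop extends Par_L r p.t n l ν y where
  t1 : p.t1 = r
  mu1 : r ≤ p.mu
  mu2 : p.mu + r ≤ p.t
  kk0 : 1 ≤ p.kk
  J0 : 1 ≤ p.nJ
  J1 : (2 ^ p.t - 1) * (p.mu - 1) * 2 ^ p.kk ≤ p.nJ
  J2 : p.nJ ≤ (2 ^ p.t - 1) * p.mu * 2 ^ p.kk
  J3 : p.nJ + (2 * (2 ^ p.H * 2 ^ p.H) + 43 * l) = n
  hh : p.hh = 2 * y
  s : p.s = l + 1
  d : p.d = 5 * (l + 1)
  P' : p.P' = n ^ 6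
  P : p.P = (l + 1) * n ^ 6 - 1
  Kp : p.Kp = (2 ^ y) ^ 6
  H : p.H = (2 * ν + 10) * (2 * p.K)
  G : p.G = n - (1 + p.nL + (p.hh + p.hh + (p.s + p.d * 2)))
  L0 : p.L0 = 2 ^ (p.hh + p.hh) - (p.er + 2 ^ p.hh * (p.ks * (2 ^ p.mu + p.er)) + 1)

namespace Par_H
variable {p : Pm} {r n l ν y : ℕ} (h : Par_H p r n l ν y)
include h

theorem M0 : p.M0 = 4 * y + 3 := by rw [Pm.M0, h.hh]; ring

theorem ks : p.ks = 8 * y + 9 := by rw [Pm.ks, h.M0]; ring

theorem X2 : 2 ^ (p.hh + p.hh) = (2 ^ y) ^ 4 := by rw [h.hh]; ring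

theorem Ke : p.K = (8 * y + 8) * (2 ^ y) ^ 6 := by rw [Pm.K, h.M0, h.Kp]; ring

theorem K : p.Kp ≤ p.K ∧ 8 * y + 8 ≤ p.K ∧ p.K ≤ ν ^ 7 := h.Kp ▸ (h.c h.Ke h.H).1

theorem Hb : 6 * p.H ≤ l ∧ 2 * ν + 10 ≤ p.H ∧ 20 * p.K ≤ p.H := (h.c h.Ke h.H).2.1

theorem kk : 2 ^ p.kk ≤ n ∧ p.kk ≤ l := by
  have a0 : p.t < 2 ^ p.t := Nat.lt_two_pow_self
  have r4 := h.r4
  have rt := h.rt
  have m1 := h.mu1
  have a : 2 ^ p.kk ≤ n := le_trans (le_trans (Nat.le_mul_of_pos_left _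
    (Nat.mul_pos (by omega) (by omega))) h.J1) (h.J3 ▸ Nat.le_add_right _ _)
  have := (Nat.pow_lt_pow_iff_right (by norm_num)).1 (a.trans_lt h.l2)
  exact ⟨a, by omega⟩

theorem nL : p.nL ≤ 2 * l := by
  obtain ⟨-, b2, -⟩ := h.b
  obtain ⟨-, k2, -⟩ := h.K
  obtain ⟨c1, c2, c3⟩ := h.Hb
  have := h.kk.2
  have := h.mu2
  have := h.rt
  rw [Pm.nL, h.t1]
  omega

theorem er : r * (p.er + 2 ^ p.hh * (p.ks * (2 ^ p.mu + p.er)) + 1) ≤ 2 ^ (p.hh + p.hh) := by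
  obtain ⟨b1, -, b3, -⟩ := h.b
  have hY := h.hY
  have e1 : 2 ^ p.hh = (2 ^ y) ^ 2 := by rw [h.hh]; ring
  have t0 : 1 ≤ 2 ^ p.t := Nat.one_le_two_pow
  have m0 : 1 ≤ 2 ^ p.mu := Nat.one_le_two_pow
  have m1 : 2 ^ p.mu ≤ 2 ^ y :=
    (Nat.pow_le_pow_right (by norm_num) (by linarith [h.mu2])).trans b1
  rw [h.X2, e1, Pm.er, h.ks]
  generalize 2 ^ y = Y at *
  generalize 2 ^ p.mu = m at *
  obtain ⟨k, hk⟩ : ∃ k, k = 8 * y + 9 := ⟨_, rfl⟩
  rw [← hk]
  have a1 : m + (4 + 20 * k) ≤ 7 * (Y * k) := by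
    have : 11 * k ≤ Y * k := Nat.mul_le_mul_right _ (by omega)
    have : Y * 1 ≤ Y * k := Nat.mul_le_mul_left _ (by omega)
    omega
  have a2 : 1 ≤ Y ^ 2 * k := Nat.mul_pos (pow_pos (by omega) _) (by omega)
  generalize 4 + 20 * k = e at *
  calc r * (e + Y ^ 2 * (k * (m + e)) + 1) ≤ r * (e + Y ^ 2 * (k * (m + e)) + m) := by gcongr
    _ = r * ((m + e) * (1 + Y ^ 2 * k)) := by ring
    _ ≤ r * (7 * (Y * k) * (2 * (Y ^ 2 * k))) := by
        gcongr
        omega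
    _ = 14 * r * 1 * k ^ 2 * Y ^ 3 := by ring
    _ ≤ 16 * r * 2 ^ p.t * (8 * y + 11) ^ 2 * Y ^ 3 := by
        gcongr
        · norm_num
        · omega
    _ ≤ Y * Y ^ 3 := Nat.mul_le_mul_right _ hY
    _ = Y ^ 4 := by ring

/-- the quantities that are bounded in terms of the length of a stretch -/
theorem big : p.nD ≤ 2 ^ p.H * 2 ^ p.H ∧
    2 ^ (p.t1 + p.t1 + (p.H + 1) + p.t + p.mu) ≤ 2 ^ p.H * 2 ^ p.H ∧ r ≤ 2 ^ p.H ∧
    r * (2 * p.nB * (2 * p.K) * (aS p.t p.mu + 1) + p.M0 * (p.L0 * 2 ^ p.t *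
      (4 * p.nB * (aS p.t p.mu + 1)) + 2 * p.nT * (aS p.t p.mu + 1))) ≤ p.nA := by
  obtain ⟨b1, b2, b3, -, -, -, -, b8⟩ := h.b
  obtain ⟨-, k2, -⟩ := h.K
  obtain ⟨-, c2, c3⟩ := h.Hb
  have r4 := h.r4
  have rt := h.rt
  have m2 := h.mu2
  have yν : y ≤ ν := Nat.lt_two_pow_self.le.trans h.y1
  have pw : ∀ {a b : ℕ}, a ≤ b → 2 ^ a ≤ 2 ^ b := fun hab => Nat.pow_le_pow_right (by norm_num) hab
  have lt : ∀ {a b : ℕ}, a ≤ b → a + 1 ≤ 2 ^ b := fun hab =>
    le_trans Nat.lt_two_pow_self (pw hab)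
  have m3 : p.mu + 1 ≤ 2 ^ p.t := lt (by omega)
  have a0 : aS p.t p.mu + 1 ≤ 2 ^ (p.t + p.t) := by
    clear * - p m3
    rw [pow_add, aS]
    have : (2 ^ p.t - 1) * p.mu ≤ 2 ^ p.t * p.mu := Nat.mul_le_mul_right _ (Nat.sub_le _ _)
    have : 2 ^ p.t * (p.mu + 1) ≤ 2 ^ p.t * 2 ^ p.t := Nat.mul_le_mul_left _ m3
    have : 1 ≤ 2 ^ p.t := Nat.one_le_two_pow
    linarith
  have a1 : p.nT ≤ 2 ^ (2 * ν + 2) := by
    clear * - p ν lt r y b2 r4 m2 yν l n h pw a0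
    have e1 : p.mu * (p.kk + 1) ≤ 2 ^ ν * 2 ^ (ν + 1) :=
      Nat.mul_le_mul (by linarith [lt (show p.mu ≤ ν by omega)]) (by linarith [h.kk.2, h.ν2])
    have e2 : 2 ^ (p.t + p.t) ≤ 2 ^ (ν + (ν + 1)) := pw (by omega)
    rw [← pow_add] at e1
    rw [Pm.nT, show 2 * ν + 2 = ν + (ν + 1) + 1 by ring, pow_succ]
    omega
  obtain ⟨U, hU⟩ : ∃ U, U = 2 ^ (2 * p.K) := ⟨_, rfl⟩
  obtain ⟨Z, hZ⟩ : ∃ Z, Z = (2 ^ (2 * ν + 2)) ^ (2 * p.K) := ⟨_, rfl⟩
  have eH : 2 ^ p.H = U ^ 8 * Z := by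
    rw [hU, hZ, h.H, ← pow_mul, ← pow_mul, ← pow_add]
    congr 1
    ring
  have U14 : 14 ≤ U := by clear * - U p hU lt r ν y k2 Z; linarith [lt (show 14 ≤ 2 * p.K by omega)]
  have u1 : aS p.t p.mu + 1 ≤ U := hU ▸ a0.trans (pw (by omega))
  have u2 : 2 * p.K + 1 ≤ U := hU ▸ lt le_rfl
  have u3 : p.M0 ≤ U := by rw [h.M0]; omega
  have u4 : p.L0 ≤ U := by
    rw [h.L0, hU]
    exact (Nat.sub_le _ _).trans (pw (by rw [h.hh]; omega))
  have u5 : 2 ^ p.t ≤ U := hU ▸ pw (by omega)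
  have u6 : r ≤ U := by omega
  have u7 : 2 ^ (p.t + p.mu) ≤ U := hU ▸ pw (by omega)
  have z1 : p.nT ≤ Z := hZ ▸ a1.trans (Nat.le_self_pow (by omega) _)
  have z2 : p.nB ≤ U * 2 * Z := by
    rw [Pm.nB, hZ]
    gcongr
  have z0 : 1 ≤ Z := hZ ▸ Nat.one_le_pow _ _ (by positivity)
  have n1 : p.nA ≤ U * (2 * 2 ^ p.H) := by
    rw [Pm.nA, pow_succ', hU]
    refine Nat.mul_le_mul_right _ (le_trans (Nat.mul_le_mul (Nat.sub_le _ _) (Nat.sub_le _ _)) ?_)
    rw [← pow_add, h.t1]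
    exact pw (by omega)
  have n2 : 2 ^ p.H ≤ p.nA := by
    have : 1 ≤ 2 ^ p.t1 - 1 := by
      have := lt (show 1 ≤ p.t1 by rw [h.t1]; omega)
      omega
    exact (pw (Nat.le_succ _)).trans (Nat.le_mul_of_pos_left _ (Nat.mul_pos this this))
  have U1 : 1 ≤ U := by omega
  refine ⟨?_, ?_, by clear * - r p lt ν y b2 b8 c2 rt yν U Z n2; linarith [lt (show r ≤ p.H by omega)], le_trans ?_ n2⟩
  · rw [Pm.nD]
    calc p.nB * (2 * p.K) * (2 ^ (p.t + p.mu) * p.nA)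
        ≤ U * 2 * Z * U * (U * (U * (2 * 2 ^ p.H))) := by
          gcongr
          omega
      _ = 4 * U ^ 4 * Z * 2 ^ p.H := by ring
      _ ≤ U * U ^ 7 * Z * 2 ^ p.H := by
          gcongr
          · omega
          · norm_num
      _ = 2 ^ p.H * 2 ^ p.H := by rw [eH]; ring
  · rw [← pow_add, h.t1]
    exact pw (by omega)
  · calc r * (2 * p.nB * (2 * p.K) * (aS p.t p.mu + 1) + p.M0 * (p.L0 * 2 ^ p.t *
          (4 * p.nB * (aS p.t p.mu + 1)) + 2 * p.nT * (aS p.t p.mu + 1)))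
        ≤ U * (2 * (U * 2 * Z) * U * U + U * (U * U * (4 * (U * 2 * Z) * U) + 2 * Z * U)) := by
          clear * - r U p Z u6 z2 ν y hU u2 u1 u3 u4 u5 z1
          gcongr
          omega
      _ = 4 * U ^ 4 * Z + 8 * U ^ 6 * Z + 2 * U ^ 3 * Z := by ring
      _ ≤ 4 * U ^ 7 * Z + 8 * U ^ 7 * Z + 2 * U ^ 7 * Z := by clear * - U Z U1; gcongr <;> norm_num
      _ = 14 * U ^ 7 * Z := by ring
      _ ≤ U * U ^ 7 * Z := by gcongr
      _ = 2 ^ p.H := by rw [eH]; ring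

theorem rest : p.nJ + 2 ^ (p.t1 + p.t1 + (p.H + 1) + p.t + p.mu) + p.nD +
    (1 + p.nL + (p.hh + p.hh + (p.s + p.d * 2))) ≤ n := by
  obtain ⟨-, b2, b3, -, b5, b6, -, b8⟩ := h.b
  obtain ⟨g1, g2, -⟩ := h.big
  have yν : y ≤ ν := Nat.lt_two_pow_self.le.trans h.y1
  have a2 : 1 + p.nL + (p.hh + p.hh + (p.s + p.d * 2)) ≤ 43 * l := by
    have := h.nL
    rw [h.hh, h.s, h.d]
    omega
  have := h.J3
  omega

theorem dim : n = 1 + p.nL + (p.hh + p.hh + (p.s + (p.G + p.d * 2))) := by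
  have := (Nat.le_add_left _ _).trans h.rest
  have := h.G
  omega

theorem P1 : p.P + 1 = (l + 1) * n ^ 6 ∧ n ^ 6 ≤ p.P ∧ 1 ≤ n ^ 6 := by
  obtain ⟨-, -, -, -, b5, -, b7, b8⟩ := h.b
  have a1 : 1 ≤ n ^ 6 := Nat.one_le_pow _ _ (by omega)
  have a2 : 2 * n ^ 6 ≤ (l + 1) * n ^ 6 := Nat.mul_le_mul_right _ (by omega)
  have := h.P
  omega

theorem ok : p.Ok n := by
  obtain ⟨-, b2, b3, -, b5, -, b7, b8⟩ := h.b
  obtain ⟨c1, c2, -⟩ := h.Hb
  obtain ⟨p1, p2, p3⟩ := h.P1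
  have r4 := h.r4
  have pw : ∀ {a b : ℕ}, a ≤ b → 2 ^ a ≤ 2 ^ b := fun hab => Nat.pow_le_pow_right (by norm_num) hab
  have hd := h.dim
  have he := le_trans (Nat.mul_le_mul_right _ r4) h.er
  have hL := h.L0
  have ν2 := h.ν2
  refine ⟨by clear * - p r r4 n l ν y h hd p1; linarith [h.rt], by clear * - p r r4 n l ν y h hd p1; linarith [h.mu1], by omega, ?_, by omega, h.kk0, h.J1, h.J2,
    hd, ?_, ?_, by rw [p1, h.s, h.P'], ?_, ?_, by omega⟩
  · rw [h.Kp]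
    exact Nat.one_le_pow _ _ (by positivity)
  · have := h.rest
    omega
  · have := h.l2
    rw [h.s]
    omega
  · have a1 := pw (show ν + 1 + 6 ≤ p.H + 1 by omega)
    have a2 := h.nL
    rw [pow_add _ _ 6] at a1
    rw [Pm.Mg]
    omega
  · have yν : y ≤ ν := Nat.lt_two_pow_self.le.trans h.y1
    rw [h.ks, p1, h.d, show 5 * (l + 1) * 2 = (l + 1) * 8 + (l + 1) * 2 by ring, pow_add, pow_mul]
    refine Nat.mul_le_mul ?_ ((le_trans (by omega) b3).trans (pw (by omega)))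
    have a1 : p.G * ((l + 1) * n ^ 6) ≤ n * (n * n ^ 6) := by gcongr <;> omega
    have a2 : n ^ 8 < (2 ^ (l + 1)) ^ 8 := Nat.pow_lt_pow_left h.l2 (by norm_num)
    have e : n * (n * n ^ 6) = n ^ 8 := by ring
    omega

theorem T : 2 ^ (n - 1) = 2 ^ p.nL * (2 ^ (p.hh + p.hh) * p.Q) := by
  rw [Pm.Q, ← pow_add, ← pow_add]
  congr 1
  have := h.dim
  omega

theorem fit {C k : ℕ} (hC : C ≤ 2 ^ (n - 1)) (hk : k ≤ 2 * C) :
    (p.N k + 1) * ((p.s + 1) * p.ks) ≤ 2 ^ (p.G + p.d * 2) ∧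
    r * (p.Lc + p.K + 2 * p.Wb C k) ≤ 2 * 2 ^ (n - 1) ∧
    r * (p.M0 * (p.L0 * 2 ^ p.t) * (4 * p.Wb C k)) ≤ 2 ^ (n - 1) := by
  obtain ⟨b1, b2, b3, b4, b5, b6, b7, b8⟩ := h.b
  obtain ⟨k1, k2, k3⟩ := h.K
  obtain ⟨c1, -, c3⟩ := h.Hb
  obtain ⟨p1, p2, p3⟩ := h.P1
  have r4 := h.r4
  have rt := h.rt
  have y1 := h.y1
  have yν : y ≤ ν := Nat.lt_two_pow_self.le.trans y1
  have hT := h.T
  have t8 : 2 * n ^ 8 ≤ 2 ^ (n - 1) := by
    have := h.hN
    rw [show n = n - 1 + 1 by omega, pow_succ 2, show n - 1 + 1 = n by omega] at this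
    omega
  have pn : ∀ {a b : ℕ}, a ≤ b → n ^ a ≤ n ^ b := fun hab => Nat.pow_le_pow_right (by omega) hab
  have l1 : n ^ 6 ≤ p.Lc := p2.trans
    ((Nat.le_mul_of_pos_right _ (by omega)).trans (Nat.le_add_right _ _))
  have l2 : p.Lc + p.K ≤ 2 * n ^ 7 := by
    clear * - l p n r ν y C k b5 b8 c1 c3 b2 b6 b7 k2 r4 rt p1 pn h b3 y1
    have a1 : (l + 1) * p.K ≤ n := le_trans (Nat.mul_le_mul (show _ ≤ 2 * l by omega)
      (show _ ≤ l by omega)) (by linarith [Nat.zero_le (l * l)])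
    have a2 : p.P * p.K + p.K ≤ n ^ 7 := by
      calc p.P * p.K + p.K = (p.P + 1) * p.K := by ring
        _ = (l + 1) * p.K * n ^ 6 := by rw [p1]; ring
        _ ≤ n * n ^ 6 := Nat.mul_le_mul_right _ a1
        _ = n ^ 7 := by ring
    have a3 := pn (show 1 ≤ 7 by norm_num)
    have a4 := h.nL
    rw [pow_one] at a3
    rw [Pm.Lc, Pm.Mg, h.M0]
    omega
  have f1 : (p.N k + 1) * (2 * n ^ 5) ≤ 2 ^ (n - 1) := by
    clear * - k p n l1 pn r l ν y C hC hk hT t8 b5 b7 b8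
    have a1 : k / p.Lc * n ^ 6 ≤ k := (Nat.mul_le_mul_left _ l1).trans (Nat.div_mul_le_self _ _)
    have a2 := pn (show 6 ≤ 8 by norm_num)
    refine Nat.le_of_mul_le_mul_right (c := n) ?_ (by omega)
    calc (p.N k + 1) * (2 * n ^ 5) * n = 2 * (k / p.Lc * n ^ 6) + 4 * n ^ 6 := by rw [Pm.N]; ring
      _ ≤ 2 ^ (n - 1) * 6 := by omega
      _ ≤ 2 ^ (n - 1) * n := Nat.mul_le_mul_left _ (by omega)
  have am : p.Am ≤ n := by
    have := h.J3
    rw [Pm.Am]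
    omega
  have w1 : p.Kp * p.Wb C k ≤ 4 * 2 ^ (n - 1) := by
    clear * - p C k n r l ν y b6 b7 k1 c1 c3 b5 b8 am pn hC hT t8 l2 f1
    have a1 := Nat.mul_div_le (2 * C + p.Lc + p.K) p.Kp
    have a2 : p.Kp * ((p.N k + 1) * (1 + p.Am)) ≤ (p.N k + 1) * (2 * n ^ 5) := by
      calc p.Kp * ((p.N k + 1) * (1 + p.Am)) ≤ n * ((p.N k + 1) * (2 * n)) := by gcongr <;> omega
        _ = (p.N k + 1) * (2 * n ^ 2) := by ring
        _ ≤ _ := by
          have := pn (show 2 ≤ 5 by norm_num)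
          gcongr
    have a3 := pn (show 7 ≤ 8 by norm_num)
    rw [Pm.Wb, mul_add]
    omega
  have w2 : 16 * (r * (p.M0 * (p.L0 * 2 ^ p.t))) ≤ p.Kp := by
    clear * - p y r n l ν h C k
    have a1 : p.L0 ≤ (2 ^ y) ^ 4 := by rw [h.L0, h.X2]; exact Nat.sub_le _ _
    have a2 : p.M0 ≤ (8 * y + 11) ^ 2 :=
      le_trans (by rw [h.M0]; omega) (Nat.le_self_pow (by norm_num) _)
    calc 16 * (r * (p.M0 * (p.L0 * 2 ^ p.t)))
        ≤ 16 * (r * ((8 * y + 11) ^ 2 * ((2 ^ y) ^ 4 * 2 ^ p.t))) := by gcongr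
      _ = 16 * r * 2 ^ p.t * (8 * y + 11) ^ 2 * (2 ^ y) ^ 4 := by ring
      _ ≤ 2 ^ y * (2 ^ y) ^ 4 := Nat.mul_le_mul_right _ h.hY
      _ = (2 ^ y) ^ 5 := by ring
      _ ≤ p.Kp := by rw [h.Kp]; exact Nat.pow_le_pow_right (by positivity) (by norm_num)
  refine ⟨?_, ?_, ?_⟩
  · refine Nat.le_of_mul_le_mul_right (c := 2 ^ p.nL * (2 ^ (p.hh + p.hh) * 2 ^ p.s)) ?_
      (by positivity)
    have a1 : 2 ^ p.nL ≤ n ^ 2 := le_trans (Nat.pow_le_pow_right (by norm_num)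
      (h.nL.trans_eq (mul_comm _ _))) (by rw [pow_mul]; exact Nat.pow_le_pow_left h.l1 2)
    have a2 : 2 ^ (p.hh + p.hh) ≤ n := by
      have e1 : (2 ^ y) ^ 4 ≤ ν ^ 8 :=
        (Nat.pow_le_pow_left y1 4).trans (Nat.pow_le_pow_right (by omega) (by norm_num))
      rw [h.X2]
      omega
    have a3 : 2 ^ p.s ≤ 2 * n := by
      have := h.l1
      rw [h.s, pow_succ]
      omega
    have a4 : (p.s + 1) * p.ks ≤ n := by
      clear * - p n l r ν y h C k b5 b8 b3 y1 b2 b6 b7 k2 c1 c3 r4 rt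
      rw [h.s, h.ks]
      exact le_trans (Nat.mul_le_mul (show _ ≤ 2 * l by omega) (show _ ≤ l by omega))
        (by linarith [Nat.zero_le (l * l)])
    calc (p.N k + 1) * ((p.s + 1) * p.ks) * (2 ^ p.nL * (2 ^ (p.hh + p.hh) * 2 ^ p.s))
        ≤ (p.N k + 1) * n * (n ^ 2 * (n * (2 * n))) := by gcongr
      _ = (p.N k + 1) * (2 * n ^ 5) := by ring
      _ ≤ 2 ^ (n - 1) := f1
      _ = _ := by rw [hT, Pm.Q, pow_add 2 p.s]; ring
  · have a1 : r * (p.Lc + p.K) ≤ n * (2 * n ^ 7) := Nat.mul_le_mul (by omega) l2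
    have a2 : 16 * r ≤ p.Kp := le_trans (Nat.mul_le_mul_left _ (Nat.le_mul_of_pos_right _
      (Nat.mul_pos (by rw [h.M0]; omega) (Nat.mul_pos h.ok.L00 (by positivity))))) w2
    have a3 := Nat.mul_le_mul_right (p.Wb C k) a2
    have e : n * (2 * n ^ 7) = 2 * n ^ 8 := by ring
    linarith only [e, t8, w1, a1, a3, Nat.zero_le (2 ^ (n - 1))]
  · have a3 := Nat.mul_le_mul_right (p.Wb C k) w2
    linarith only [w1, a3]

end Par_H

theorem Par_ex {r μ0 n l ν y : ℕ} (hμ : r ≤ μ0) (h : Par_L r (2 * μ0 + r) n l ν y) :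
    ∃ p : Pm, Par_H p r n l ν y ∧ μ0 ≤ p.mu := by
  obtain ⟨b1, b2, -, b4, -, -, b7, b8⟩ := h.b
  have r4 := h.r4
  obtain ⟨H, hH⟩ : ∃ H, H = (2 * ν + 10) * (2 * ((8 * y + 8) * (2 ^ y) ^ 6)) := ⟨_, rfl⟩
  obtain ⟨-, -, a1, -⟩ := h.c rfl hH
  have a0 : 2 * μ0 + r < 2 ^ (2 * μ0 + r) := Nat.lt_two_pow_self
  have a2 : (2 ^ (2 * μ0 + r) - 1) * μ0 ≤ ν ^ 8 := by
    have yν : y ≤ ν := Nat.lt_two_pow_self.le.trans h.y1
    calc (2 ^ (2 * μ0 + r) - 1) * μ0 ≤ ν * ν :=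
          Nat.mul_le_mul ((Nat.sub_le _ _).trans (b1.trans h.y1)) (by omega)
      _ = ν ^ 2 := by ring
      _ ≤ ν ^ 8 := Nat.pow_le_pow_right (by omega) (by norm_num)
  have a3 : 1 ≤ ν ^ 8 := Nat.one_le_pow _ _ (by omega)
  obtain ⟨mu, kk, m1, m2, m3, m4, m5⟩ := Par_mu (q := 2 ^ (2 * μ0 + r) - 1) (μ0 := μ0)
    (A := n - (2 * (2 ^ H * 2 ^ H) + 43 * l)) (by omega) (by omega) (by omega)
  let p1 : Pm := ⟨2 * μ0 + r, mu, kk, n - (2 * (2 ^ H * 2 ^ H) + 43 * l), r, H, 2 * y, l + 1, 0,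
    5 * (l + 1), (l + 1) * n ^ 6 - 1, n ^ 6, (2 ^ y) ^ 6, 0⟩
  refine ⟨{ p1 with
    G := n - (1 + p1.nL + (p1.hh + p1.hh + (p1.s + p1.d * 2)))
    L0 := 2 ^ (p1.hh + p1.hh) - (p1.er + 2 ^ p1.hh * (p1.ks * (2 ^ p1.mu + p1.er)) + 1) },
    ⟨h, rfl, hμ.trans m1.le, ?_, m3, ?_, m4, m5, ?_, rfl, rfl, rfl, rfl, rfl, rfl, ?_, rfl, rfl⟩,
    m1.le⟩
  · show mu + r ≤ 2 * μ0 + r
    omega
  · show 1 ≤ n - (2 * (2 ^ H * 2 ^ H) + 43 * l)
    omega
  · show n - (2 * (2 ^ H * 2 ^ H) + 43 * l) + (2 * (2 ^ H * 2 ^ H) + 43 * l) = n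
    omega
  · show H = (2 * ν + 10) * (2 * ((2 * (2 * (2 * y) + 3) + 2) * (2 ^ y) ^ 6))
    rw [hH]
    ring

theorem Par_sub {η : ℝ} {r t : ℕ} (hr : 1 ≤ η * r) (hη : 0 < η) (h : r ≤ t) :
    (1 - η) * 2 ^ t ≤ ((2 ^ t - 1 : ℕ) : ℝ) := by
  have a1 : (r : ℝ) ≤ 2 ^ t := by exact_mod_cast h.trans Nat.lt_two_pow_self.le
  rw [Nat.cast_sub Nat.one_le_two_pow]
  push_cast
  nlinarith

theorem par_ex (ε : ℝ) (hε : 0 < ε) (hε1 : ε ≤ 1) (m0 : ℕ) : ∃ c n0 : ℕ, ∀ n ≥ n0, ∃ p : Pm,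
    p.Ok n ∧ m0 ≤ p.mu ∧ n ≤ p.Am + Nat.log 2 n ^ c ∧
      ∀ C k : ℕ, (C : ℝ) ≤ (1 - ε) * 2 ^ (n - 1) → k ≤ 2 * C → p.Fit (ε / 20) C k := by
  obtain ⟨η, rfl⟩ : ∃ η, ε = 20 * η := ⟨ε / 20, by ring⟩
  rw [show 20 * η / 20 = η by ring]
  have hη : 0 < η := by linarith
  obtain ⟨r, hr⟩ := exists_nat_ge (1 / η)
  rw [div_le_iff₀' hη] at hr
  have r4 : 4 ≤ r := by
    have : (4 : ℝ) ≤ r := by nlinarith
    exact_mod_cast this
  obtain ⟨N1, h1⟩ := Par_grow (16 * r * 2 ^ (2 * (m0 + r) + r) * 19 ^ 2) 2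
  obtain ⟨N2, h2⟩ := Par_grow 36 8
  obtain ⟨N3, h3⟩ := Par_grow 86 2
  obtain ⟨N4, h4⟩ := Par_grow 4 8
  obtain ⟨y, hy⟩ : ∃ y, y = N1 + 1 := ⟨_, rfl⟩
  obtain ⟨N, hN⟩ : ∃ N, N = 2 ^ y + N2 + N3 + N4 := ⟨_, rfl⟩
  refine ⟨12 * ((8 * y + 8) * (2 ^ y) ^ 6) + 1, 2 ^ 2 ^ N, fun n hn => ?_⟩
  have g1 := Nat.le_log_of_pow_le one_lt_two hn
  have g2 := Nat.le_log_of_pow_le one_lt_two g1
  have l1 := Nat.pow_log_le_self 2 (show n ≠ 0 from ((Nat.two_pow_pos _).trans_le hn).ne')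
  have l2 := Nat.lt_pow_succ_log_self one_lt_two n
  generalize Nat.log 2 n = l at *
  have ν1 := Nat.pow_log_le_self 2 (show l ≠ 0 from ((Nat.two_pow_pos _).trans_le g1).ne')
  have ν2 := Nat.lt_pow_succ_log_self one_lt_two l
  generalize Nat.log 2 l = ν at *
  have y0 : 0 < 2 ^ y := Nat.two_pow_pos y
  have y1 : 2 ^ y ≤ ν := by omega
  have νl : ν ≤ l := Nat.lt_two_pow_self.le.trans ν1
  have ln : l ≤ n := Nat.lt_two_pow_self.le.trans l1
  obtain ⟨p, h, hm⟩ := Par_ex (μ0 := m0 + r) (by omega) ⟨r4, by omega, y1, ν1, ν2, l1, l2,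
    le_trans (by
      rw [mul_assoc _ (19 ^ 2), ← mul_pow]
      exact Nat.mul_le_mul_left _ (Nat.pow_le_pow_left (by omega) 2)) (h1 y (by omega)),
    h2 ν (by omega), h3 l (by omega), h4 n (by omega)⟩
  have s1 := Par_sub hr hη h.rt
  have s2 := Par_sub hr hη h.t1.ge
  have r0 : (0 : ℝ) < r := by exact_mod_cast (by omega : 0 < r)
  have dv : ∀ {a b : ℝ}, 0 ≤ a → r * a ≤ b → a ≤ η * b := fun ha hab => by
    linarith only [mul_le_mul_of_nonneg_right hr ha, mul_le_mul_of_nonneg_left hab hη.le]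
  refine ⟨p, h.ok, by omega, ?_, fun C k hC hk => ?_⟩
  · have a1 := (h.c rfl (h.Ke ▸ h.H)).2.2.2
    have a2 := h.J0
    have a3 := h.J3
    rw [Pm.Am]
    omega
  · have T0 : (0 : ℝ) < 2 ^ (n - 1) := by positivity
    obtain ⟨f1, f2, f3⟩ := h.fit (C := C) (k := k)
      (by clear * - C n η hC hε T0 hk; exact_mod_cast (show (C : ℝ) ≤ 2 ^ (n - 1) by linarith only [hC, mul_pos hε T0])) hk
    refine ⟨f1, ?_⟩
    have a1 := dv (Nat.cast_nonneg _) (b := 2 * 2 ^ (n - 1)) (by exact_mod_cast f2)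
    have a2 := dv (Nat.cast_nonneg _) (b := 2 ^ (n - 1)) (by exact_mod_cast f3)
    have a3 := dv (Nat.cast_nonneg _) (b := p.nA) (by exact_mod_cast h.big.2.2.2)
    have a4 := dv (Nat.cast_nonneg _) (b := 2 ^ (p.hh + p.hh)) (by exact_mod_cast h.er)
    have a5 : (1 - η) * 2 ^ (p.hh + p.hh) ≤ (p.L0 : ℝ) := by
      clear * - η p r n l ν y h m0 r4 N1 N2 N3 N4 N C k a4
      rw [h.L0, Nat.cast_sub (le_trans (Nat.le_mul_of_pos_left _ (by omega)) h.er), Nat.cast_pow,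
        Nat.cast_ofNat]
      linarith
    have e0 : 0 < 1 - η := by clear * - η hε1 hη; linarith
    have a6 : (1 - η) ^ 4 * 2 ^ (n - 1) ≤ (p.nA : ℝ) * (p.L0 * p.Q * bin p.t p.mu p.kk) := by
      clear * - n p r l ν y h η s2 e0 a5 s1
      have e : (2 : ℝ) ^ (n - 1) = 2 ^ p.nL * (2 ^ (p.hh + p.hh) * p.Q) := by exact_mod_cast h.T
      rw [e, Pm.nL, Pm.nA, bin]
      simp only [Nat.cast_mul, Nat.cast_pow, Nat.cast_ofNat]
      calc _ = (1 - η) * 2 ^ p.t1 * ((1 - η) * 2 ^ p.t1) * 2 ^ (p.H + 1) *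
          ((1 - η) * 2 ^ (p.hh + p.hh) * p.Q * ((1 - η) * 2 ^ p.t * 2 ^ (p.mu + p.kk))) := by ring
        _ ≤ _ := by gcongr
    have a7 : 1 - 5 * η ≤ (1 - η) ^ 5 := by
      clear * - η hε1 hη
      have := one_add_mul_le_pow (a := -η) (by linarith) 5
      rw [← sub_eq_add_neg] at this
      push_cast at this
      linarith
    have D0 : (0 : ℝ) < p.L0 * p.Q * bin p.t p.mu p.kk :=
      pos_of_mul_pos_right (lt_of_lt_of_le (by positivity) a6) (Nat.cast_nonneg _)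
    generalize (p.L0 : ℝ) * p.Q * bin p.t p.mu p.kk = D at *
    generalize (2 : ℝ) ^ (n - 1) = T at *
    have W0 : (0 : ℝ) ≤ p.M0 * (p.L0 * 2 ^ p.t) * p.Wb C k := by positivity
    have a8 : ((1 + η) * p.Vb C k + 2 * (1 + η) * (p.M0 * (p.L0 * 2 ^ p.t) * p.Wb C k)) / D ≤
        (1 - η) * p.nA := by
      clear * - η p C k D D0 T a6 e0 a7 T0 hC a1 hε1 hη a2
      rw [div_le_iff₀ D0, Pm.Vb]
      push_cast at a1 a2 ⊢
      have b1 := mul_le_mul_of_nonneg_left a6 e0.le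
      have b2 := mul_le_mul_of_nonneg_right a7 T0.le
      have b3 : (C : ℝ) + p.Lc + p.K + 2 * p.Wb C k ≤ (1 - 18 * η) * T := by linarith
      have b4 := mul_le_mul_of_nonneg_left b3 (show 0 ≤ 1 + η by linarith)
      have b6 : 0 ≤ η * η * T := by positivity
      have b7 : 0 ≤ η * T := by positivity
      linarith only [b1, b2, b4, b6, b7, mul_le_mul_of_nonneg_left a2 hη.le, a2,
        mul_le_mul_of_nonneg_right (show η ≤ 1 by linarith) b7]
    push_cast at a3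
    refine le_trans (le_of_eq ?_) (le_trans (add_le_add a8 a3) (le_of_eq (by ring)))
    ring

end Pool.Agent.Work.MP_ede3c6_co.X
end
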